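import Pool.Statements.S00159
import Pool.Agent.H22.Final

set_option autoImplicit false
open Pool Pool.MP_429595_ag

namespace Pool.Agent.S00159

/-- For every algebraically closed field and every N ≥ 1 there is γ > 0 such that every dominant rational self-map of projective N-space has dynamical degree at least γ times the minimum of deg(f^{k+1})/deg(f^k) over k < N. -/
theorem result :
    ∀ (K : Type) [Field K] [IsAlgClosed K] (N : ℕ), 1 ≤ N →
      ∃ γ : ℝ, 0 < γ ∧
        ∀ (f : Fin (N+1) → MvPolynomial (Fin (N+1)) K) (d : ℕ),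
          (∀ i, (f i).IsHomogeneous d) → AlgebraicIndependent K f →
          ∀ D : ℕ → ℕ,
            (∀ n, D n = sInf {e : ℕ | ∃ (g : Fin (N+1) → MvPolynomial (Fin (N+1)) K)
                (c : MvPolynomial (Fin (N+1)) K), c ≠ 0 ∧
                (∀ i, ((fun h : Fin (N+1) → MvPolynomial (Fin (N+1)) K =>
                    fun j => MvPolynomial.bind₁ h (f j))^[n] MvPolynomial.X) i = c * g i) ∧
                ∀ i, (g i).totalDegree ≤ e}) →
            ∀ δ : ℝ, Filter.Tendsto (fun n : ℕ => ((D n : ℝ)) ^ ((1:ℝ) / (n:ℝ)))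
                Filter.atTop (nhds δ) →
              ∃ k < N, γ * ((D (k+1) : ℝ) / (D k : ℝ)) ≤ δ := by
  intro K _ _ N hN
  refine ⟨1 / (((N : ℝ) + 1) ^ 2) ^ (2 * N + 1), by positivity, ?_⟩
  intro f d hf hind D hD δ hδ
  exact Pool.Agent.H22.final hN f d hf hind D hD δ hδ

end Pool.Agent.S00159
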