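import Pool.Statements.S01468
import Pool.Agent.H4.SF.Draft
import Pool.Agent.H4.SF.O1
import Pool.Agent.H17.E2.Asm

set_option autoImplicit false
open Pool Pool.MP_52f71e_al

namespace Pool.Agent.S01468

/-- The negation of the preceding statement: There exists a finite loop in which all inner mappings L_{x,y}, R_{x,y}, T_x are automorphisms, which is not associative, and whose only congruences are equality and the total relation. -/
theorem result :
    ¬ (∃ (n : ℕ) (op : Fin n → Fin n → Fin n) (e : Fin n),
      (∀ x, op e x = x ∧ op x e = x) ∧
      (∀ a, Function.Bijective (op a) ∧ Function.Bijective (fun z => op z a)) ∧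
      (∀ x y u v a b c,
          op (op x y) a = op x (op y u) →
          op (op x y) b = op x (op y v) →
          op (op x y) c = op x (op y (op u v)) → c = op a b) ∧
      (∀ x y u v a b c,
          op a (op x y) = op (op u x) y →
          op b (op x y) = op (op v x) y →
          op c (op x y) = op (op (op u v) x) y → c = op a b) ∧
      (∀ x u v a b c,
          op x a = op u x →
          op x b = op v x →
          op x c = op (op u v) x → c = op a b) ∧
      (∃ x y z, op (op x y) z ≠ op x (op y z)) ∧
      (∀ r : Fin n → Fin n → Prop, Equivalence r →
          (∀ a b c d, r a b → r c d → r (op a c) (op b d)) →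
          (∀ a b, r a b → a = b) ∨ (∀ a b, r a b))) :=
  ALoop.frozen_of (fun _ _ _ _ _ h hodd => h.assoc_odd hodd) (fun _ _ _ _ h => h.assoc)

end Pool.Agent.S01468
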