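-- Proof of frozen statement S01469.
import Pool.Statements.S01469
import Pool.Agent.H6.LieAlg

set_option autoImplicit false
open Pool Pool.MP_5314be_al

namespace Pool.Agent.S01469

/-- There is a field K and a Lie algebra L over K such that L is not generated by any finite set, but every proper Lie subalgebra of L is generated by some finite set. -/
theorem result :
    ∃ (K : Type) (_ : Field K) (L : Type) (_ : LieRing L) (_ : LieAlgebra K L),
      (¬ ∃ s : Set L, s.Finite ∧ LieSubalgebra.lieSpan K L s = ⊤) ∧
      ∀ H : LieSubalgebra K L, H ≠ ⊤ →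
        ∃ s : Set L, s.Finite ∧ LieSubalgebra.lieSpan K L s = H :=
  ⟨Pool.Agent.H6.k0, inferInstance, Pool.Agent.H6.LL, inferInstance, inferInstance,
    Pool.Agent.H6.not_fg, Pool.Agent.H6.proper_fg⟩

end Pool.Agent.S01469
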