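import Pool.Statements.S01665
import Pool.Agent.H2.Irres.Final

set_option autoImplicit false
open Pool Pool.MP_611426_al

namespace Pool.Agent.S01665

/-- Every non-discrete topological group in which any two dense subsets intersect contains an infinite subgroup all of whose elements satisfy x·x = 1. -/
theorem result :
    ∀ (G : Type) [Group G] [TopologicalSpace G] [IsTopologicalGroup G],
      ¬ DiscreteTopology G →
      (∀ A B : Set G, Dense A → Dense B → (A ∩ B).Nonempty) →
      ∃ H : Subgroup G, (H : Set G).Infinite ∧ ∀ x ∈ H, x * x = 1 := by
  intro G _ _ _ hnd hirr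
  refine Pool.Agent.H2.Irres.main (Pool.Agent.H2.Irres.hi_of_irresolvable hirr) ?_
  intro V hV h1
  by_contra hcon
  push Not at hcon
  apply hnd
  rw [discreteTopology_iff_isOpen_singleton_one]
  have hV1 : V = {1} := by
    ext x
    constructor
    · intro hx
      exact hcon x hx
    · intro hx
      rw [Set.mem_singleton_iff] at hx
      rw [hx]
      exact h1
  rwa [hV1] at hV

end Pool.Agent.S01665
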