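import Pool.Statements.S01748
-- import your own Pool.Agent.* helpers here

set_option autoImplicit false
open scoped Pointwise
open Pool Pool.MP_674247_al

namespace Pool.Agent.S01748

/-! ### Word lengths -/

section Words

variable {H : Type} [Group H]

theorem mem_pow_inv {S : Set H} (hinv : ∀ x ∈ S, x⁻¹ ∈ S) :
    ∀ (n : ℕ) (x : H), x ∈ S ^ n → x⁻¹ ∈ S ^ n := by
  intro n
  induction n with
  | zero =>
    intro x hx
    simp only [pow_zero, Set.mem_one] at hx ⊢
    simp [hx]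
  | succ n ih =>
    intro x hx
    rw [pow_succ] at hx
    rw [pow_succ']
    obtain ⟨a, ha, b, hb, rfl⟩ := Set.mem_mul.1 hx
    rw [mul_inv_rev]
    exact Set.mul_mem_mul (hinv b hb) (ih a ha)

theorem mem_pow_mono {S : Set H} (h1 : (1 : H) ∈ S) {m n : ℕ} (h : m ≤ n) {x : H}
    (hx : x ∈ S ^ m) : x ∈ S ^ n :=
  Set.pow_subset_pow_right h1 h hx

theorem mem_pow_mul {S : Set H} {m n : ℕ} {x y : H}
    (hx : x ∈ S ^ m) (hy : y ∈ S ^ n) : x * y ∈ S ^ (m + n) := by
  rw [pow_add]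
  exact Set.mul_mem_mul hx hy

theorem exists_mem_pow {S : Set H} (hgen : Subgroup.closure S = ⊤) 
    (hinv : ∀ x ∈ S, x⁻¹ ∈ S) (x : H) : ∃ n : ℕ, x ∈ S ^ n := by
  have hx : x ∈ Subgroup.closure S := by rw [hgen]; trivial
  induction hx using Subgroup.closure_induction with
  | mem x hx => exact ⟨1, by simpa using hx⟩
  | one => exact ⟨0, by simp⟩
  | mul x y _ _ ihx ihy =>
    obtain ⟨m, hm⟩ := ihx
    obtain ⟨n, hn⟩ := ihy
    exact ⟨m + n, mem_pow_mul hm hn⟩
  | inv x _ ih =>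
    obtain ⟨m, hm⟩ := ih
    exact ⟨m, mem_pow_inv hinv m x hm⟩

/-- A finite set is contained in a ball. -/
theorem exists_ball {S : Set H} (hgen : Subgroup.closure S = ⊤) (h1 : (1 : H) ∈ S)
    (hinv : ∀ x ∈ S, x⁻¹ ∈ S) {α : Type} (F : Set α) (hF : F.Finite) (φ : α → H) :
    ∃ N : ℕ, ∀ a ∈ F, φ a ∈ S ^ N := by
  classical
  choose k hk using fun a : α => exists_mem_pow hgen hinv (φ a)
  refine ⟨hF.toFinset.sup k, fun a ha => ?_⟩
  exact mem_pow_mono h1 (Finset.le_sup (f := k) (by simpa using ha)) (hk a)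

/-- A map which moves neighbours by a bounded amount is Lipschitz. -/
theorem lipschitz_of_steps {K : Type} [Group K] {S : Set H} {T : Set K}
    (f : H → K) (D : ℕ) (hstep : ∀ (p : H), ∀ u ∈ S, (f p)⁻¹ * f (p * u) ∈ T ^ D) :
    ∀ (n : ℕ) (p q : H), p⁻¹ * q ∈ S ^ n → (f p)⁻¹ * f q ∈ T ^ (D * n) := by
  intro n
  induction n with
  | zero =>
    intro p q h
    have h' : p⁻¹ * q = 1 := by simpa using h
    have : p = q := by rwa [inv_mul_eq_one] at h'
    subst this
    simp
  | succ n ih =>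
    intro p q h
    rw [pow_succ] at h
    obtain ⟨a, ha, b, hb, hab⟩ := Set.mem_mul.1 h
    have hq : q = (p * a) * b := by
      have : q = p * (p⁻¹ * q) := by group
      rw [this, ← hab]; group
    have h1 := ih p (p * a) (by simpa using ha)
    have h2 := hstep (p * a) b hb
    have : (f p)⁻¹ * f q = ((f p)⁻¹ * f (p * a)) * ((f (p * a))⁻¹ * f (p * a * b)) := by
      rw [hq]; group
    rw [this, Nat.mul_succ]
    exact mem_pow_mul h1 h2

end Words

/-- The commutative group structure of a group embedded in the centre. -/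
theorem comm_of_central {Z E : Type} [Group Z] [Group E] (ι : Z →* E)
    (hinj : Function.Injective ι) (hc : ι.range ≤ Subgroup.center E) (a b : Z) :
    a * b = b * a := by
  apply hinj
  have ha : ι a ∈ Subgroup.center E := hc ⟨a, rfl⟩
  rw [map_mul, map_mul]
  exact ((Subgroup.mem_center_iff.1 ha) (ι b)).symm

/-- Coordinates of a finitely generated abelian group: finitely many integer valued
homomorphisms, jointly surjective and with finite joint balls. -/
theorem exists_coords (Z : Type) [Group Z] (hcomm : ∀ a b : Z, a * b = b * a)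
    (S : Finset Z) (hS : Subgroup.closure (S : Set Z) = ⊤) :
    ∃ (J : Type) (_ : Fintype J) (Λ : Z → J → ℤ),
      (∀ a b j, Λ (a * b) j = Λ a j + Λ b j) ∧
      (∀ v : J → ℤ, ∃ z, Λ z = v) ∧
      (∀ M : ℤ, {z : Z | ∀ j, |Λ z j| ≤ M}.Finite) := by
  let _ : CommGroup Z := { (inferInstance : Group Z) with mul_comm := hcomm }
  have : Group.FG Z := (Group.fg_iff).2 ⟨S, hS, S.finite_toSet⟩
  obtain ⟨I, J, fI, fJ, p, hp, e, ⟨F⟩⟩ := CommGroup.equiv_free_prod_prod_multiplicative_zmod Z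
  refine ⟨J, fJ, fun z j => Multiplicative.toAdd ((F z).1 j), ?_, ?_, ?_⟩
  · intro a b j
    simp
  · intro v
    refine ⟨F.symm (fun j => Multiplicative.ofAdd (v j), 1), ?_⟩
    funext j
    simp
  · intro M
    have : ∀ i, NeZero (p i ^ e i) := fun i => ⟨pow_ne_zero _ (hp i).ne_zero⟩
    have : ∀ i, Finite (Multiplicative (ZMod (p i ^ e i))) := fun i =>
      inferInstanceAs (Finite (ZMod (p i ^ e i)))
    have h1 : {v : J → Multiplicative ℤ | ∀ j, |Multiplicative.toAdd (v j)| ≤ M}.Finite := by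
      have : {v : J → Multiplicative ℤ | ∀ j, |Multiplicative.toAdd (v j)| ≤ M}
          = Set.pi Set.univ (fun _ : J => {x : Multiplicative ℤ | |Multiplicative.toAdd x| ≤ M}) := by
        ext v; simp
      rw [this]
      refine Set.Finite.pi (fun j => ?_)
      have : {x : Multiplicative ℤ | |Multiplicative.toAdd x| ≤ M}
          = Multiplicative.toAdd ⁻¹' (Set.Icc (-M) M) := by
        ext x; simp [abs_le]
      rw [this]
      exact (Set.finite_Icc (-M) M).preimage Multiplicative.toAdd.injective.injOn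
    have h2 : (({v : J → Multiplicative ℤ | ∀ j, |Multiplicative.toAdd (v j)| ≤ M}) ×ˢ
        (Set.univ : Set ((i : I) → Multiplicative (ZMod (p i ^ e i))))).Finite :=
      h1.prod Set.finite_univ
    refine (h2.preimage (f := F) F.injective.injOn).subset ?_
    intro z hz
    exact ⟨hz, Set.mem_univ _⟩

/-- The equivariant McShane extension: if the central subgroup `Z` is undistorted in `E`, then
every homomorphism `Z → ℤ` extends to a Lipschitz `Z`-equivariant function `E → ℤ`. -/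
theorem exists_equivariant {Z E : Type} [Group Z] [Group E] (ι : Z →* E)
    (SZ : Set Z) (SZf : SZ.Finite) (SE : Set E)
    (hc : ι.range ≤ Subgroup.center E)
    (h1E : (1 : E) ∈ SE) (hinvE : ∀ x ∈ SE, x⁻¹ ∈ SE) (hgenE : Subgroup.closure SE = ⊤)
    (C : ℕ) (hC : ∀ (z : Z) (n : ℕ), ι z ∈ SE ^ n → z ∈ SZ ^ (C * n + C))
    (lam : Z → ℤ) (hlam : ∀ a b, lam (a * b) = lam a + lam b) :
    ∃ (r : E → ℤ) (L : ℤ), (∀ z x, r (ι z * x) = lam z + r x) ∧
      (∀ x y, y ∈ SE → |r (x * y) - r x| ≤ L) := by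
  classical
  -- the word length of `E`
  let len : E → ℕ := fun x => sInf {n | x ∈ SE ^ n}
  have hlen : ∀ x, x ∈ SE ^ (len x) := fun x =>
    Nat.sInf_mem (s := {n | x ∈ SE ^ n}) (exists_mem_pow hgenE hinvE x)
  have hlen_le : ∀ x n, x ∈ SE ^ n → len x ≤ n := fun x n h => Nat.sInf_le h
  have hlen_mul : ∀ x y, len (x * y) ≤ len x + len y := fun x y =>
    hlen_le _ _ (mem_pow_mul (hlen x) (hlen y))
  have hlen_inv : ∀ x, len x⁻¹ = len x := by
    have h : ∀ x, len x⁻¹ ≤ len x := fun x => hlen_le _ _ (mem_pow_inv hinvE _ _ (hlen x))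
    intro x
    refine le_antisymm (h x) ?_
    simpa using h x⁻¹
  -- `lam` is Lipschitz
  have hlam1 : lam 1 = 0 := by have := hlam 1 1; simp at this; exact this
  obtain ⟨M, hM⟩ : ∃ M : ℕ, ∀ u ∈ SZ, |lam u| ≤ M := by
    refine ⟨SZf.toFinset.sup (fun u => (lam u).natAbs), fun u hu => ?_⟩
    have : (lam u).natAbs ≤ SZf.toFinset.sup (fun u => (lam u).natAbs) :=
      Finset.le_sup (f := fun u => (lam u).natAbs) (by simpa using hu)
    rw [Int.abs_eq_natAbs]
    exact_mod_cast this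
  have hlamLip : ∀ (n : ℕ) (z : Z), z ∈ SZ ^ n → |lam z| ≤ M * n := by
    intro n
    induction n with
    | zero =>
      intro z hz
      have : z = 1 := by simpa using hz
      subst this
      simp [hlam1]
    | succ n ih =>
      intro z hz
      rw [pow_succ] at hz
      obtain ⟨a, ha, b, hb, rfl⟩ := Set.mem_mul.1 hz
      rw [hlam]
      calc |lam a + lam b| ≤ |lam a| + |lam b| := abs_add_le _ _
        _ ≤ M * n + M := add_le_add (ih a ha) (hM b hb)
        _ = M * ((n + 1 : ℕ) : ℤ) := by push_cast; ring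
  -- the constant
  set L : ℤ := M * C with hL
  have hL0 : 0 ≤ L := by positivity
  have hlow : ∀ (z : Z) (x : E),
      -(L * len x) - L ≤ L * len ((ι z)⁻¹ * x) + lam z := by
    intro z x
    have h1 : len (ι z) ≤ len ((ι z)⁻¹ * x) + len x := by
      have : ι z = x * ((ι z)⁻¹ * x)⁻¹ := by group
      calc len (ι z) = len (x * ((ι z)⁻¹ * x)⁻¹) := by rw [← this]
        _ ≤ len x + len ((ι z)⁻¹ * x)⁻¹ := hlen_mul _ _
        _ = len ((ι z)⁻¹ * x) + len x := by rw [hlen_inv]; ring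
    have h2 := hlamLip _ z (hC z _ (hlen (ι z)))
    have h3 : -(M * ((C * len (ι z) + C : ℕ) : ℤ)) ≤ lam z := (abs_le.1 h2).1
    have h4 : (M * ((C * len (ι z) + C : ℕ) : ℤ)) = L * len (ι z) + L := by
      push_cast; rw [hL]; ring
    have h5 : L * (len (ι z) : ℤ) ≤ L * ((len ((ι z)⁻¹ * x) : ℤ) + len x) :=
      mul_le_mul_of_nonneg_left (by exact_mod_cast h1) hL0
    rw [h4] at h3
    linarith
  have hbdd : ∀ x : E, BddBelow (Set.range fun z : Z => L * (len ((ι z)⁻¹ * x) : ℤ) + lam z) := by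
    intro x
    refine ⟨-(L * len x) - L, ?_⟩
    rintro _ ⟨z, rfl⟩
    exact hlow z x
  have hne : ∀ x : E, (Set.range fun z : Z => L * (len ((ι z)⁻¹ * x) : ℤ) + lam z).Nonempty :=
    fun x => ⟨_, ⟨1, rfl⟩⟩
  let r : E → ℤ := fun x => sInf (Set.range fun z : Z => L * (len ((ι z)⁻¹ * x) : ℤ) + lam z)
  have hr_le : ∀ x z, r x ≤ L * (len ((ι z)⁻¹ * x) : ℤ) + lam z := fun x z =>
    csInf_le (hbdd x) ⟨z, rfl⟩
  have hr_att : ∀ x, ∃ z, r x = L * (len ((ι z)⁻¹ * x) : ℤ) + lam z := by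
    intro x
    obtain ⟨z, hz⟩ := Int.csInf_mem (hne x) (hbdd x)
    exact ⟨z, hz.symm⟩
  refine ⟨r, L, ?_, ?_⟩
  · -- equivariance
    have key : ∀ z x, r (ι z * x) ≤ lam z + r x := by
      intro z x
      obtain ⟨w, hw⟩ := hr_att x
      have h := hr_le (ι z * x) (z * w)
      have e1 : (ι (z * w))⁻¹ * (ι z * x) = (ι w)⁻¹ * x := by
        rw [map_mul]; group
      rw [e1, hlam] at h
      rw [hw]
      linarith
    intro z x
    refine le_antisymm (key z x) ?_
    have h := key z⁻¹ (ι z * x)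
    have e1 : ι z⁻¹ * (ι z * x) = x := by rw [map_inv]; group
    have e2 : lam z⁻¹ = - lam z := by
      have := hlam z z⁻¹
      rw [mul_inv_cancel, hlam1] at this
      linarith
    rw [e1, e2] at h
    linarith
  · -- Lipschitz
    have key : ∀ x y, y ∈ SE → r (x * y) ≤ r x + L := by
      intro x y hy
      obtain ⟨w, hw⟩ := hr_att x
      have h := hr_le (x * y) w
      have h1 : len ((ι w)⁻¹ * (x * y)) ≤ len ((ι w)⁻¹ * x) + 1 := by
        rw [← mul_assoc]
        refine (hlen_mul _ _).trans ?_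
        have : len y ≤ 1 := hlen_le _ _ (by simpa using hy)
        omega
      have h2 : L * (len ((ι w)⁻¹ * (x * y)) : ℤ) ≤ L * ((len ((ι w)⁻¹ * x) : ℤ) + 1) :=
        mul_le_mul_of_nonneg_left (by exact_mod_cast h1) hL0
      rw [hw]
      linarith
    intro x y hy
    rw [abs_le]
    constructor
    · have h := key (x * y) y⁻¹ (hinvE y hy)
      rw [mul_inv_cancel_right] at h
      linarith
    · have h := key x y hy
      linarith

/-- An undistorted central extension has a Lipschitz section. -/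
theorem exists_section {Z E G : Type} [Group Z] [Group E] [Group G] (ι : Z →* E) (π : E →* G)
    (hinj : Function.Injective ι) (hsurj : Function.Surjective π) (hex : ι.range = π.ker)
    (hc : ι.range ≤ Subgroup.center E)
    (SZ : Finset Z) (SE : Finset E)
    (hgenZ : Subgroup.closure (SZ : Set Z) = ⊤)
    (hgenE : Subgroup.closure (SE : Set E) = ⊤)
    (h1E : (1 : E) ∈ SE) (hinvE : ∀ x ∈ SE, x⁻¹ ∈ SE)
    (C : ℕ) (hC : ∀ (z : Z) (n : ℕ), ι z ∈ (SE : Set E) ^ n → z ∈ (SZ : Set Z) ^ (C * n + C)) :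
    ∃ (s : G → E) (D : ℕ), (∀ g, π (s g) = g) ∧
      ∀ g : G, ∀ y ∈ SE, (s g)⁻¹ * s (g * π y) ∈ (SE : Set E) ^ D := by
  classical
  obtain ⟨J, fJ, Λ, hΛmul, hΛsurj, hΛfin⟩ :=
    exists_coords Z (comm_of_central ι hinj hc) SZ hgenZ
  choose r L hr hrL using fun j : J => exists_equivariant ι (SZ : Set Z) SZ.finite_toSet
    (SE : Set E) hc h1E hinvE hgenE C hC (fun z => Λ z j) (fun a b => hΛmul a b j)
  choose x0 hx0 using hsurj
  -- the section
  choose z0 hz0 using fun g : G => hΛsurj (fun j => - r j (x0 g))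
  have hιker : ∀ z, π (ι z) = 1 := fun z => by
    have : ι z ∈ π.ker := by rw [← hex]; exact ⟨z, rfl⟩
    simpa using this
  let s : G → E := fun g => ι (z0 g) * x0 g
  have hs : ∀ g, π (s g) = g := fun g => by simp [s, hιker, hx0]
  have hrs : ∀ g j, r j (s g) = 0 := by
    intro g j
    have h := hr j (z0 g) (x0 g)
    simp only [s]
    rw [h, hz0]
    ring
  -- a finite ball of `Z` containing all the errors
  obtain ⟨N, hN⟩ := exists_ball hgenE h1E hinvE {z : Z | ∀ j, |Λ z j| ≤ ∑ i, |L i|}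
    (hΛfin _) ι
  refine ⟨s, N + 1, hs, ?_⟩
  intro g y hy
  -- `s (g π(y)) = ι z * s g * y`
  have hk : s (g * π y) * (s g * y)⁻¹ ∈ π.ker := by
    have e1 : π (s (g * π y)) = g * π y := hs _
    have e2 : π (s g * y) = g * π y := by rw [map_mul π (s g) y, hs]
    rw [MonoidHom.mem_ker, map_mul π (s (g * π y)), map_inv, e1, e2, mul_inv_cancel]
  rw [← hex] at hk
  obtain ⟨z, hz⟩ := hk
  have hz' : s (g * π y) = ι z * (s g * y) := by rw [hz]; group
  have hbound : ∀ j, |Λ z j| ≤ ∑ i, |L i| := by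
    intro j
    have h1 := hrs (g * π y) j
    rw [hz', hr] at h1
    have h2 := hrL j (s g) y hy
    rw [hrs g j, sub_zero] at h2
    have h3 : Λ z j = - r j (s g * y) := by linarith
    rw [h3, abs_neg]
    refine (h2.trans (le_abs_self _)).trans ?_
    exact Finset.single_le_sum (f := fun i => |L i|) (fun i _ => abs_nonneg _) (Finset.mem_univ j)
  have hcen : ι z ∈ Subgroup.center E := hc ⟨z, rfl⟩
  have hcomm := (Subgroup.mem_center_iff.1 hcen) (s g)⁻¹
  have : (s g)⁻¹ * s (g * π y) = ι z * y := by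
    rw [hz', ← mul_assoc, hcomm]
    group
  rw [this]
  exact mem_pow_mul (hN z hbound) (by simpa using hy)

/-- The negation of the preceding statement: There is a central extension 1→Z→E→G→1 of finitely generated groups in which Z is undistorted in E (word metrics), but no quasi-isometry Z×G→E commutes with the projections to G. -/
theorem result :
    ¬ (∃ (Z E G : Type) (_ : Group Z) (_ : Group E) (_ : Group G) (ι : Z →* E) (π : E →* G),
    Function.Injective ι ∧ Function.Surjective π ∧ ι.range = π.ker ∧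
    ι.range ≤ Subgroup.center E ∧
    ∃ (SZ : Finset Z) (SE : Finset E) (SP : Finset (Z × G)),
      Subgroup.closure (SZ : Set Z) = ⊤ ∧ (1 : Z) ∈ SZ ∧ (∀ x ∈ SZ, x⁻¹ ∈ SZ) ∧
      Subgroup.closure (SE : Set E) = ⊤ ∧ (1 : E) ∈ SE ∧ (∀ x ∈ SE, x⁻¹ ∈ SE) ∧
      Subgroup.closure (SP : Set (Z × G)) = ⊤ ∧ (1 : Z × G) ∈ SP ∧ (∀ x ∈ SP, x⁻¹ ∈ SP) ∧
      (∃ C : ℕ, ∀ (z : Z) (n : ℕ),
          ι z ∈ (SE : Set E) ^ n → z ∈ (SZ : Set Z) ^ (C * n + C)) ∧
      ¬ ∃ (f : Z × G → E) (C : ℕ), (∀ p : Z × G, π (f p) = p.2) ∧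
          (∀ (p q : Z × G) (n : ℕ), p⁻¹ * q ∈ (SP : Set (Z × G)) ^ n →
              (f p)⁻¹ * f q ∈ (SE : Set E) ^ (C * n + C)) ∧
          (∀ (p q : Z × G) (n : ℕ), (f p)⁻¹ * f q ∈ (SE : Set E) ^ n →
              p⁻¹ * q ∈ (SP : Set (Z × G)) ^ (C * n + C)) ∧
          (∀ e : E, ∃ p : Z × G, (f p)⁻¹ * e ∈ (SE : Set E) ^ C)) := by
  classical
  rintro ⟨Z, E, G, instZ, instE, instG, ι, π, hinj, hsurj, hex, hc, SZ, SE, SP, hgenZ, h1Z, hinvZ,
    hgenE, h1E, hinvE, hgenP, h1P, hinvP, ⟨C, hC⟩, hno⟩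
  apply hno
  obtain ⟨s, D, hs, hstep⟩ := exists_section ι π hinj hsurj hex hc SZ SE hgenZ hgenE h1E hinvE C hC
  have hιker : ∀ z, π (ι z) = 1 := fun z => by
    have : ι z ∈ π.ker := by rw [← hex]; exact ⟨z, rfl⟩
    simpa using this
  -- the section is Lipschitz along words of `E`
  have hsLip : ∀ (n : ℕ) (g : G) (y : E), y ∈ (SE : Set E) ^ n →
      (s g)⁻¹ * s (g * π y) ∈ (SE : Set E) ^ (D * n) := by
    intro n
    induction n with
    | zero =>
      intro g y hy
      have : y = 1 := by simpa using hy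
      subst this
      simp
    | succ n ih =>
      intro g y hy
      rw [pow_succ] at hy
      obtain ⟨a, ha, b, hb, rfl⟩ := Set.mem_mul.1 hy
      have h1 := ih g a ha
      have h2 := hstep (g * π a) b hb
      have : (s g)⁻¹ * s (g * π (a * b)) =
          ((s g)⁻¹ * s (g * π a)) * ((s (g * π a))⁻¹ * s (g * π a * π b)) := by
        rw [map_mul, mul_assoc g]; group
      rw [this, Nat.mul_succ]
      exact mem_pow_mul h1 h2
  let f : Z × G → E := fun p => ι p.1 * s p.2
  have hcen : ∀ z e, ι z * e = e * ι z := fun z e =>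
    ((Subgroup.mem_center_iff.1 (hc ⟨z, rfl⟩)) e).symm
  have hf : ∀ p q : Z × G, (f p)⁻¹ * f q = ι (p.1⁻¹ * q.1) * ((s p.2)⁻¹ * s q.2) := by
    intro p q
    simp only [f]
    rw [mul_inv_rev, map_mul, map_inv]
    have h1 : (s p.2)⁻¹ * (ι p.1)⁻¹ = (ι p.1)⁻¹ * (s p.2)⁻¹ := by
      have := hcen p.1⁻¹ (s p.2)⁻¹
      rw [map_inv] at this
      exact this.symm
    rw [h1]
    have h2 : (s p.2)⁻¹ * (ι q.1 * s q.2) = ι q.1 * ((s p.2)⁻¹ * s q.2) := by
      rw [← mul_assoc, ← hcen q.1, mul_assoc]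
    rw [mul_assoc, h2, mul_assoc]
  -- upper step constant
  obtain ⟨A, hA⟩ := exists_ball hgenE h1E hinvE (SP : Set (Z × G)) SP.finite_toSet
    (fun u => ι u.1)
  choose yl hyl using hsurj
  obtain ⟨B, hB⟩ := exists_ball hgenE h1E hinvE (SP : Set (Z × G)) SP.finite_toSet
    (fun u => yl u.2)
  -- lower constants
  obtain ⟨D1, hD1⟩ := exists_ball hgenP h1P hinvP (SZ : Set Z) SZ.finite_toSet
    (fun u => ((u, 1) : Z × G))
  obtain ⟨D2, hD2⟩ := exists_ball hgenP h1P hinvP (SE : Set E) SE.finite_toSet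
    (fun y => ((1, π y) : Z × G))
  have hD1n : ∀ (n : ℕ) (z : Z), z ∈ (SZ : Set Z) ^ n →
      ((z, 1) : Z × G) ∈ (SP : Set (Z × G)) ^ (D1 * n) := by
    intro n
    induction n with
    | zero => 
      intro z hz
      have : z = 1 := by simpa using hz
      subst this
      simp only [Nat.mul_zero, pow_zero, Set.mem_one]
      rfl
    | succ n ih =>
      intro z hz
      rw [pow_succ] at hz
      obtain ⟨a, ha, b, hb, rfl⟩ := Set.mem_mul.1 hz
      have : ((a * b, 1) : Z × G) = (a, 1) * (b, 1) := by simp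
      rw [this, Nat.mul_succ]
      exact mem_pow_mul (ih a ha) (hD1 b hb)
  have hD2n : ∀ (n : ℕ) (y : E), y ∈ (SE : Set E) ^ n →
      ((1, π y) : Z × G) ∈ (SP : Set (Z × G)) ^ (D2 * n) := by
    intro n
    induction n with
    | zero => 
      intro y hy
      have : y = 1 := by simpa using hy
      subst this
      simp only [Nat.mul_zero, pow_zero, Set.mem_one, map_one]
      rfl
    | succ n ih =>
      intro y hy
      rw [pow_succ] at hy
      obtain ⟨a, ha, b, hb, rfl⟩ := Set.mem_mul.1 hy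
      have : ((1, π (a * b)) : Z × G) = (1, π a) * (1, π b) := by simp
      rw [this, Nat.mul_succ]
      exact mem_pow_mul (ih a ha) (hD2 b hb)
  set K : ℕ := (A + D * B) + (D1 * (C * (D + 1)) + D2) + D1 * C with hK
  have h1E' : (1 : E) ∈ (SE : Set E) := h1E
  have h1P' : (1 : Z × G) ∈ (SP : Set (Z × G)) := h1P
  refine ⟨f, K, ?_, ?_, ?_, ?_⟩
  · intro p
    simp [f, hιker, hs]
  · intro p q n hpq
    have hst : ∀ (p : Z × G), ∀ u ∈ (SP : Set (Z × G)),
        (f p)⁻¹ * f (p * u) ∈ (SE : Set E) ^ (A + D * B) := by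
      intro p u hu
      rw [hf]
      have e1 : p.1⁻¹ * (p * u).1 = u.1 := by simp
      have e2 : (p * u).2 = p.2 * π (yl u.2) := by rw [hyl]; rfl
      rw [e1, e2]
      exact mem_pow_mul (hA u hu) (hsLip B p.2 _ (hB u hu))
    have h := lipschitz_of_steps f (A + D * B) hst n p q hpq
    refine mem_pow_mono h1E' ?_ h
    calc (A + D * B) * n ≤ K * n := Nat.mul_le_mul_right _ (by omega)
      _ ≤ K * n + K := Nat.le_add_right _ _
  · intro p q n hpq
    -- the `G` coordinate
    have hπ : π ((f p)⁻¹ * f q) = p.2⁻¹ * q.2 := by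
      simp [f, hιker, hs]
    have h1 := hsLip n p.2 _ hpq
    rw [hπ, mul_inv_cancel_left] at h1
    have h2 : ι (p.1⁻¹ * q.1) ∈ (SE : Set E) ^ ((D + 1) * n) := by
      have e : ι (p.1⁻¹ * q.1) = ((f p)⁻¹ * f q) * ((s p.2)⁻¹ * s q.2)⁻¹ := by
        rw [hf]; group
      rw [e]
      have := mem_pow_mul hpq (mem_pow_inv hinvE _ _ h1)
      have e2 : n + D * n = (D + 1) * n := by ring
      rwa [e2] at this
    have h3 := hC _ _ h2
    have h4 := hD1n _ _ h3
    have h5 := hD2n _ _ hpq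
    rw [hπ] at h5
    have h6 : p⁻¹ * q = ((p.1⁻¹ * q.1, 1) : Z × G) * (1, p.2⁻¹ * q.2) := by
      ext <;> simp
    rw [h6]
    refine mem_pow_mono h1P' ?_ (mem_pow_mul h4 h5)
    have e3 : D1 * (C * ((D + 1) * n) + C) + D2 * n
        = (D1 * (C * (D + 1)) + D2) * n + D1 * C := by ring
    rw [e3]
    have : (D1 * (C * (D + 1)) + D2) * n ≤ K * n := Nat.mul_le_mul_right _ (by omega)
    omega
  · intro e
    have hk : e * (s (π e))⁻¹ ∈ π.ker := by
      rw [MonoidHom.mem_ker, map_mul, map_inv, hs]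
      group
    rw [← hex] at hk
    obtain ⟨z, hz⟩ := hk
    refine ⟨(z, π e), ?_⟩
    have : f (z, π e) = e := by
      simp only [f]
      rw [hz]; group
    rw [this, inv_mul_cancel]
    exact Set.one_mem_pow h1E'

end Pool.Agent.S01748
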