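import Pool.Statements.S01938
import Pool.Agent.H1.Mal.Final

set_option autoImplicit false
open Pool Pool.MP_75f770_al

namespace Pool.Agent.S01938

/-- Over the rationals, every identity of the Malcev algebras generated by three elements is an
identity of the Malcev algebras generated by four elements; hence the varieties generated by the
free Malcev algebras of ranks 3 and 4 coincide over the rationals. -/
theorem result :
    ¬ (∀ (K : Type) [Field K], ringChar K ≠ 2 → ringChar K ≠ 3 →
      ∃ f : MonoidAlgebra K (FreeMagma ℕ),
        (∀ (A : Type) [NonUnitalNonAssocRing A] [Module K A] [IsScalarTower K A A]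
            [SMulCommClass K A A],
            (∀ x : A, x * x = 0) →
            (∀ x y z : A,
              x * y * (x * z) + y * (x * z) * x + x * z * x * y
                = (x * y * z + y * z * x + z * x * y) * x) →
            ∀ a : Fin 3 → A, NonUnitalAlgebra.adjoin K (Set.range a) = ⊤ →
            ∀ v : ℕ → A, MonoidAlgebra.liftMagma K (FreeMagma.lift v) f = 0) ∧
        ¬ (∀ (A : Type) [NonUnitalNonAssocRing A] [Module K A] [IsScalarTower K A A]
            [SMulCommClass K A A],
            (∀ x : A, x * x = 0) →
            (∀ x y z : A,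
              x * y * (x * z) + y * (x * z) * x + x * z * x * y
                = (x * y * z + y * z * x + z * x * y) * x) →
            ∀ a : Fin 4 → A, NonUnitalAlgebra.adjoin K (Set.range a) = ⊤ →
            ∀ v : ℕ → A, MonoidAlgebra.liftMagma K (FreeMagma.lift v) f = 0)) := by
  intro h
  have hr : ringChar ℚ = 0 := ringChar.eq_zero
  obtain ⟨f, h3, h4⟩ := h ℚ (by rw [hr]; norm_num) (by rw [hr]; norm_num)
  apply h4
  intro A _ _ _ _ hsq hmal a ha v
  have hM : Pool.Agent.H1.Mal.IsMal A := ⟨hsq, hmal⟩
  refine Pool.Agent.H1.Mal.main_thm (f := f) ?_ A a ha v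
  intro B _ _ _ _ hB b hb w
  exact h3 B hB.sq hB.mal b hb w

end Pool.Agent.S01938
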