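import Pool.Statements.S02330
import Pool.Agent.H13.NavLower

set_option autoImplicit false
open Pool Pool.MP_943e8c_al

namespace Pool.Agent.S02330

/-- An element of order four. -/
def qa : Pool.Agent.H13.NG := ⟨0, 0, 0, (1, 0), 0, 0⟩

/-- Another element of order four. -/
def qb : Pool.Agent.H13.NG := ⟨0, 0, 0, (0, 1), 0, 0⟩

theorem qa_qb : (qa * qb).e ≠ (qb * qa).e := by decide

/-- The set of dimensions of simple representations of Sylow subgroups is bounded. -/
theorem bdd (p : ℕ) : BddAbove {n : ℕ | ∃ P : Sylow p Pool.Agent.H13.NG,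
    ∃ V : FDRep ℂ ↥(P : Subgroup Pool.Agent.H13.NG),
      CategoryTheory.Simple V ∧ Module.finrank ℂ V = n} := by
  refine ⟨Nat.card Pool.Agent.H13.NG, ?_⟩
  rintro n ⟨P, V, hV, rfl⟩
  exact (Pool.Agent.H13.finrank_le_card V).trans
    (Nat.le_of_dvd Nat.card_pos (Subgroup.card_subgroup_dvd_card _))

/-- The negation of the preceding statement: For every finite group G, the product over primes p dividing ∣G∣ of the largest irreducible complex representation dimension of a Sylow p-subgroup is at most the largest irreducible complex representation dimension of G. -/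
theorem result :
    ¬ (∀ (G : Type) [Group G] [Fintype G],
      ∏ p ∈ (Fintype.card G).primeFactors,
          sSup {n : ℕ | ∃ P : Sylow p G, ∃ V : FDRep ℂ ↥(P : Subgroup G),
            CategoryTheory.Simple V ∧ Module.finrank ℂ V = n}
        ≤ sSup {n : ℕ | ∃ V : FDRep ℂ G,
            CategoryTheory.Simple V ∧ Module.finrank ℂ V = n}) := by
  intro h
  have h1 := h Pool.Agent.H13.NG
  have hR : sSup {n : ℕ | ∃ V : FDRep ℂ Pool.Agent.H13.NG,
      CategoryTheory.Simple V ∧ Module.finrank ℂ V = n} ≤ 108 := by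
    apply csSup_le'
    rintro n ⟨V, hV, rfl⟩
    exact Pool.Agent.H13.finrank_le_108 V
  have hpf : (Fintype.card Pool.Agent.H13.NG).primeFactors = {2, 3} := by
    rw [Pool.Agent.H13.NG.card_NG]
    have h2 : (472392 : ℕ) = 2 ^ 3 * 3 ^ 10 := by norm_num
    rw [h2, Nat.primeFactors_mul (by norm_num) (by norm_num),
      Nat.primeFactors_prime_pow (by norm_num) Nat.prime_two,
      Nat.primeFactors_prime_pow (by norm_num) Nat.prime_three]
    rfl
  rw [hpf, Finset.prod_pair (by norm_num)] at h1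
  have hF2 : Fact (Nat.Prime 2) := ⟨Nat.prime_two⟩
  have hF3 : Fact (Nat.Prime 3) := ⟨Nat.prime_three⟩
  have h2 : 2 ≤ sSup {n : ℕ | ∃ P : Sylow 2 Pool.Agent.H13.NG,
      ∃ V : FDRep ℂ ↥(P : Subgroup Pool.Agent.H13.NG),
      CategoryTheory.Simple V ∧ Module.finrank ℂ V = n} := by
    obtain ⟨P, hP⟩ := (IsPGroup.of_card Pool.Agent.H13.NG.card_P2).exists_le_sylow
    let a : P := ⟨qa, hP ⟨rfl, rfl, rfl, rfl⟩⟩
    let b : P := ⟨qb, hP ⟨rfl, rfl, rfl, rfl⟩⟩
    have hab : a * b ≠ b * a := by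
      intro h
      exact qa_qb (congrArg (fun x : P => (x : Pool.Agent.H13.NG).e) h)
    obtain ⟨V, hV, hV2⟩ := Pool.Agent.H13.exists_simple_two a b hab
    exact hV2.trans (le_csSup (bdd 2) ⟨P, V, hV, rfl⟩)
  have h3 : 81 ≤ sSup {n : ℕ | ∃ P : Sylow 3 Pool.Agent.H13.NG,
      ∃ V : FDRep ℂ ↥(P : Subgroup Pool.Agent.H13.NG),
      CategoryTheory.Simple V ∧ Module.finrank ℂ V = n} := by
    obtain ⟨P, hP⟩ := (IsPGroup.of_card Pool.Agent.H13.NG.card_P3).exists_le_sylow
    obtain ⟨V, hV, hV2⟩ := Pool.Agent.H13.exists_simple_81 P hP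
    exact hV2.trans (le_csSup (bdd 3) ⟨P, V, hV, rfl⟩)
  have h4 := Nat.mul_le_mul h2 h3
  omega

end Pool.Agent.S02330
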