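-- Proof of frozen statement S02672 (the negation of Q1 of MP_ac3292_al).
-- Counterexample with n = 2: G is the lamplighter group Z/2 wr Q over the crystallographic
-- group Q = Z^2 x| Z/3.  The base group is locally finite (asdim 0) and coarsely separates G,
-- asdim G is at least 2 (two dimensional Sperner lemma), and G does not split at all: it satisfies
-- [g^3, h^3]^2 = 1, has only one nontrivial homomorphism to signs and none to the integers.
import Pool.Statements.S02672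
import Pool.Agent.H14.CoarseMain

set_option autoImplicit false
open Pool Pool.MP_ac3292_al

namespace Pool.Agent.S02672

/-- The negation of the preceding statement: For all f.g. G with Cayley graph Γ and m:ℕ: if asdim G ≥ m+2 and some X with asdim X ≤ m coarsely separates Γ (two distinct deep components of the complement of the r-neighbourhood), then G is a nontrivial amalgam K₀ *_H K₁ or an HNN extension A*_H over some subgroup H with asdim H ≤ m+1. -/
theorem result :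
    ¬ (∀ (G : Type) [Group G] (S : Finset G), Subgroup.closure (S : Set G) = ⊤ →
  ∀ (Γ : SimpleGraph G), Γ = SimpleGraph.fromRel (fun g h : G => g⁻¹ * h ∈ S) →
  ∀ (asdimLE : Set G → ℕ → Prop),
    (∀ (Y : Set G) (k : ℕ), asdimLE Y k ↔
      ∀ R : ℕ, ∃ 𝒰 : Set (Set G), (∀ U ∈ 𝒰, U ⊆ Y) ∧ Y ⊆ ⋃₀ 𝒰 ∧
        (∃ D : ℕ, ∀ U ∈ 𝒰, ∀ a ∈ U, ∀ b ∈ U, Γ.dist a b ≤ D) ∧
        ∀ y ∈ Y, {U ∈ 𝒰 | ∃ z ∈ U, Γ.dist y z ≤ R}.encard ≤ (k + 1 : ℕ∞)) →
  ∀ (m : ℕ), ¬ asdimLE Set.univ (m + 1) →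
  ∀ (X : Set G), asdimLE X m →
  (∃ r : ℕ, ∃ Ω : Set G, Ω = {v : G | ∀ x ∈ X, r < Γ.dist v x} ∧
    ∃ C₁ C₂ : (Γ.induce Ω).ConnectedComponent, C₁ ≠ C₂ ∧
      ∀ C : (Γ.induce Ω).ConnectedComponent, (C = C₁ ∨ C = C₂) →
        ∀ D : ℕ, ∃ v : Ω, (Γ.induce Ω).connectedComponentMk v = C ∧
          ∀ x ∈ X, D < Γ.dist (v : G) x) →
  ∃ H : Subgroup G, asdimLE (H : Set G) (m + 1) ∧
    ((∃ (K : Bool → Subgroup G) (hK : ∀ i, H ≤ K i), (∀ i, H ≠ K i) ∧
        ∃ e : Monoid.PushoutI (fun i : Bool => Subgroup.inclusion (hK i)) ≃* G,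
          ∀ (i : Bool) (a : K i), e (Monoid.PushoutI.of i a) = (a : G)) ∨
     (∃ (A : Subgroup G) (B₁ B₂ : Subgroup A) (φ : B₁ ≃* B₂)
        (e : HNNExtension A B₁ B₂ φ ≃* G),
          (∀ a : A, e (HNNExtension.of a) = (a : G)) ∧ H = B₁.map A.subtype))) := by
  intro h
  obtain ⟨H, -, hsplit⟩ := h Pool.Agent.H14.LampGp Pool.Agent.H14.LampGp.gens
    Pool.Agent.H14.LampGp.closure_gens Pool.Agent.H14.LampGp.Cay rfl
    Pool.Agent.H14.LampGp.AsdimLE (fun _ _ => Iff.rfl) 0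
    Pool.Agent.H14.LampGp.not_asdim_one Pool.Agent.H14.LampGp.base
    Pool.Agent.H14.LampGp.base_asdim Pool.Agent.H14.LampGp.separation
  rcases hsplit with ⟨K, hK, hne, e, he⟩ | ⟨A, B₁, B₂, φ, e, -, -⟩
  · exact Pool.Agent.H14.no_amalgam hK hne e he Pool.Agent.H14.LampGp.law
      Pool.Agent.H14.LampGp.sign_homs
  · exact Pool.Agent.H14.no_hnn A B₁ B₂ φ e Pool.Agent.H14.LampGp.int_homs

end Pool.Agent.S02672
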