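import Pool.Statements.S02939
import Pool.Agent.H9.Assembly

set_option autoImplicit false
open Pool Pool.MP_bfc4df_al

namespace Pool.Agent.S02939

/-- Some group acts faithfully and level-transitively on a locally finite rooted tree with at least two children per vertex, with all rigid level stabilizers of finite index, and has Kazhdan's property (T) via a finite Kazhdan set. -/
theorem result :
  ∃ (G : Type) (_ : Group G) (V : Type) (_ : MulAction G V) (r : V) (p : V → V),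
    p r = r ∧ (∀ v : V, p v = v → v = r) ∧ (∀ v : V, ∃ n : ℕ, p^[n] v = r) ∧
    (∀ v : V, {w : V | w ≠ r ∧ p w = v}.Finite) ∧
    (∀ v : V, ∃ a b : V, a ≠ b ∧ a ≠ r ∧ b ≠ r ∧ p a = v ∧ p b = v) ∧
    (∀ (g : G) (v : V), p (g • v) = g • p v) ∧
    (∀ g : G, (∀ v : V, g • v = v) → g = 1) ∧
    (∀ (n : ℕ) (v w : V), p^[n] v = r → (∀ k < n, p^[k] v ≠ r) →
        p^[n] w = r → (∀ k < n, p^[k] w ≠ r) → ∃ g : G, g • v = w) ∧
    (∀ n : ℕ, (Subgroup.closure {g : G | ∃ v : V, p^[n] v = r ∧ (∀ k < n, p^[k] v ≠ r) ∧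
        ∀ u : V, (∀ k : ℕ, p^[k] u ≠ v) → g • u = u}).index ≠ 0) ∧
    ∃ (S : Finset G) (ε : ℝ), 0 < ε ∧
      ∀ (H : Type) [NormedAddCommGroup H] [InnerProductSpace ℂ H] [CompleteSpace H]
        (ρ : G →* unitary (H →L[ℂ] H)),
        (∃ x : H, ‖x‖ = 1 ∧ ∀ s ∈ S, ‖(ρ s : H →L[ℂ] H) x - x‖ < ε) →
        ∃ x : H, x ≠ 0 ∧ ∀ g : G, (ρ g : H →L[ℂ] H) x = x := by
  have hp : Fact (Nat.Prime 37) := ⟨by norm_num⟩
  refine ⟨Pool.Agent.H9.Branch.Gp (ZMod 37), inferInstance,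
    List (Pool.Agent.H9.Letters.L (ZMod 37)), inferInstance, [], List.dropLast,
    rfl, ?_, ?_, ?_, ?_, ?_, ?_, ?_, ?_, ?_⟩
  · intro v hv
    exact Pool.Agent.H9.Branch.dropLast_fixed hv
  · intro v
    exact ⟨v.length, Pool.Agent.H9.Branch.level_self v⟩
  · intro v
    exact Pool.Agent.H9.Branch.finite_children v
  · intro v
    exact Pool.Agent.H9.Branch.two_children v
  · intro g v
    exact Pool.Agent.H9.Branch.dropLast_eq v g.2
  · intro g hg
    exact Subtype.ext (Equiv.ext hg)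
  · intro n v w hv1 hv2 hw1 hw2
    obtain ⟨g, hg, hgv⟩ := Pool.Agent.H9.Branch.exists_word v w
      ((Pool.Agent.H9.Branch.level_iff hv1 hv2).trans
        (Pool.Agent.H9.Branch.level_iff hw1 hw2).symm)
    exact ⟨⟨g, hg⟩, hgv⟩
  · intro n
    exact Pool.Agent.H9.Branch.index_RS n
  · exact Pool.Agent.H9.Branch.kazhdan_Gp (by norm_num)

end Pool.Agent.S02939
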