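import Pool.Statements.S03463
import Pool.Agent.H12.EngelRep

set_option autoImplicit false
open Pool Pool.MP_ec79b7_al

namespace Pool.Agent.S03463

/-- Every lattice-ordered group with the Engel property (for all x, y some iterated commutator [x,_n y] is 1) is residually totally ordered: each non-identity element survives some lattice-and-group homomorphism into a totally ordered group. -/
theorem result :
    ∀ (G : Type) [Group G] [Lattice G] [MulLeftMono G] [MulRightMono G],
      (∀ x y : G, ∃ n : ℕ, (fun z : G => z⁻¹ * y⁻¹ * z * y)^[n] x = 1) →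
      ∀ g : G, g ≠ 1 →
        ∃ (H : Type) (_ : Group H) (_ : LinearOrder H) (_ : MulLeftMono H)
          (_ : MulRightMono H) (f : G →* H),
          (∀ a b : G, f (a ⊔ b) = f a ⊔ f b) ∧
          (∀ a b : G, f (a ⊓ b) = f a ⊓ f b) ∧
          f g ≠ 1 := by
  intro G _ _ _ _ hE g hg
  exact Pool.Agent.H12.Engel.engel_residually_ordered hE g hg

end Pool.Agent.S03463
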