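import Pool.Statements.S03632
import Pool.Agent.H3.Saxl.AFour

set_option autoImplicit false
open Pool Pool.MP_fd9dd3_al

namespace Pool.Agent.S03632

/-- The negation of the preceding statement: For every finite primitive permutation group with base size exactly 2, any two distinct points have a third point forming a base with each of them, i.e. any two Saxl-graph vertices have a common neighbour. -/
theorem result :
    ¬ (∀ (Ω : Type) [Finite Ω] (G : Subgroup (Equiv.Perm Ω)),
      MulAction.IsPreprimitive G Ω →
      (∃ α β : Ω, ∀ g ∈ G, g α = α → g β = β → g = 1) →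
      (∀ α : Ω, ∃ g ∈ G, g α = α ∧ g ≠ 1) →
      ∀ α β : Ω, α ≠ β →
        ∃ γ : Ω, γ ≠ α ∧ γ ≠ β ∧
          (∀ g ∈ G, g α = α → g γ = γ → g = 1) ∧
          (∀ g ∈ G, g β = β → g γ = γ → g = 1)) := by
  exact Pool.Agent.H3.Saxl.counterexample

end Pool.Agent.S03632
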