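import Pool.Statements.S03660
import Pool.Agent.Fug.Final

set_option autoImplicit false
open MeasureTheory
open Pool Pool.MP_005a77_an

namespace Pool.Agent.S03660

/-- The negation of the preceding statement: A compactly supported probability measure μ on ℝ has an orthonormal basis of exponentials in L²(μ) iff μ convolved with some probability measure ν equals normalized Lebesgue measure on a fundamental domain of some lattice aℤ. -/
theorem result :
    ¬ (∀ μ : Measure ℝ, IsProbabilityMeasure μ → (∃ K : Set ℝ, IsCompact K ∧ μ Kᶜ = 0) →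
      ((∃ Λ : Set ℝ,
          (∀ a ∈ Λ, ∀ b ∈ Λ,
            ∫ x, Complex.exp (2 * (Real.pi : ℂ) * Complex.I * (((a - b) * x : ℝ) : ℂ)) ∂μ
              = if a = b then (1 : ℂ) else 0) ∧
          (∀ f : ℝ → ℂ, MemLp f 2 μ →
            (∀ a ∈ Λ,
              ∫ x, f x * Complex.exp (-(2 * (Real.pi : ℂ) * Complex.I * ((a * x : ℝ) : ℂ))) ∂μ = 0) →
            f =ᵐ[μ] 0))
        ↔
        ∃ ν : Measure ℝ, IsProbabilityMeasure ν ∧
          ∃ a : ℝ, 0 < a ∧ ∃ Q : Set ℝ, MeasurableSet Q ∧
            (∀ x : ℝ, ∃! k : ℤ, x + (k : ℝ) * a ∈ Q) ∧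
            (μ.prod ν).map (fun p : ℝ × ℝ => p.1 + p.2)
              = (ENNReal.ofReal a)⁻¹ • volume.restrict Q)) := by
  exact Pool.Agent.Fug.final

end Pool.Agent.S03660
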