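import Pool.Statements.S04155
import Pool.Agent.H34.Final

set_option autoImplicit false
open Pool Pool.MP_2a3982_an

namespace Pool.Agent.S04155

/-- For real Banach spaces X and Y with Y reflexive, if the closed unit ball of X uniformly embeds into Y, then every weakly Cauchy sequence in X converges weakly to some point of X. -/
theorem result :
    ∀ (X : Type) [NormedAddCommGroup X] [NormedSpace ℝ X] [CompleteSpace X]
      (Y : Type) [NormedAddCommGroup Y] [NormedSpace ℝ Y] [CompleteSpace Y],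
      Function.Surjective (NormedSpace.inclusionInDoubleDual ℝ Y) →
      (∃ f : Metric.closedBall (0 : X) 1 → Y, IsUniformEmbedding f) →
      ∀ x : ℕ → X, (∀ φ : X →L[ℝ] ℝ, CauchySeq (fun n => φ (x n))) →
        ∃ x₀ : X, ∀ φ : X →L[ℝ] ℝ,
          Filter.Tendsto (fun n => φ (x n)) Filter.atTop (nhds (φ x₀)) := by
  intro X _ _ _ Y _ _ _ hY hf x hx
  obtain ⟨f, hf⟩ := hf
  -- weakly Cauchy sequences are bounded
  obtain ⟨C, hC⟩ : ∃ C : ℝ, ∀ n, ‖NormedSpace.inclusionInDoubleDual ℝ X (x n)‖ ≤ C := by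
    apply banach_steinhaus
    intro ψ
    obtain ⟨C, hC⟩ := (hx ψ).norm_bddAbove
    refine ⟨C, fun n => ?_⟩
    exact hC ⟨n, rfl⟩
  have hxC : ∀ n, ‖x n‖ ≤ C := by
    intro n
    have h1 := (NormedSpace.inclusionInDoubleDualLi ℝ (E := X)).norm_map (x n)
    have h2 : ‖NormedSpace.inclusionInDoubleDual ℝ X (x n)‖ = ‖x n‖ := h1
    rw [← h2]
    exact hC n
  set R : ℝ := max C 1 with hR
  have hR0 : 0 < R := lt_of_lt_of_le one_pos (le_max_right _ _)
  obtain ⟨x₀, hx₀⟩ := Pool.Agent.H34.main_ball hY f hf (fun n => R⁻¹ • x n) (by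
    intro n
    rw [norm_smul, Real.norm_of_nonneg (by positivity), inv_mul_le_iff₀ hR0, mul_one]
    exact (hxC n).trans (le_max_left _ _)) (by
    intro ψ
    have h1 := (hx (R⁻¹ • ψ))
    have e : (fun n => ψ (R⁻¹ • x n)) = (fun n => (R⁻¹ • ψ) (x n)) := by
      funext n
      simp
    show CauchySeq (fun n => ψ (R⁻¹ • x n))
    rw [e]
    exact h1)
  refine ⟨R • x₀, ?_⟩
  intro φ
  have h1 := hx₀ (R • φ)
  have e1 : (R • φ) x₀ = φ (R • x₀) := by simp
  rw [e1] at h1
  refine h1.congr ?_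
  intro n
  show R • φ (R⁻¹ • x n) = φ (x n)
  rw [map_smul, smul_smul, mul_inv_cancel₀ hR0.ne', one_smul]

end Pool.Agent.S04155
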