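import Pool.Statements.S04245
import Pool.Agent.H31.NumIndex

set_option autoImplicit false
open Pool Pool.MP_30533e_an

namespace Pool.Agent.S04245

/-- There is c>0 such that for every m≥1 and every real m-dimensional normed space X with numerical index 1, every linear isomorphism T from X onto Euclidean R^m satisfies ‖T‖·‖T⁻¹‖ ≥ c·√m. -/
theorem result :
    ∃ c : ℝ, 0 < c ∧
      ∀ (m : ℕ), 1 ≤ m →
        ∀ (X : Type) [NormedAddCommGroup X] [NormedSpace ℝ X] [FiniteDimensional ℝ X],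
          Module.finrank ℝ X = m →
          (∀ T : X →L[ℝ] X, ∀ r : ℝ, r < ‖T‖ →
            ∃ u : X, ∃ f : X →L[ℝ] ℝ,
              ‖u‖ = 1 ∧ ‖f‖ = 1 ∧ f u = 1 ∧ r < |f (T u)|) →
          ∀ T : X ≃L[ℝ] EuclideanSpace ℝ (Fin m),
            c * Real.sqrt (m : ℝ) ≤
              ‖(T : X →L[ℝ] EuclideanSpace ℝ (Fin m))‖ *
                ‖(T.symm : EuclideanSpace ℝ (Fin m) →L[ℝ] X)‖ := by
  refine ⟨1/17, by norm_num, ?_⟩
  intro m hm X _ _ _ _ hH T
  have h := Pool.Agent.H31.main_bound hm hH T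
  linarith

end Pool.Agent.S04245
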