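import Pool.Statements.S04356
import Pool.Agent.H33.Cor.Fin

set_option autoImplicit false
open Pool Pool.MP_3833d7_an

namespace Pool.Agent.S04356

/-- The negation of the preceding statement: For every p in (1,∞) other than 2: if analytic ℓ^p-multipliers f_1..f_n satisfy Σ∣f_i∣ ≥ δ > 0 on the disk and at every character of the multiplier algebra M_p, then there are analytic multipliers g_i with Σ f_i g_i = 1. -/
theorem result :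
    ¬ (∀ p : ℝ, 1 < p → p ≠ 2 →
  ∀ Mp : Set (ℤ → ℂ),
    Mp = {a : ℤ → ℂ | ∃ C : ℝ, ∀ x : ℤ →₀ ℂ,
      Summable (fun n : ℤ => ‖∑ k ∈ x.support, x k * a (n - k)‖ ^ p) ∧
      (∑' n : ℤ, ‖∑ k ∈ x.support, x k * a (n - k)‖ ^ p) ≤ C * ∑' n : ℤ, ‖x n‖ ^ p} →
  ∀ (n : ℕ), 1 ≤ n → ∀ (f : Fin n → ℤ → ℂ) (δ : ℝ), 0 < δ →
    (∀ i, f i ∈ Mp ∧ ∀ k : ℤ, k < 0 → f i k = 0) →
    (∀ z : ℂ, ‖z‖ < 1 → δ ≤ ∑ i, ‖∑' k : ℕ, f i (k : ℤ) * z ^ k‖) →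
    (∀ m : (ℤ → ℂ) → ℂ,
      (∀ a ∈ Mp, ∀ b ∈ Mp, m (a + b) = m a + m b ∧
        m (fun t : ℤ => ∑' k : ℤ, a k * b (t - k)) = m a * m b) →
      (∀ c : ℂ, ∀ a ∈ Mp, m (c • a) = c * m a) →
      m (fun t : ℤ => if t = 0 then (1 : ℂ) else 0) = 1 →
      δ ≤ ∑ i, ‖m (f i)‖) →
    ∃ g : Fin n → ℤ → ℂ, (∀ i, g i ∈ Mp ∧ ∀ k : ℤ, k < 0 → g i k = 0) ∧
      ∀ t : ℤ, (∑ i, ∑' k : ℤ, f i k * g i (t - k)) = if t = 0 then (1 : ℂ) else 0) := by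
  intro H
  obtain ⟨A₁, A₂, A₃, A₄, hL⟩ := Pool.Agent.H33.Cor.exists_lims
  have hc1 := Pool.Agent.H33.Cor.F_mem (1 / 20) hL.c1
  have hc2 := Pool.Agent.H33.Cor.F_mem (-(3 / 340) * Complex.I) hL.c2
  obtain ⟨g, hg, hb⟩ := H 4 (by norm_num) (by norm_num) Pool.Agent.H33.Cor.MM rfl 2 (by norm_num)
    ![Pool.Agent.H33.Cor.kr (Pool.Agent.H33.Cor.F1 A₁),
      Pool.Agent.H33.Cor.kr (Pool.Agent.H33.Cor.F2 A₂)] (1 / 1000) (by norm_num)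
    (by
      intro i
      fin_cases i
      · exact ⟨Pool.Agent.H33.Cor.kr_mem hc1,
          Pool.Agent.H33.Cor.anal_lim _ hL.l1 Pool.Agent.H33.Cor.anal_G1⟩
      · exact ⟨Pool.Agent.H33.Cor.kr_mem hc2,
          Pool.Agent.H33.Cor.anal_lim _ hL.l2 Pool.Agent.H33.Cor.anal_G2⟩)
    (by
      intro z hz
      rw [Fin.sum_univ_two]
      exact hL.disk z hz)
    (by
      intro m hm hs h1
      rw [Fin.sum_univ_two]
      exact hL.char m hm hs h1)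
  exact hL.contra g hg hb

end Pool.Agent.S04356
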