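import Pool.Statements.S04862
-- import your own Pool.Agent.* helpers here

set_option autoImplicit false
open Pool Pool.MP_63a02b_an

namespace Pool.Agent.S04862


/-- The operator `D + B` on `ℂ^ℤ`: diagonal plus backward shift. -/
noncomputable def opT (d : ℤ → ℂ) : (ℤ → ℂ) →L[ℂ] (ℤ → ℂ) :=
  ContinuousLinearMap.pi
    (fun n => d n • ContinuousLinearMap.proj (R := ℂ) (φ := fun _ : ℤ => ℂ) n
      + ContinuousLinearMap.proj (R := ℂ) (φ := fun _ : ℤ => ℂ) (n + 1))

lemma opT_apply (d : ℤ → ℂ) (x : ℤ → ℂ) (n : ℤ) : opT d x n = d n * x n + x (n + 1) := by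
  simp [opT]

lemma opT_pow_succ (d : ℤ → ℂ) (n : ℕ) (x : ℤ → ℂ) (j : ℤ) :
    (opT d ^ (n + 1)) x j = d j * (opT d ^ n) x j + (opT d ^ n) x (j + 1) := by
  rw [pow_succ']
  exact opT_apply d _ j

/-- Triangular structure of the powers. -/
lemma tri (d : ℤ → ℂ) (n : ℕ) : ∀ (j : ℤ) (x y : ℤ → ℂ),
    (∀ i : ℤ, j ≤ i → i < j + n → x i = y i) →
    (opT d ^ n) x j - x (j + n) = (opT d ^ n) y j - y (j + n) := by
  induction n with
  | zero => intro j x y _; simp
  | succ n ih =>
    intro j x y h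
    rw [opT_pow_succ, opT_pow_succ]
    have h1 := ih j x y (fun i h1 h2 => h i h1 (by push_cast; omega))
    have h2 := ih (j + 1) x y (fun i h1 h2 => h i (by omega) (by push_cast; omega))
    have h3 : x (j + n) = y (j + n) := h (j + n) (by omega) (by push_cast; omega)
    have e : j + ((n + 1 : ℕ) : ℤ) = j + 1 + (n : ℤ) := by push_cast; ring
    rw [e]
    have h4 : (opT d ^ n) x j = (opT d ^ n) y j := by
      have := h1; rw [h3] at this; exact sub_left_injective this
    rw [h4]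
    linear_combination h2

/-- Recursive construction of a sequence. -/
lemma build (u : ℤ → ℂ) (i₀ : ℤ) (Φ : ℤ → (ℤ → ℂ) → ℂ) :
    ∃ x : ℤ → ℂ, (∀ i : ℤ, i < i₀ → x i = u i) ∧
      ∀ i : ℤ, i₀ ≤ i → x i = Φ i (fun j => if j < i then x j else 0) := by
  -- build the values on `ℕ` by strong recursion
  have key : ∃ f : ℕ → ℂ, ∀ k : ℕ, f k = Φ (i₀ + k)
      (fun j => if j < i₀ then u j else if j < i₀ + k then f (j - i₀).toNat else 0) := by
    let G : (k : ℕ) → ((m : ℕ) → m < k → ℂ) → ℂ := fun k ih =>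
      Φ (i₀ + k) (fun j => if j < i₀ then u j else
        if h : (j - i₀).toNat < k then ih (j - i₀).toNat h else 0)
    refine ⟨fun k => Nat.strongRec (motive := fun _ => ℂ) G k, fun k => ?_⟩
    have := Nat.strongRec_eq (motive := fun _ => ℂ) G k
    simp only [] at this ⊢
    rw [this]
    simp only [G]
    congr 1
    funext j
    by_cases h1 : j < i₀
    · simp [h1]
    · by_cases h2 : j < i₀ + k
      · have : (j - i₀).toNat < k := by omega
        simp [h1, h2, this]
      · have : ¬ (j - i₀).toNat < k := by omega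
        simp [h1, h2, this]
  obtain ⟨f, hf⟩ := key
  refine ⟨fun i => if i < i₀ then u i else f (i - i₀).toNat, ?_, ?_⟩
  · intro i hi; simp [hi]
  · intro i hi
    have h1 : ¬ i < i₀ := by omega
    simp only [h1, if_false]
    rw [hf]
    have h2 : i₀ + ((i - i₀).toNat : ℤ) = i := by omega
    rw [h2]
    congr 1
    funext j
    by_cases h3 : j < i₀
    · have : j < i := by omega
      simp [h3, this]
    · by_cases h4 : j < i
      · simp [h3, h4]
      · simp [h3, h4]

/-- Open sets of `ℂ^ℤ` see only finitely many coordinates. -/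
lemma open_window {U : Set (ℤ → ℂ)} (hU : IsOpen U) {u : ℤ → ℂ} (hu : u ∈ U) :
    ∃ M : ℕ, ∀ y : ℤ → ℂ, (∀ j : ℤ, -(M : ℤ) ≤ j → j ≤ M → y j = u j) → y ∈ U := by
  rw [isOpen_pi_iff] at hU
  obtain ⟨I, v, hv, hI⟩ := hU u hu
  refine ⟨I.sup Int.natAbs, fun y hy => hI ?_⟩
  intro i hi
  have h1 : Int.natAbs i ≤ I.sup Int.natAbs := Finset.le_sup (f := Int.natAbs) hi
  rw [hy i (by omega) (by omega)]
  exact (hv i hi).2

lemma mixing (d : ℤ → ℂ) (U V : Set (ℤ → ℂ)) (hU : IsOpen U) (hV : IsOpen V)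
    (hU' : U.Nonempty) (hV' : V.Nonempty) :
    ∃ N : ℕ, ∀ n : ℕ, N ≤ n → ((⇑(opT d ^ n)) ⁻¹' V ∩ U).Nonempty := by
  obtain ⟨u, hu⟩ := hU'
  obtain ⟨v, hv⟩ := hV'
  obtain ⟨M₁, hM₁⟩ := open_window hU hu
  obtain ⟨M₂, hM₂⟩ := open_window hV hv
  refine ⟨M₁ + M₂ + 1, fun n hn => ?_⟩
  obtain ⟨x, hx1, hx2⟩ := build u ((n : ℤ) - M₂)
    (fun i y => v (i - n) - (opT d ^ n) y (i - n))
  refine ⟨x, ?_, ?_⟩
  · refine hM₂ _ (fun j hj1 hj2 => ?_)
    have h := hx2 (j + n) (by omega)
    have e : j + (n : ℤ) - n = j := by ring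
    rw [e] at h
    have h3 := tri d n j x (fun i => if i < j + n then x i else 0)
      (fun i _ h2 => by simp [h2])
    simp only [lt_irrefl, if_false, sub_zero] at h3
    rw [← h3] at h
    linear_combination h
  · refine hM₁ _ (fun j hj1 hj2 => hx1 j (by omega))


/-! ### Frequent hypercyclicity -/

/-- The type of the `m`-th window. -/
def ty (m : ℕ) : ℕ := padicValNat 2 (m + 1)

/-- The position of the `m`-th window. -/
def pos : ℕ → ℕ
  | 0 => 0
  | (m + 1) => pos m + ty m + ty (m + 1) + 1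

lemma pos_lt {m n : ℕ} (h : m < n) : pos m + ty m + ty n < pos n := by
  induction n with
  | zero => omega
  | succ n ih =>
    rcases Nat.lt_succ_iff_lt_or_eq.mp h with h1 | h1
    · have := ih h1
      simp only [pos]; omega
    · subst h1
      simp only [pos]; omega

lemma ty_le_pos (m : ℕ) : ty m ≤ pos m := by
  rcases Nat.eq_zero_or_pos m with h | h
  · subst h; simp [ty, pos]
  · have := pos_lt h; omega

lemma pos_le_aux (m : ℕ) : pos m + ty m ≤ m + 2 * padicValNat 2 (m + 1).factorial := by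
  induction m with
  | zero => simp [ty, pos]
  | succ m ih =>
    have h : padicValNat 2 (m + 1 + 1).factorial
        = ty (m + 1) + padicValNat 2 (m + 1).factorial := by
      rw [Nat.factorial_succ, padicValNat.mul (by omega) (Nat.factorial_ne_zero _)]
      rfl
    rw [h]
    simp only [pos]
    omega

lemma pos_le (m : ℕ) : pos m ≤ 3 * m + 2 := by
  have h1 := pos_le_aux m
  have h2 : padicValNat 2 (m + 1).factorial ≤ m + 1 := by
    have := sub_one_mul_padicValNat_factorial (p := 2) (m + 1)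
    omega
  omega

lemma ty_special (l i : ℕ) : ty (2 ^ l * (2 * i + 1) - 1) = l := by
  have h0 : 0 < 2 ^ l * (2 * i + 1) := by positivity
  have h : 2 ^ l * (2 * i + 1) - 1 + 1 = 2 ^ l * (2 * i + 1) := by omega
  rw [ty, h, padicValNat.mul (by positivity) (by omega), padicValNat.prime_pow]
  have : padicValNat 2 (2 * i + 1) = 0 := by
    apply padicValNat.eq_zero_of_not_dvd; omega
  omega

lemma prescribe (d : ℤ → ℂ) (w : ℕ → ℤ → ℂ) :
    ∃ x : ℤ → ℂ, ∀ m : ℕ, ∀ j : ℤ, -(ty m : ℤ) ≤ j → j ≤ ty m →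
      (opT d ^ (pos m)) x j = w m j := by
  classical
  obtain ⟨x, _, hx2⟩ := build 0 0
    (fun i y => if h : ∃ m : ℕ, (pos m : ℤ) - ty m ≤ i ∧ i ≤ pos m + ty m then
      w h.choose (i - pos h.choose) - (opT d ^ (pos h.choose)) y (i - pos h.choose) else 0)
  refine ⟨x, fun m j hj1 hj2 => ?_⟩
  have hty := ty_le_pos m
  have h := hx2 (j + pos m) (by omega)
  have hex : ∃ m' : ℕ, (pos m' : ℤ) - ty m' ≤ (j + pos m) ∧ (j + pos m) ≤ pos m' + ty m' :=
    ⟨m, by omega, by omega⟩
  have huniq : hex.choose = m := by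
    have hs := hex.choose_spec
    rcases lt_trichotomy hex.choose m with h1 | h1 | h1
    · have := pos_lt h1; omega
    · exact h1
    · have := pos_lt h1; omega
  simp only [dif_pos hex] at h
  rw [huniq] at h
  have e : j + (pos m : ℤ) - pos m = j := by ring
  rw [e] at h
  have h3 := tri d (pos m) j x (fun i => if i < j + pos m then x i else 0)
      (fun i _ h2 => by simp [h2])
  simp only [lt_irrefl, if_false, sub_zero] at h3
  rw [← h3] at h
  linear_combination h

lemma freq_hyp (d : ℤ → ℂ) :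
    ∃ x : ℤ → ℂ, ∀ U : Set (ℤ → ℂ), IsOpen U → U.Nonempty →
        ∃ δ : ℝ, 0 < δ ∧ ∃ N₀ : ℕ, ∀ N : ℕ, N₀ ≤ N →
          δ * (N : ℝ) ≤ (Nat.card {n : ℕ // n < N ∧ (opT d ^ n) x ∈ U} : ℝ) := by
  obtain ⟨D, hD⟩ := TopologicalSpace.exists_dense_seq (ℤ → ℂ)
  obtain ⟨x, hx⟩ := prescribe d (fun m => D (Nat.unpair (ty m)).1)
  refine ⟨x, fun U hU hU' => ?_⟩
  obtain ⟨i, hi⟩ := hD.exists_mem_open hU hU'
  obtain ⟨M, hM⟩ := open_window hU hi
  set l := Nat.pair i M with hl
  have hlM : M ≤ l := Nat.right_le_pair i M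
  have hvisit : ∀ k : ℕ, (opT d ^ (pos (2 ^ l * (2 * k + 1) - 1))) x ∈ U := by
    intro k
    apply hM
    intro j hj1 hj2
    rw [hx _ j (by rw [ty_special]; omega) (by rw [ty_special]; omega), ty_special, hl,
      Nat.unpair_pair]
  have hpos : (0 : ℝ) < 12 * 2 ^ l := by positivity
  refine ⟨1 / (12 * 2 ^ l), by positivity, 12 * 2 ^ l, fun N hN => ?_⟩
  -- number of visits
  set K := N / (6 * 2 ^ l) with hK
  have hcard : K ≤ Nat.card {n : ℕ // n < N ∧ (opT d ^ n) x ∈ U} := by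
    have hfin : Finite {n : ℕ // n < N ∧ (opT d ^ n) x ∈ U} :=
      Set.Finite.to_subtype ((Set.finite_lt_nat N).subset (fun n hn => hn.1))
    have hlt : ∀ k : Fin K, pos (2 ^ l * (2 * (k : ℕ) + 1) - 1) < N := by
      intro k
      have h1 := pos_le (2 ^ l * (2 * (k : ℕ) + 1) - 1)
      have h2 : K * (6 * 2 ^ l) ≤ N := Nat.div_mul_le_self _ _
      have h3 : (k : ℕ) + 1 ≤ K := k.2
      have h4 : ((k : ℕ) + 1) * (6 * 2 ^ l) ≤ K * (6 * 2 ^ l) := Nat.mul_le_mul_right _ h3
      have h5 : 0 < 2 ^ l * (2 * (k : ℕ) + 1) := by positivity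
      have h6 : ((k : ℕ) + 1) * (6 * 2 ^ l) = 3 * (2 ^ l * (2 * (k : ℕ) + 1)) + 3 * 2 ^ l := by ring
      have h7 : 0 < 2 ^ l := by positivity
      omega
    let g : Fin K → {n : ℕ // n < N ∧ (opT d ^ n) x ∈ U} := fun k =>
      ⟨pos (2 ^ l * (2 * (k : ℕ) + 1) - 1), hlt k, hvisit k⟩
    have hg : Function.Injective g := by
      intro a b hab
      have h1 : pos (2 ^ l * (2 * (a : ℕ) + 1) - 1) = pos (2 ^ l * (2 * (b : ℕ) + 1) - 1) :=
        congrArg Subtype.val hab
      have h2 : 2 ^ l * (2 * (a : ℕ) + 1) - 1 = 2 ^ l * (2 * (b : ℕ) + 1) - 1 := by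
        rcases lt_trichotomy (2 ^ l * (2 * (a : ℕ) + 1) - 1) (2 ^ l * (2 * (b : ℕ) + 1) - 1)
          with h | h | h
        · have := pos_lt h; omega
        · exact h
        · have := pos_lt h; omega
      have h3 : 0 < 2 ^ l * (2 * (a : ℕ) + 1) := by positivity
      have h4 : 0 < 2 ^ l * (2 * (b : ℕ) + 1) := by positivity
      have h5 : 2 ^ l * (2 * (a : ℕ) + 1) = 2 ^ l * (2 * (b : ℕ) + 1) := by omega
      have h6 := Nat.eq_of_mul_eq_mul_left (by positivity) h5
      exact Fin.ext (by omega)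
    have := Nat.card_le_card_of_injective g hg
    simpa using this
  have h1 : (K : ℝ) ≤ (Nat.card {n : ℕ // n < N ∧ (opT d ^ n) x ∈ U} : ℝ) := by
    exact_mod_cast hcard
  refine le_trans ?_ h1
  have h2 : N < (K + 1) * (6 * 2 ^ l) := by
    have := Nat.lt_mul_div_succ N (show 0 < 6 * 2 ^ l by positivity)
    rw [← hK] at this
    calc N < 6 * 2 ^ l * (K + 1) := this
      _ = (K + 1) * (6 * 2 ^ l) := by ring
  have h3 : (N : ℝ) < (K + 1) * (6 * 2 ^ l) := by exact_mod_cast h2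
  have h4 : (12 * 2 ^ l : ℝ) ≤ N := by exact_mod_cast hN
  have h5 : (0 : ℝ) < 2 ^ l := by positivity
  rw [div_mul_eq_mul_div, one_mul, div_le_iff₀ hpos]
  nlinarith


/-! ### Periodic points -/

/-- Eigenvectors. -/
lemma exists_eig (d : ℤ → ℂ) (z : ℂ) (hz : ∀ j, z ≠ d j) :
    ∃ E : ℤ → ℂ, (∀ j, E j ≠ 0) ∧ ∀ j, E (j + 1) = (z - d j) * E j := by
  have hne : ∀ j, z - d j ≠ 0 := fun j => sub_ne_zero.mpr (hz j)
  refine ⟨fun j => if 0 ≤ j then ∏ i ∈ Finset.range j.toNat, (z - d i)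
    else (∏ i ∈ Finset.range (-j).toNat, (z - d (-(i + 1 : ℤ))))⁻¹, ?_, ?_⟩
  · intro j
    by_cases h : 0 ≤ j
    · simp only [h, if_true]
      exact Finset.prod_ne_zero_iff.mpr (fun i _ => hne _)
    · simp only [h, if_false]
      exact inv_ne_zero (Finset.prod_ne_zero_iff.mpr (fun i _ => hne _))
  · intro j
    by_cases h : 0 ≤ j
    · have h1 : 0 ≤ j + 1 := by omega
      simp only [h, h1, if_true]
      have h2 : (j + 1).toNat = j.toNat + 1 := by omega
      rw [h2, Finset.prod_range_succ]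
      have h3 : ((j.toNat : ℕ) : ℤ) = j := by omega
      rw [h3]; ring
    · obtain ⟨k, hk⟩ : ∃ k : ℕ, j = -(k + 1 : ℤ) := ⟨(-j - 1).toNat, by omega⟩
      subst hk
      have h4 : (-(-(k + 1 : ℤ))).toNat = k + 1 := by omega
      simp only [h, if_false]
      rw [h4, Finset.prod_range_succ]
      by_cases h5 : k = 0
      · subst h5
        have := hne (-1)
        simp
        field_simp
      · have h6 : ¬ 0 ≤ -(k + 1 : ℤ) + 1 := by omega
        simp only [h6, if_false]
        have h7 : (-(-(k + 1 : ℤ) + 1)).toNat = k := by omega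
        rw [h7]
        have h8 := hne (-(k + 1 : ℤ))
        rw [mul_inv]
        field_simp

lemma eig_pow (d : ℤ → ℂ) (z : ℂ) (E : ℤ → ℂ) (hE : ∀ j, E (j + 1) = (z - d j) * E j) (n : ℕ) :
    (opT d ^ n) E = z ^ n • E := by
  have h1 : opT d E = z • E := by
    funext j
    rw [opT_apply, hE]
    simp; ring
  induction n with
  | zero => simp
  | succ n ih =>
    rw [pow_succ', mul_apply_eq_comp, ih, map_smul, h1, smul_smul, pow_succ]

lemma periodic_dense (d : ℤ → ℂ) (hd : ∀ j, ∀ n : ℕ, 0 < n → d j ^ n ≠ 1) :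
    Dense {x : ℤ → ℂ | ∃ n : ℕ, 0 < n ∧ (opT d ^ n) x = x} := by
  rw [dense_iff_inter_open]
  rintro U hU ⟨u, hu⟩
  obtain ⟨M, hM⟩ := open_window hU hu
  set n := 2 * M + 1 with hn
  have hn0 : 0 < n := by omega
  set ζ : ℂ := Complex.exp (2 * Real.pi * Complex.I / n) with hζ
  have hprim : IsPrimitiveRoot ζ n := Complex.isPrimitiveRoot_exp n (by omega)
  have hroot : ∀ l : ℕ, (ζ ^ l) ^ n = 1 := by
    intro l; rw [← pow_mul, mul_comm, pow_mul, hprim.pow_eq_one, one_pow]
  have hne : ∀ l : ℕ, ∀ j, ζ ^ l ≠ d j := by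
    intro l j h
    apply hd j n hn0
    rw [← h]; exact hroot l
  choose E hE0 hE using fun l : Fin n => exists_eig d (ζ ^ (l : ℕ)) (hne l)
  -- the Vandermonde system
  let V : Matrix (Fin n) (Fin n) ℂ := Matrix.vandermonde (fun l : Fin n => ζ ^ (l : ℕ))
  have hV : IsUnit V.det := by
    rw [isUnit_iff_ne_zero]
    apply Matrix.det_vandermonde_ne_zero_iff.mpr
    intro a b hab
    exact Fin.ext (hprim.pow_inj a.2 b.2 hab)
  let y : Fin n → ℂ := fun m => (opT d ^ (m : ℕ)) u (-(M : ℤ))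
  let c : Fin n → ℂ := Matrix.vecMul y V⁻¹
  have hc : ∀ m : Fin n, ∑ l, c l * (ζ ^ (l : ℕ)) ^ (m : ℕ) = y m := by
    intro m
    have h1 : Matrix.vecMul c V = y := by
      simp only [c]
      rw [Matrix.vecMul_vecMul, Matrix.nonsing_inv_mul V hV, Matrix.vecMul_one]
    have h2 := congrFun h1 m
    simpa [Matrix.vecMul, dotProduct, V, Matrix.vandermonde_apply] using h2
  let x : ℤ → ℂ := ∑ l, (c l * (E l (-(M : ℤ)))⁻¹) • E l
  have hpow : ∀ m : ℕ, (opT d ^ m) x = ∑ l, (c l * (E l (-(M : ℤ)))⁻¹ * (ζ ^ (l : ℕ)) ^ m) • E l := by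
    intro m
    simp only [x, map_sum, map_smul]
    refine Finset.sum_congr rfl (fun l _ => ?_)
    rw [eig_pow d _ (E l) (hE l), smul_smul]
  refine ⟨x, ?_, n, hn0, ?_⟩
  · apply hM
    -- strong induction on the coordinate
    have key : ∀ m : ℕ, m < n → x (-(M : ℤ) + m) = u (-(M : ℤ) + m) := by
      intro m
      induction m using Nat.strong_induction_on with
      | _ m ih =>
        intro hm
        have h1 := tri d m (-(M : ℤ)) x u (fun i hi1 hi2 => by
          have h2 := ih (i + M).toNat (by omega) (by omega)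
          have h3 : -(M : ℤ) + ((i + M).toNat : ℤ) = i := by omega
          rwa [h3] at h2)
        have h4 : (opT d ^ m) x (-(M : ℤ)) = (opT d ^ m) u (-(M : ℤ)) := by
          have h5 := hc ⟨m, hm⟩
          simp only [y] at h5
          rw [← h5, hpow]
          simp only [Finset.sum_apply, Pi.smul_apply, smul_eq_mul]
          refine Finset.sum_congr rfl (fun l _ => ?_)
          have := hE0 l (-(M : ℤ))
          field_simp
        rw [h4] at h1
        linear_combination (-1 : ℂ) * h1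
    intro j hj1 hj2
    have h2 := key (j + M).toNat (by omega)
    have h3 : -(M : ℤ) + ((j + M).toNat : ℤ) = j := by omega
    rwa [h3] at h2
  · rw [hpow]
    simp only [x, hroot, mul_one]


/-! ### Failure of the criterion -/

/-- Absolutely convergent trigonometric series vanishing on a dense set. -/
lemma trig_zero (c : ℤ → ℂ) (hc : Summable (fun n => ‖c n‖)) (s : Set ℝ) (hs : Dense s)
    (h : ∀ θ ∈ s, ∑' n : ℤ, Complex.exp (-(n * Complex.I * θ)) * c n = 0) : c 0 = 0 := by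
  have hnorm : ∀ (n : ℤ) (θ : ℝ), ‖Complex.exp (-(n * Complex.I * θ)) * c n‖ = ‖c n‖ := by
    intro n θ
    rw [norm_mul, Complex.norm_exp]
    simp
  have hcont : Continuous (fun θ : ℝ => ∑' n : ℤ, Complex.exp (-(n * Complex.I * θ)) * c n) := by
    refine continuous_tsum (fun n => by fun_prop) hc (fun n θ => le_of_eq (hnorm n θ))
  have hzero : ∀ θ : ℝ, ∑' n : ℤ, Complex.exp (-(n * Complex.I * θ)) * c n = 0 := by
    intro θ
    have := Continuous.ext_on hs hcont (continuous_const (y := (0 : ℂ))) (fun θ hθ => h θ hθ)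
    exact congrFun this θ
  have hsum : HasSum (fun n : ℤ => ∫ θ in (0 : ℝ)..(2 * Real.pi),
      Complex.exp (-(n * Complex.I * θ)) * c n) (∫ θ in (0 : ℝ)..(2 * Real.pi), (0 : ℂ)) := by
    refine intervalIntegral.hasSum_integral_of_dominated_convergence
      (fun n _ => ‖c n‖) ?_ ?_ ?_ ?_ ?_
    · intro n
      exact Continuous.aestronglyMeasurable (by fun_prop)
    · intro n
      exact MeasureTheory.ae_of_all _ (fun θ _ => le_of_eq (hnorm n θ))
    · exact MeasureTheory.ae_of_all _ (fun θ _ => hc)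
    · exact intervalIntegrable_const
    · refine MeasureTheory.ae_of_all _ (fun θ _ => ?_)
      have h1 : Summable (fun n : ℤ => Complex.exp (-(n * Complex.I * θ)) * c n) := by
        apply Summable.of_norm
        simpa only [hnorm] using hc
      have h2 := h1.hasSum
      rwa [hzero θ] at h2
  have hint : ∀ n : ℤ, n ≠ 0 → ∫ θ in (0 : ℝ)..(2 * Real.pi),
      Complex.exp (-(n * Complex.I * θ)) * c n = 0 := by
    intro n hn
    rw [intervalIntegral.integral_mul_const]
    have h1 : ∀ θ : ℝ, Complex.exp (-(n * Complex.I * θ)) = Complex.exp ((-(n * Complex.I)) * θ) := by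
      intro θ; congr 1; ring
    simp_rw [h1]
    have hn' : (-(n * Complex.I) : ℂ) ≠ 0 := by
      simp [hn, Complex.I_ne_zero]
    rw [integral_exp_mul_complex hn']
    have h2 : Complex.exp (-(n * Complex.I) * ((2 * Real.pi : ℝ) : ℂ)) = 1 := by
      rw [Complex.exp_eq_one_iff]
      exact ⟨-n, by push_cast; ring⟩
    rw [h2]
    simp
  have h0 : HasSum (fun n : ℤ => ∫ θ in (0 : ℝ)..(2 * Real.pi),
      Complex.exp (-(n * Complex.I * θ)) * c n) (∫ θ in (0 : ℝ)..(2 * Real.pi),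
      Complex.exp (-((0 : ℤ) * Complex.I * θ)) * c 0) :=
    hasSum_single 0 (fun n hn => hint n hn)
  have h3 := hsum.unique h0
  simpa using h3

lemma vanish (d : ℤ → ℂ) (s : Set ℝ) (hs : Dense s)
    (hd : ∀ θ ∈ s, ∀ j : ℤ, ∃ k : ℤ, k < j ∧ d k = Complex.exp (Complex.I * θ))
    (Y : ℤ → (ℤ → ℂ)) (hY : ∀ n, opT d (Y n) = Y (n + 1))
    (hsum : ∀ j, Summable (fun n => ‖Y n j‖)) : Y 0 = 0 := by
  funext j
  refine trig_zero (fun n => Y n j) (hsum j) s hs (fun θ hθ => ?_)
  -- the eigenvector field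
  set z : ℂ := Complex.exp (Complex.I * θ) with hz
  have hnorm : ∀ (j n : ℤ), ‖Complex.exp (-(n * Complex.I * θ)) * Y n j‖ = ‖Y n j‖ := by
    intro j n
    rw [norm_mul, Complex.norm_exp]
    simp
  have hS : ∀ j, Summable (fun n : ℤ => Complex.exp (-(n * Complex.I * θ)) * Y n j) := by
    intro j
    apply Summable.of_norm
    simpa only [hnorm] using hsum j
  let E : ℤ → ℂ := fun j => ∑' n : ℤ, Complex.exp (-(n * Complex.I * θ)) * Y n j
  have hrec : ∀ j, E (j + 1) = (z - d j) * E j := by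
    intro j
    have h1 : ∀ n, Y n (j + 1) = Y (n + 1) j - d j * Y n j := by
      intro n
      have := congrFun (hY n) j
      rw [opT_apply] at this
      rw [← this]; ring
    have h2 : ∑' n : ℤ, Complex.exp (-(n * Complex.I * θ)) * Y (n + 1) j = z * E j := by
      have h3 : ∀ n : ℤ, Complex.exp (-(n * Complex.I * θ)) * Y (n + 1) j
          = z * (Complex.exp (-(((n + 1 : ℤ) : ℂ) * Complex.I * θ)) * Y (n + 1) j) := by
        intro n
        rw [← mul_assoc, hz, ← Complex.exp_add]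
        congr 2
        push_cast; ring
      simp_rw [h3]
      rw [tsum_mul_left]
      congr 1
      exact (Equiv.addRight (1 : ℤ)).tsum_eq
        (fun n : ℤ => Complex.exp (-((n : ℂ) * Complex.I * θ)) * Y n j)
    have h4 : Summable (fun n : ℤ => Complex.exp (-(n * Complex.I * θ)) * Y (n + 1) j) := by
      apply Summable.of_norm
      have h5 : ∀ n : ℤ, ‖Complex.exp (-(n * Complex.I * θ)) * Y (n + 1) j‖ = ‖Y (n + 1) j‖ := by
        intro n
        rw [norm_mul, Complex.norm_exp]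
        simp
      simp only [h5]
      exact (Equiv.addRight (1 : ℤ)).summable_iff.mpr (hsum j)
    calc E (j + 1) = ∑' n : ℤ, (Complex.exp (-(n * Complex.I * θ)) * Y (n + 1) j
          - d j * (Complex.exp (-(n * Complex.I * θ)) * Y n j)) := by
          refine tsum_congr (fun n => ?_)
          rw [h1]; ring
      _ = z * E j - d j * E j := by
          rw [Summable.tsum_sub h4 ((hS j).mul_left _), h2, tsum_mul_left]
      _ = (z - d j) * E j := by ring
  obtain ⟨k, hk, hdk⟩ := hd θ hθ j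
  have hup : ∀ m : ℕ, E (k + 1 + m) = 0 := by
    intro m
    induction m with
    | zero =>
      have := hrec k
      rw [hdk, sub_self, zero_mul] at this
      simpa using this
    | succ m ih =>
      have := hrec (k + 1 + m)
      rw [ih, mul_zero] at this
      have e : k + 1 + ((m + 1 : ℕ) : ℤ) = k + 1 + (m : ℤ) + 1 := by push_cast; ring
      rw [e]; exact this
  have h5 := hup (j - k - 1).toNat
  have h6 : k + 1 + ((j - k - 1).toNat : ℤ) = j := by omega
  rw [h6] at h5
  exact h5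

/-- The diagonal: every nonzero rational angle occurs infinitely often. -/
noncomputable def q (n : ℕ) : ℚ :=
  if ((Encodable.decode (α := ℚ) (Nat.unpair n).1).getD 1) = 0 then 1
  else (Encodable.decode (α := ℚ) (Nat.unpair n).1).getD 1

lemma q_ne (n : ℕ) : q n ≠ 0 := by
  unfold q
  split_ifs with h
  · norm_num
  · exact h

lemma q_surj (r : ℚ) (hr : r ≠ 0) (N : ℕ) : ∃ n, N ≤ n ∧ q n = r := by
  refine ⟨Nat.pair (Encodable.encode r) N, Nat.right_le_pair _ _, ?_⟩
  unfold q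
  simp [hr]

noncomputable def dd (j : ℤ) : ℂ := Complex.exp (Complex.I * ((q j.natAbs : ℝ) : ℂ))

lemma dd_pow_ne (j : ℤ) (n : ℕ) (hn : 0 < n) : dd j ^ n ≠ 1 := by
  intro h
  rw [dd, ← Complex.exp_nat_mul, Complex.exp_eq_one_iff] at h
  obtain ⟨m, hm⟩ := h
  have h1 : ((n : ℝ) * (q j.natAbs : ℝ) : ℝ) = m * (2 * Real.pi) := by
    have h2 : Complex.I * (((n : ℝ) * (q j.natAbs : ℝ) : ℝ) : ℂ)
        = Complex.I * ((m * (2 * Real.pi) : ℝ) : ℂ) := by
      push_cast
      linear_combination hm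
    have h3 := mul_left_cancel₀ Complex.I_ne_zero h2
    exact_mod_cast h3
  have hq : (q j.natAbs : ℝ) ≠ 0 := by exact_mod_cast q_ne _
  have hn' : (n : ℝ) ≠ 0 := by positivity
  have hm0 : (m : ℝ) ≠ 0 := by
    intro h0
    rw [h0, zero_mul] at h1
    exact (mul_ne_zero hn' hq) h1
  have hpi : Real.pi = (((n : ℚ) * q j.natAbs / (2 * m) : ℚ) : ℝ) := by
    push_cast
    field_simp
    linear_combination -h1
  exact irrational_pi ⟨_, hpi.symm⟩

lemma dense_nonzero_rat : Dense {θ : ℝ | ∃ r : ℚ, r ≠ 0 ∧ (r : ℝ) = θ} := by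
  rw [dense_iff_inter_open]
  rintro U hU ⟨u, hu⟩
  have hU' : IsOpen (U \ {0}) := hU.sdiff isClosed_singleton
  have hne : (U \ {0}).Nonempty := by
    by_contra hcon
    rw [Set.not_nonempty_iff_eq_empty, Set.sdiff_eq_empty] at hcon
    have hu0 : u = 0 := hcon hu
    subst hu0
    obtain ⟨ε, hε, hball⟩ := Metric.isOpen_iff.mp hU 0 hu
    have h1 : ε / 2 ∈ U := hball (by simp [abs_of_pos hε, hε])
    have h2 : ε / 2 = 0 := hcon h1
    linarith
  obtain ⟨r, hr⟩ := Rat.denseRange_cast.exists_mem_open hU' hne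
  refine ⟨(r : ℝ), hr.1, r, ?_, rfl⟩
  intro h0
  apply hr.2
  simp [h0]

lemma crit_fails (X₀ : Set (ℤ → ℂ)) (hX₀ : Dense X₀) (S : (ℤ → ℂ) → (ℤ → ℂ))
    (hS : ∀ x ∈ X₀, S x ∈ X₀)
    (h : ∀ x ∈ X₀, Summable (fun n : ℕ => (opT dd ^ n) x) ∧
          Summable (fun n : ℕ => S^[n] x) ∧ opT dd (S x) = x) : False := by
  have hzero : ∀ x ∈ X₀, x = 0 := by
    intro x hx
    have hit : ∀ n : ℕ, S^[n] x ∈ X₀ := by
      intro n
      induction n with
      | zero => simpa using hx
      | succ n ih => rw [Function.iterate_succ_apply']; exact hS _ ih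
    obtain ⟨h1, h2, _⟩ := h x hx
    let Y : ℤ → (ℤ → ℂ) := fun n => if 0 ≤ n then (opT dd ^ n.toNat) x else S^[(-n).toNat] x
    have hY : ∀ n, opT dd (Y n) = Y (n + 1) := by
      intro n
      simp only [Y]
      by_cases hn : 0 ≤ n
      · have hn' : 0 ≤ n + 1 := by omega
        simp only [hn, hn', if_true]
        have : (n + 1).toNat = n.toNat + 1 := by omega
        rw [this, pow_succ', mul_apply_eq_comp]
      · simp only [hn, if_false]
        obtain ⟨k, hk⟩ : ∃ k : ℕ, n = -(k + 1 : ℤ) := ⟨(-n - 1).toNat, by omega⟩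
        subst hk
        have e1 : (-(-(k + 1 : ℤ))).toNat = k + 1 := by omega
        rw [e1, Function.iterate_succ_apply', (h _ (hit k)).2.2]
        by_cases hk0 : k = 0
        · subst hk0; simp
        · have e2 : ¬ 0 ≤ -(k + 1 : ℤ) + 1 := by omega
          have e3 : (-(-(k + 1 : ℤ) + 1)).toNat = k := by omega
          simp only [e2, if_false, e3]
    have hsum : ∀ j, Summable (fun n => ‖Y n j‖) := by
      intro j
      apply Summable.norm
      apply Summable.of_nat_of_neg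
      · have := (Pi.summable.mp h1) j
        simpa [Y] using this
      · have := (Pi.summable.mp h2) j
        have h3 : Summable (fun n : ℕ => Y (-(n : ℤ)) j) ↔ Summable (fun n : ℕ => S^[n] x j) := by
          apply iff_of_eq
          congr 1
          funext n
          simp only [Y]
          by_cases hn : n = 0
          · subst hn; simp
          · have : ¬ (0 : ℤ) ≤ -(n : ℤ) := by omega
            simp only [this, if_false]
            simp
        exact h3.mpr this
    have h0 := vanish dd _ dense_nonzero_rat ?_ Y hY hsum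
    · simpa [Y] using h0
    · rintro θ ⟨r, hr, rfl⟩ j
      obtain ⟨n, hn, hqn⟩ := q_surj r hr (j.natAbs + 1)
      refine ⟨-(n : ℤ), by omega, ?_⟩
      simp [dd, hqn]
  have hsub : X₀ ⊆ {(0 : ℤ → ℂ)} := fun x hx => hzero x hx
  have hdense := hX₀.mono hsub
  have hcl : closure {(0 : ℤ → ℂ)} = Set.univ := hdense.closure_eq
  rw [closure_singleton] at hcl
  have : (1 : ℤ → ℂ) ∈ ({(0 : ℤ → ℂ)} : Set (ℤ → ℂ)) := by rw [hcl]; trivial
  have h1 := congrFun this 0
  simp at h1

/-- The negation of the preceding statement: Every operator on a real or complex separable F-space that is chaotic, topologically mixing and frequently hypercyclic admits a dense set X0 and a self-map S of X0 with the series of T^n x and S^n x unconditionally convergent and TSx = x on X0. -/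
theorem result :
    ¬ (∀ (𝕂 : Type) [RCLike 𝕂] (X : Type) [AddCommGroup X] [Module 𝕂 X] [UniformSpace X]
      [IsUniformAddGroup X] [CompleteSpace X] [TopologicalSpace.MetrizableSpace X]
      [TopologicalSpace.SeparableSpace X] [ContinuousSMul 𝕂 X] (T : X →L[𝕂] X),
      ((∃ x : X, Dense (Set.range (fun n : ℕ => (T ^ n) x))) ∧
        Dense {x : X | ∃ n : ℕ, 0 < n ∧ (T ^ n) x = x}) →
      (∀ U V : Set X, IsOpen U → IsOpen V → U.Nonempty → V.Nonempty →
        ∃ N : ℕ, ∀ n : ℕ, N ≤ n → ((⇑(T ^ n)) ⁻¹' V ∩ U).Nonempty) →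
      (∃ x : X, ∀ U : Set X, IsOpen U → U.Nonempty →
        ∃ δ : ℝ, 0 < δ ∧ ∃ N₀ : ℕ, ∀ N : ℕ, N₀ ≤ N →
          δ * (N : ℝ) ≤ (Nat.card {n : ℕ // n < N ∧ (T ^ n) x ∈ U} : ℝ)) →
      ∃ X₀ : Set X, Dense X₀ ∧ ∃ S : X → X, (∀ x ∈ X₀, S x ∈ X₀) ∧
        ∀ x ∈ X₀, Summable (fun n : ℕ => (T ^ n) x) ∧
          Summable (fun n : ℕ => S^[n] x) ∧ T (S x) = x) := by
  intro H
  have hdense : ∃ x : ℤ → ℂ, Dense (Set.range (fun n : ℕ => (opT dd ^ n) x)) := by
    obtain ⟨x, hx⟩ := freq_hyp dd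
    refine ⟨x, ?_⟩
    rw [dense_iff_inter_open]
    intro U hU hU'
    obtain ⟨δ, hδ, N₀, hN⟩ := hx U hU hU'
    have h1 := hN (N₀ + 1) (by omega)
    have h2 : 0 < δ * ((N₀ + 1 : ℕ) : ℝ) := by positivity
    have h3 : (0 : ℝ) < (Nat.card {n : ℕ // n < N₀ + 1 ∧ (opT dd ^ n) x ∈ U} : ℝ) := by linarith
    have h4 : 0 < Nat.card {n : ℕ // n < N₀ + 1 ∧ (opT dd ^ n) x ∈ U} := by exact_mod_cast h3
    obtain ⟨⟨⟨n, hn⟩⟩, _⟩ := Nat.card_pos_iff.mp h4
    exact ⟨_, hn.2, n, rfl⟩
  have hper := periodic_dense dd (fun j n hn => dd_pow_ne j n hn)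
  obtain ⟨X₀, hX₀, S, hS, h⟩ := H ℂ (ℤ → ℂ) (opT dd) ⟨hdense, hper⟩ (fun U V => mixing dd U V)
    (freq_hyp dd)
  exact crit_fails X₀ hX₀ S hS h


end Pool.Agent.S04862
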