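import Pool.Statements.S05293
import Pool.Agent.H31.FA.Final

set_option autoImplicit false
open MeasureTheory
open Pool Pool.MP_88cf20_an

namespace Pool.Agent.S05293

/-- For every free, measure-preserving, ergodic action of the free group on two generators on a standard probability space, there is a free measure-preserving action with a.e. the same orbits in which every nontrivial group element acts ergodically. -/
theorem result :
    ∀ (X : Type) [MeasurableSpace X] [StandardBorelSpace X] (μ : Measure X)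
      [IsProbabilityMeasure μ] (a : Fin 2 → Equiv.Perm X),
      (∀ i, Measurable ⇑(a i) ∧ Measurable ⇑(a i).symm ∧ MeasurePreserving ⇑(a i) μ μ) →
      (∀ g : FreeGroup (Fin 2), g ≠ 1 → μ {x | (FreeGroup.lift a g) x = x} = 0) →
      (∀ s : Set X, MeasurableSet s → (∀ i, ⇑(a i) ⁻¹' s =ᵐ[μ] s) → μ s = 0 ∨ μ sᶜ = 0) →
      ∃ b : Fin 2 → Equiv.Perm X,
        (∀ i, Measurable ⇑(b i) ∧ Measurable ⇑(b i).symm ∧ MeasurePreserving ⇑(b i) μ μ) ∧
        (∀ g : FreeGroup (Fin 2), g ≠ 1 → μ {x | (FreeGroup.lift b g) x = x} = 0) ∧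
        (∀ᵐ x ∂μ, Set.range (fun g : FreeGroup (Fin 2) => (FreeGroup.lift a g) x) =
          Set.range (fun g : FreeGroup (Fin 2) => (FreeGroup.lift b g) x)) ∧
        (∀ g : FreeGroup (Fin 2), g ≠ 1 → Ergodic ⇑(FreeGroup.lift b g) μ) := by
  intro X _ _ μ _ a ha hfree herg
  obtain ⟨b, hb, hbfree, hborb, hberg⟩ := Pool.Agent.H31.FA.final (μ := μ) (a := a) ha hfree herg
  exact ⟨b, hb, hbfree, Filter.Eventually.of_forall hborb, fun g hg =>
    Pool.Agent.H31.FA.ergodic_of_EA (Pool.Agent.H31.FA.lift_mem_MP hb g) (hberg g hg)⟩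

end Pool.Agent.S05293
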