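import Pool.Statements.S05788
import Pool.Agent.H25.LinDimG

set_option autoImplicit false
open Pool Pool.MP_aca27d_an

namespace Pool.Agent.S05788

open Pool.Agent.H25.LinDim

/-- The restriction of a pointwise matrix operator to the closed subspaces. -/
noncomputable def rop (M : Matrix (Fin 3) (Fin 3) ℝ) {S S' : Xx → Submodule ℝ V3}
    (h : ∀ x, ∀ w ∈ S x, M.mulVec w ∈ S' x) : HS S →L[ℝ] HS S' :=
  ((mop M).comp (HS S).subtypeL).codRestrict (HS S') (fun f => mop_maps M h f.1 f.2)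

lemma rop_apply (M : Matrix (Fin 3) (Fin 3) ℝ) {S S' : Xx → Submodule ℝ V3}
    (h : ∀ x, ∀ w ∈ S x, M.mulVec w ∈ S' x) (f : HS S) (q : Dx) :
    ((rop M h f : HS S') : Ell) q = ∑ j, M q.2 j * (f : Ell) (q.1, j) := rfl

/-- Cross product with the first unit vector. -/
def M1 : Matrix (Fin 3) (Fin 3) ℝ := !![0, 0, 0; 0, 0, -1; 0, 1, 0]
/-- Cross product with the second unit vector. -/
def M2 : Matrix (Fin 3) (Fin 3) ℝ := !![0, 0, 1; 0, 0, 0; -1, 0, 0]
/-- Cross product with the third unit vector. -/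
def M3 : Matrix (Fin 3) (Fin 3) ℝ := !![0, -1, 0; 1, 0, 0; 0, 0, 0]

lemma M1_skew (w : V3) : M1.mulVec w ⬝ᵥ w = 0 := by
  simp [M1, dotProduct, Fin.sum_univ_three, Matrix.mulVec, Matrix.vecHead, Matrix.vecTail]
  ring

lemma M2_skew (w : V3) : M2.mulVec w ⬝ᵥ w = 0 := by
  simp [M2, dotProduct, Fin.sum_univ_three, Matrix.mulVec, Matrix.vecHead, Matrix.vecTail]
  ring

lemma M3_skew (w : V3) : M3.mulVec w ⬝ᵥ w = 0 := by
  simp [M3, dotProduct, Fin.sum_univ_three, Matrix.mulVec, Matrix.vecHead, Matrix.vecTail]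
  ring

lemma maps_of_skew (M : Matrix (Fin 3) (Fin 3) ℝ) (hM : ∀ w : V3, M.mulVec w ⬝ᵥ w = 0)
    (v : Xx → V3) : ∀ x, ∀ w ∈ Submodule.span ℝ {v x}, M.mulVec w ∈ perp (v x) := by
  intro x w hw
  rw [Submodule.mem_span_singleton] at hw
  obtain ⟨t, rfl⟩ := hw
  rw [Matrix.mulVec_smul]
  exact (perp (v x)).smul_mem t (hM (v x))

/-- The negation of the preceding statement: For real Banach spaces E, F: if neither is isomorphic to a closed subspace of the other, then neither E×E nor F×F is isomorphic to a closed subspace of the other. -/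
theorem result :
    ¬ (∀ (E F : Type) [NormedAddCommGroup E] [NormedSpace ℝ E] [CompleteSpace E]
      [NormedAddCommGroup F] [NormedSpace ℝ F] [CompleteSpace F],
      ((¬ ∃ (T : E →L[ℝ] F) (C : ℝ), ∀ x : E, ‖x‖ ≤ C * ‖T x‖) ∧
       (¬ ∃ (T : F →L[ℝ] E) (C : ℝ), ∀ y : F, ‖y‖ ≤ C * ‖T y‖)) →
      ((¬ ∃ (T : (E × E) →L[ℝ] (F × F)) (C : ℝ), ∀ x : E × E, ‖x‖ ≤ C * ‖T x‖) ∧
       (¬ ∃ (T : (F × F) →L[ℝ] (E × E)) (C : ℝ), ∀ y : F × F, ‖y‖ ≤ C * ‖T y‖))) := by
  intro hall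
  obtain ⟨v, ξ, hξ, h1, h2, hv0⟩ := exists_v
  haveI : CompleteSpace (HS (fun x => Submodule.span ℝ {v x})) :=
    (Submodule.isClosed_topologicalClosure _).completeSpace_coe
  haveI : CompleteSpace (HS (fun x => perp (v x))) :=
    (Submodule.isClosed_topologicalClosure _).completeSpace_coe
  have hEF := no_embed (S := fun x => Submodule.span ℝ {v x}) (S' := fun x => perp (v x))
    true ξ hξ (by
      intro B t hm
      have hself : v (ξ (B, true, t)) ∈ Submodule.span ℝ {v (ξ (B, true, t))} :=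
        Submodule.mem_span_singleton_self _
      exact ⟨v (ξ (B, true, t)), hself, hv0 _, h1 B t (hm _ hself)⟩)
  have hFE := no_embed (S := fun x => perp (v x)) (S' := fun x => Submodule.span ℝ {v x})
    false ξ hξ (fun B t hm => h2 B t hm)
  have h := (hall (HS (fun x => Submodule.span ℝ {v x})) (HS (fun x => perp (v x)))
    ⟨hEF, hFE⟩).1
  apply h
  let A := rop M1 (maps_of_skew M1 M1_skew v)
  let B := rop M2 (maps_of_skew M2 M2_skew v)
  let D := rop M3 (maps_of_skew M3 M3_skew v)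
  let fst := ContinuousLinearMap.fst ℝ (HS (fun x => Submodule.span ℝ {v x}))
    (HS (fun x => Submodule.span ℝ {v x}))
  let snd := ContinuousLinearMap.snd ℝ (HS (fun x => Submodule.span ℝ {v x}))
    (HS (fun x => Submodule.span ℝ {v x}))
  refine ⟨(A.comp fst + B.comp snd).prod (B.comp fst + D.comp snd), 2, ?_⟩
  rintro ⟨f, g⟩
  set P : HS (fun x => perp (v x)) := A f + B g with hP
  set Q : HS (fun x => perp (v x)) := B f + D g with hQ
  have hT : ((A.comp fst + B.comp snd).prod (B.comp fst + D.comp snd)) (f, g) = (P, Q) := rfl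
  rw [hT]
  have hPn : ‖P‖ ≤ ‖(P, Q)‖ := norm_fst_le (P, Q)
  have hQn : ‖Q‖ ≤ ‖(P, Q)‖ := norm_snd_le (P, Q)
  have hPa : ∀ q : Dx, |(P : Ell) q| ≤ ‖(P, Q)‖ := fun q => (norm_apply_le _ q).trans hPn
  have hQa : ∀ q : Dx, |(Q : Ell) q| ≤ ‖(P, Q)‖ := fun q => (norm_apply_le _ q).trans hQn
  have hPv : ∀ q : Dx, (P : Ell) q = (∑ j, M1 q.2 j * (f : Ell) (q.1, j))
      + ∑ j, M2 q.2 j * (g : Ell) (q.1, j) := fun q => rfl
  have hQv : ∀ q : Dx, (Q : Ell) q = (∑ j, M2 q.2 j * (f : Ell) (q.1, j))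
      + ∑ j, M3 q.2 j * (g : Ell) (q.1, j) := fun q => rfl
  have hval : ∀ d : List Bool,
      (P : Ell) (d, 0) = (g : Ell) (d, 2) ∧ (P : Ell) (d, 1) = - (f : Ell) (d, 2) ∧
      (P : Ell) (d, 2) = (f : Ell) (d, 1) - (g : Ell) (d, 0) ∧
      (Q : Ell) (d, 0) = (f : Ell) (d, 2) - (g : Ell) (d, 1) ∧ (Q : Ell) (d, 1) = (g : Ell) (d, 0)
      ∧ (Q : Ell) (d, 2) = - (f : Ell) (d, 0) := by
    intro d
    refine ⟨?_, ?_, ?_, ?_, ?_, ?_⟩
    all_goals first | rw [hPv] | rw [hQv]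
    all_goals simp [Fin.sum_univ_three, M1, M2, M3]
    all_goals ring
  have hC : (0 : ℝ) ≤ 2 * ‖(P, Q)‖ := by positivity
  have hbound : ∀ q : Dx, |(f : Ell) q| ≤ 2 * ‖(P, Q)‖ ∧ |(g : Ell) q| ≤ 2 * ‖(P, Q)‖ := by
    rintro ⟨d, i⟩
    obtain ⟨e1, e2, e3, e4, e5, e6⟩ := hval d
    have b1 := abs_le.mp (hPa (d, 0))
    have b2 := abs_le.mp (hPa (d, 1))
    have b3 := abs_le.mp (hPa (d, 2))
    have b4 := abs_le.mp (hQa (d, 0))
    have b5 := abs_le.mp (hQa (d, 1))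
    have b6 := abs_le.mp (hQa (d, 2))
    fin_cases i
    · constructor
      · apply abs_le.mpr; simp only [Fin.zero_eta, Fin.isValue]; constructor <;> linarith
      · apply abs_le.mpr; simp only [Fin.zero_eta, Fin.isValue]; constructor <;> linarith
    · constructor
      · apply abs_le.mpr; simp only [Fin.mk_one, Fin.isValue]; constructor <;> linarith
      · apply abs_le.mpr; simp only [Fin.mk_one, Fin.isValue]; constructor <;> linarith
    · constructor
      · apply abs_le.mpr; simp only [Fin.reduceFinMk, Fin.isValue]; constructor <;> linarith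
      · apply abs_le.mpr; simp only [Fin.reduceFinMk, Fin.isValue]; constructor <;> linarith
  have hf : ‖f‖ ≤ 2 * ‖(P, Q)‖ := norm_le_of (f := (f : Ell)) hC (fun q => (hbound q).1)
  have hg : ‖g‖ ≤ 2 * ‖(P, Q)‖ := norm_le_of (f := (g : Ell)) hC (fun q => (hbound q).2)
  exact norm_prod_le_iff.mpr ⟨hf, hg⟩

end Pool.Agent.S05788
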