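import Pool.Statements.S06462
import Pool.Agent.H27.Spread.Constr
import Pool.Agent.H27.Spread.Model

set_option autoImplicit false
open Pool Pool.MP_e1e1a2_an

namespace Pool.Agent.S06462

/-- The negation of the preceding statement: In a reflexive real Banach space whose spreading models from normalized weakly null sequences form countably many (nonzero) equivalence classes, some normalized weakly null sequence has a spreading model equivalent to the c_0 or some ℓ_p (1≤p<∞) unit vector basis. -/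
theorem result :
    ¬ (∀ (X : Type) [NormedAddCommGroup X] [NormedSpace ℝ X] [CompleteSpace X],
    Function.Surjective (NormedSpace.inclusionInDoubleDual ℝ X) →
    (∃ (y : ℕ → ℕ → X) (T : ℕ → (k : ℕ) → (Fin k → ℝ) → ℝ),
      (∀ j n, ‖y j n‖ = 1) ∧
      (∀ j (f : X →L[ℝ] ℝ), Filter.Tendsto (fun n => f (y j n)) Filter.atTop (nhds 0)) ∧
      (∀ j (k : ℕ) (a : Fin k → ℝ) (ε : ℝ), 0 < ε → ∃ N : ℕ, ∀ n : Fin k → ℕ,
        StrictMono n → (∀ i, N ≤ n i) → |‖∑ i, a i • y j (n i)‖ - T j k a| < ε) ∧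
      (∀ (x : ℕ → X) (S : (k : ℕ) → (Fin k → ℝ) → ℝ),
        (∀ n, ‖x n‖ = 1) →
        (∀ f : X →L[ℝ] ℝ, Filter.Tendsto (fun n => f (x n)) Filter.atTop (nhds 0)) →
        (∀ (k : ℕ) (a : Fin k → ℝ) (ε : ℝ), 0 < ε → ∃ N : ℕ, ∀ n : Fin k → ℕ,
          StrictMono n → (∀ i, N ≤ n i) → |‖∑ i, a i • x (n i)‖ - S k a| < ε) →
        ∃ j : ℕ, ∃ C : ℝ, 0 < C ∧ ∀ (k : ℕ) (a : Fin k → ℝ),
          S k a ≤ C * T j k a ∧ T j k a ≤ C * S k a)) →
    ∃ (x : ℕ → X) (S : (k : ℕ) → (Fin k → ℝ) → ℝ),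
      (∀ n, ‖x n‖ = 1) ∧
      (∀ f : X →L[ℝ] ℝ, Filter.Tendsto (fun n => f (x n)) Filter.atTop (nhds 0)) ∧
      (∀ (k : ℕ) (a : Fin k → ℝ) (ε : ℝ), 0 < ε → ∃ N : ℕ, ∀ n : Fin k → ℕ,
        StrictMono n → (∀ i, N ≤ n i) → |‖∑ i, a i • x (n i)‖ - S k a| < ε) ∧
      ((∃ C : ℝ, 0 < C ∧ ∀ (k : ℕ) (a : Fin k → ℝ),
          S k a ≤ C * (⨆ i, |a i|) ∧ (⨆ i, |a i|) ≤ C * S k a) ∨
       (∃ p : ℝ, 1 ≤ p ∧ ∃ C : ℝ, 0 < C ∧ ∀ (k : ℕ) (a : Fin k → ℝ),
          S k a ≤ C * (∑ i, |a i| ^ p) ^ (1 / p) ∧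
          (∑ i, |a i| ^ p) ^ (1 / p) ≤ C * S k a))) := by
  intro H
  open Pool.Agent.H27.Spread in
  set S₀ := theSp with hS₀
  obtain ⟨T, hT⟩ := S₀.basis_sm
  have hδ : ∀ {x : ℕ → Pool.Agent.H27.Spread.XX}, (∀ f : Pool.Agent.H27.Spread.XX →L[ℝ] ℝ,
      Filter.Tendsto (fun n => f (x n)) Filter.atTop (nhds 0)) →
      ∀ n, Filter.Tendsto (fun i => S₀.δ n (x i)) Filter.atTop (nhds 0) := fun hx n => hx (S₀.δ n)
  obtain ⟨x, S, hx1, hx0, hS, hor⟩ := H Pool.Agent.H27.Spread.XX S₀.reflexive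
    ⟨fun _ => S₀.e, fun _ => T, fun _ n => S₀.norm_e n, fun _ f => S₀.e_weakly_null f, fun _ => hT, by
      intro x S hx1 hx0 hS
      obtain ⟨C₁, hC₁, hl₁⟩ := S₀.sm_lower hx1 (hδ hx0) hS
      obtain ⟨C₂, hC₂, hl₂⟩ := S₀.sm_lower S₀.norm_e (hδ (fun f => S₀.e_weakly_null f)) hT
      refine ⟨0, 458 * C₁ + 458 * C₂, by positivity, fun k a => ?_⟩
      have hS0 : 0 ≤ S k a := by
        have := hl₁ k a ∅ 0 le_rfl (by simp)
        simp only [Finset.card_empty, zero_mul] at this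
        nlinarith
      have hT0 : 0 ≤ T k a := by
        have := hl₂ k a ∅ 0 le_rfl (by simp)
        simp only [Finset.card_empty, zero_mul] at this
        nlinarith
      have h1 := S₀.sm_upper hx1 (hδ hx0) hS a (r := C₂ * T k a) (fun A t ht hA => hl₂ k a A t ht hA)
      have h2 := S₀.sm_upper S₀.norm_e (hδ (fun f => S₀.e_weakly_null f)) hT a (r := C₁ * S k a)
        (fun A t ht hA => hl₁ k a A t ht hA)
      constructor
      · nlinarith [mul_nonneg hC₁.le hT0]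
      · nlinarith [mul_nonneg hC₂.le hS0]⟩
  obtain ⟨C₁, hC₁, hl₁⟩ := S₀.sm_lower hx1 (hδ hx0) hS
  -- the values on the constant vectors
  have hlow : ∀ m : ℕ, ((m : ℝ) + 1) ≤ C₁ * S (2 ^ m) (fun _ => 1) := by
    intro m
    have := hl₁ (2 ^ m) (fun _ => 1) Finset.univ 1 zero_le_one (fun i _ => by simp)
    rw [Finset.card_univ, Fintype.card_fin, Nat.size_pow, one_mul] at this
    push_cast at this
    exact this
  have hup : ∀ m : ℕ, S (2 ^ m) (fun _ => 1) ≤ 458 * ((m : ℝ) + 1) := by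
    intro m
    apply S₀.sm_upper hx1 (hδ hx0) hS
    intro A t ht hA
    have h1 : (Nat.size A.card : ℝ) ≤ m + 1 := by
      have h2 : A.card ≤ 2 ^ m := by
        have := Finset.card_le_univ A
        rwa [Fintype.card_fin] at this
      have h3 := Nat.size_le_size h2
      rw [Nat.size_pow] at h3
      exact_mod_cast h3
    rcases A.eq_empty_or_nonempty with h0 | ⟨i, hi⟩
    · rw [h0]; simp; positivity
    · have h4 : t ≤ 1 := by simpa using hA i hi
      have h5 : (0:ℝ) ≤ Nat.size A.card := Nat.cast_nonneg _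
      nlinarith
  rcases hor with ⟨C, hC, hc0⟩ | ⟨p, hp, C, hC, hlp⟩
  · -- c₀
    obtain ⟨m, hm⟩ := exists_nat_gt (C₁ * C)
    have h1 := (hc0 (2 ^ m) (fun _ => 1)).1
    have : Nonempty (Fin (2 ^ m)) := ⟨⟨0, by positivity⟩⟩
    simp only [abs_one, ciSup_const, mul_one] at h1
    have h2 := hlow m
    have h3 := mul_le_mul_of_nonneg_left h1 hC₁.le
    linarith
  · -- ℓ_p
    have hp0 : 0 < p := by linarith
    have hr1 : (1 / 2 : ℝ) ^ (1 / p) < 1 :=
      Real.rpow_lt_one (by norm_num) (by norm_num) (by positivity)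
    obtain ⟨n₀, hn₀⟩ := Pool.Agent.H27.Spread.exists_small (r := (1 / 2 : ℝ) ^ (1 / p))
      (by positivity) hr1 (C * 458) (C * 458) one_pos
    have h1 := (hlp (2 ^ n₀) (fun _ => 1)).2
    simp only [abs_one, Real.one_rpow, Finset.sum_const, Finset.card_univ, Fintype.card_fin,
      nsmul_eq_mul, mul_one] at h1
    have h2 := hup n₀
    have h3 := hn₀ n₀ le_rfl
    have h4 : ((1 / 2 : ℝ) ^ (1 / p)) ^ n₀ * (((2 ^ n₀ : ℕ) : ℝ)) ^ (1 / p) = 1 := by
      rw [← Real.rpow_natCast, ← Real.rpow_mul (by norm_num), mul_comm (1 / p), Real.rpow_mul (by norm_num),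
        Real.rpow_natCast, ← Real.mul_rpow (by positivity) (by positivity)]
      push_cast
      rw [← mul_pow]; norm_num
    have h5 := mul_le_mul_of_nonneg_left (h1.trans (mul_le_mul_of_nonneg_left h2 hC.le))
      (show (0:ℝ) ≤ ((1 / 2 : ℝ) ^ (1 / p)) ^ n₀ by positivity)
    rw [h4] at h5
    linarith

end Pool.Agent.S06462
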