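import Pool.Statements.S06714
import Pool.Agent.H30MS.Main

set_option autoImplicit false
open Pool Pool.MP_f4a1d1_an

namespace Pool.Agent.S06714

/-- The negation of the preceding statement: For all real Banach spaces X, Y and every bijection U from X to Y that preserves distances on some ball around each point, U preserves all distances (is an isometry). -/
theorem result :
    ¬ (∀ (X Y : Type) [NormedAddCommGroup X] [NormedSpace ℝ X] [CompleteSpace X]
      [NormedAddCommGroup Y] [NormedSpace ℝ Y] [CompleteSpace Y] (U : X → Y),
      Function.Bijective U →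
      (∀ x₀ : X, ∃ r : ℝ, 0 < r ∧ ∀ x ∈ Metric.ball x₀ r, ∀ y ∈ Metric.ball x₀ r,
        dist (U x) (U y) = dist x y) →
      Isometry U) := by
  intro h
  obtain ⟨X, Y, iX, iX2, iX3, iY, iY2, iY3, U, hbij, hloc, hnot⟩ := Pool.Agent.H30MS.main
  apply hnot
  refine h X Y U hbij ?_
  intro x₀
  refine ⟨1 / 2, by norm_num, ?_⟩
  intro x hx y hy
  apply hloc
  rw [Metric.mem_ball] at hx hy
  have := dist_triangle_right x y x₀
  linarith

end Pool.Agent.S06714
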