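import Pool.Statements.S07145
import Pool.Agent.H51.Main
import Pool.Agent.H51.Planar

set_option autoImplicit false
open Pool Pool.MP_0c6f22_co

namespace Pool.Agent.S07145

open Pool.Agent.H51 in
lemma noK33 (n : ℕ) (G : SimpleGraph (Fin n)) (h : ∃ p : Fin n → ℝ × ℝ,
      ∃ γ : Fin n → Fin n → unitInterval → ℝ × ℝ,
        Function.Injective p ∧
        (∀ u v, G.Adj u v →
          Continuous (γ u v) ∧ Function.Injective (γ u v) ∧
          γ u v 0 = p u ∧ γ u v 1 = p v ∧
          (∀ z t, γ u v t = p z → z = u ∨ z = v)) ∧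
        (∀ u v w x, G.Adj u v → G.Adj w x →
          Sym2.mk (u, v) ≠ Sym2.mk (w, x) →
          ∀ t s, γ u v t = γ w x s → (γ u v t = p u ∨ γ u v t = p v))) :
    ¬ Minor G K33 := by
  obtain ⟨p, γ, hp, hγ, hcross⟩ := h
  apply no_K33_of_drawing hp hγ
  intro u v w x huv hwx huw hux hvw hvx
  apply hcross u v w x huv hwx
  intro heq
  have h1 := congrFun heq (u, v)
  rw [Sym2.eq_iff] at h1
  rcases h1 with ⟨h1, _⟩ | ⟨h1, h2⟩
  · exact huw (Prod.mk.inj h1).1
  · exact huw (Prod.mk.inj h2).1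

open Pool.Agent.H51 in
lemma coloring (k : ℕ) (hk : 10 ^ 30 ≤ k) (n : ℕ) (G : SimpleGraph (Fin n))
    (hG : ¬ Minor G K33) (hdeg : ∀ v, (G.neighborSet v).ncard ≤ 2 * k + 2) :
    ∃ J : Set (Fin n), ∀ v,
        (v ∈ J → {w | G.Adj v w ∧ w ∈ J}.ncard ≤ k) ∧
        (v ∉ J → {w | G.Adj v w ∧ w ∉ J}.ncard ≤ k) := by
  classical
  have hsum : ∀ (v : Fin n) (c : Fin n → Bool) (b : Bool),
      ({w | G.Adj v w ∧ c w = b}.ncard : ℤ) =
        ∑ y, (if c y = b then ((if G.Adj v y then 1 else 0 : ℕ) : ℤ) else 0) := by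
    intro v c b
    have h1 : {w | G.Adj v w ∧ c w = b} =
        ((Finset.univ.filter fun w => G.Adj v w ∧ c w = b : Finset (Fin n)) : Set (Fin n)) := by
      ext w; simp
    rw [h1, Set.ncard_coe_finset, Finset.card_filter]
    push_cast
    refine Finset.sum_congr rfl fun y _ => ?_
    by_cases h2 : G.Adj v y <;> by_cases h3 : c y = b <;> simp [h2, h3]
  have hT : ∀ v, ∑ y, ((if G.Adj v y then 1 else 0 : ℕ) : ℤ) ≤ 2 * (k : ℤ) + 2 := by
    intro v
    have h1 := hsum v (fun _ => true) true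
    have h2 : {w | G.Adj v w ∧ (fun _ : Fin n => true) w = true} = G.neighborSet v := by
      ext w; simp
    rw [h2] at h1
    simp only [if_true] at h1
    rw [← h1]
    exact_mod_cast hdeg v
  have inst : Inst (k : ℤ) G Finset.univ ∅ (fun x y => if G.Adj x y then 1 else 0)
      (fun _ => (k : ℤ)) := by
    constructor
    · intro x y h
      refine ⟨Finset.mem_univ _, ?_⟩
      by_contra hcon
      simp [hcon] at h
    · intro x y
      split_ifs <;> omega
    · intro x y _
      split_ifs <;> omega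
    · intro x _
      exact hT x
    · intro x _ _
      have h1 := hT x
      have hk0 : (0 : ℤ) ≤ (k : ℤ) := Int.natCast_nonneg _
      constructor
      · linarith
      · linarith
    · intro x _ h
      simp at h
  obtain ⟨c, hc⟩ := main_aux (k : ℤ) (by exact_mod_cast hk) _ G Finset.univ ∅ _ _ rfl hG inst
  refine ⟨{v | c v = true}, fun v => ⟨fun hv => ?_, fun hv => ?_⟩⟩
  · have h1 := hc v (Finset.mem_univ v)
    have hv' : c v = true := hv
    rw [hv', ← hsum v c true] at h1
    exact_mod_cast h1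
  · have h1 := hc v (Finset.mem_univ v)
    have hv' : c v = false := by
      rw [← Bool.not_eq_true]
      exact hv
    rw [hv', ← hsum v c false] at h1
    have h2 : {w | G.Adj v w ∧ w ∉ {v | c v = true}} = {w | G.Adj v w ∧ c w = false} := by
      ext w; simp
    rw [h2]
    exact_mod_cast h1

/-- There is k₀ such that for every k ≥ k₀, every finite planar graph of maximum degree at most 2k+2 splits its vertices into two parts, each inducing a subgraph of maximum degree at most k. -/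
theorem result :
    ∃ k₀ : ℕ, ∀ k : ℕ, k₀ ≤ k → ∀ n : ℕ, ∀ G : SimpleGraph (Fin n),
      (∃ p : Fin n → ℝ × ℝ, ∃ γ : Fin n → Fin n → unitInterval → ℝ × ℝ,
        Function.Injective p ∧
        (∀ u v, G.Adj u v →
          Continuous (γ u v) ∧ Function.Injective (γ u v) ∧
          γ u v 0 = p u ∧ γ u v 1 = p v ∧
          (∀ z t, γ u v t = p z → z = u ∨ z = v)) ∧
        (∀ u v w x, G.Adj u v → G.Adj w x →
          Sym2.mk (u, v) ≠ Sym2.mk (w, x) →
          ∀ t s, γ u v t = γ w x s → (γ u v t = p u ∨ γ u v t = p v))) →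
      (∀ v, (G.neighborSet v).ncard ≤ 2 * k + 2) →
      ∃ J : Set (Fin n), ∀ v,
        (v ∈ J → {w | G.Adj v w ∧ w ∈ J}.ncard ≤ k) ∧
        (v ∉ J → {w | G.Adj v w ∧ w ∉ J}.ncard ≤ k) := by
  exact ⟨10 ^ 30, fun k hk n G hG hdeg => coloring k hk n G (noK33 n G hG) hdeg⟩

end Pool.Agent.S07145
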