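import Pool.Statements.S07258
import Pool.Agent.H56.Final

set_option autoImplicit false
open Pool Pool.MP_121e0a_co

namespace Pool.Agent.S07258

/-- The negation of the preceding statement: There are constants C and r₀ such that for all r ≥ r₀, any finite planar point set, with edges joining points whose distance lies in a fixed set of r positive reals, can be properly colored with at most r^C colors. -/
theorem result :
    ¬ (∃ C : ℝ, ∃ r₀ : ℕ, ∀ r : ℕ, r₀ ≤ r →
      ∀ P : Finset (EuclideanSpace ℝ (Fin 2)), ∀ A : Finset ℝ,
        A.card = r → (∀ a ∈ A, 0 < a) →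
          ∃ k : ℕ, (k : ℝ) ≤ (r : ℝ) ^ C ∧
            (SimpleGraph.fromRel (fun x y : ↥P =>
              dist (x : EuclideanSpace ℝ (Fin 2)) (y : EuclideanSpace ℝ (Fin 2)) ∈ A)).Colorable k) := by
  exact Pool.Agent.H56.main_theorem

end Pool.Agent.S07258
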