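import Pool.Statements.S07851
import Pool.Agent.H59.Final

set_option autoImplicit false
open Classical
open Pool Pool.MP_2c6e0f_co

namespace Pool.Agent.S07851

/-- For every n and every tree T on n vertices, the Laplacian energy of the path on n vertices (sum of absolute deviations of Laplacian eigenvalues from the average degree) is at most that of T. -/
theorem result :
    ∀ n : ℕ, ∀ T : SimpleGraph (Fin n), T.IsTree →
      (Multiset.map
          (fun μ : ℝ => |μ - 2 * (Nat.card (SimpleGraph.pathGraph n).edgeSet : ℝ) / (n : ℝ)|)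
          ((SimpleGraph.pathGraph n).lapMatrix ℝ).charpoly.roots).sum
        ≤
      (Multiset.map
          (fun μ : ℝ => |μ - 2 * (Nat.card T.edgeSet : ℝ) / (n : ℝ)|)
          (T.lapMatrix ℝ).charpoly.roots).sum := by
  intro n T hT
  rcases n with _ | m
  · have := hT.card_edgeFinset
    simp at this
  · have h1 : (Nat.card (SimpleGraph.pathGraph (m + 1)).edgeSet : ℝ) = m := by
      rw [Pool.Agent.H59.card_path_edges m]
    have h2 : (Nat.card T.edgeSet : ℝ) = m := by
      have := Pool.Agent.H59.card_tree_edges T hT
      have h3 : Nat.card T.edgeSet = m := by omega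
      rw [h3]
    have h4 : 2 * (m : ℝ) / ((m + 1 : ℕ) : ℝ) = 2 - 2 / ((m + 1 : ℕ) : ℝ) := by
      have : ((m + 1 : ℕ) : ℝ) ≠ 0 := by positivity
      field_simp
      push_cast
      ring
    rw [h1, h2, h4, Pool.Agent.H59.lapSpec_eq, Pool.Agent.H59.lapSpec_eq]
    exact Pool.Agent.H59.main (m + 1) T hT

end Pool.Agent.S07851
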