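import Pool.Statements.S08250
import Pool.Agent.H45.FrozenCheck

set_option autoImplicit false
open Pool Pool.MP_3d2668_co

namespace Pool.Agent.S08250

open Pool.Agent.H45.Frozen

/-- An induced path on five vertices gives an embedding of the path graph. -/
theorem no_path {V : Type} {G : SimpleGraph V} (h : IsEmpty (SimpleGraph.pathGraph 5 ↪g G))
    {a b c d e : V} (hab : G.Adj a b) (hbc : G.Adj b c) (hcd : G.Adj c d) (hde : G.Adj d e)
    (hac : ¬ G.Adj a c) (had : ¬ G.Adj a d) (hae : ¬ G.Adj a e) (hbd : ¬ G.Adj b d)
    (hbe : ¬ G.Adj b e) (hce : ¬ G.Adj c e) : False := by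
  have nac : a ≠ c := by rintro rfl; exact had hcd
  have nad : a ≠ d := by rintro rfl; exact hbd hab.symm
  have nae : a ≠ e := by rintro rfl; exact hbe hab.symm
  have nbd : b ≠ d := by rintro rfl; exact hbe hde
  have nbe : b ≠ e := by rintro rfl; exact hbd hde.symm
  have nce : c ≠ e := by rintro rfl; exact hbe hbc
  have nab := hab.ne
  have nbc := hbc.ne
  have ncd := hcd.ne
  have nde := hde.ne
  refine h.false ⟨⟨![a, b, c, d, e], ?_⟩, ?_⟩
  · intro i j hij
    fin_cases i <;> fin_cases j <;> simp_all
  · intro i j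
    have sab := hab.symm
    have sbc := hbc.symm
    have scd := hcd.symm
    have sde := hde.symm
    have sac : ¬ G.Adj c a := fun h => hac h.symm
    have sad : ¬ G.Adj d a := fun h => had h.symm
    have sae : ¬ G.Adj e a := fun h => hae h.symm
    have sbd : ¬ G.Adj d b := fun h => hbd h.symm
    have sbe : ¬ G.Adj e b := fun h => hbe h.symm
    have sce : ¬ G.Adj e c := fun h => hce h.symm
    fin_cases i <;> fin_cases j <;> simp_all [SimpleGraph.pathGraph_adj]

/-- Dominating witnesses of a frozen colouring. -/
theorem exists_witness {V : Type} [Fintype V] {G : SimpleGraph V}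
    (h : IsEmpty (SimpleGraph.pathGraph 5 ↪g G)) (c : G.Coloring (Fin 4))
    (hf : ∀ v : V, ∀ i : Fin 4, i ≠ c v → ∃ w : V, G.Adj v w ∧ c w = i) (v : V) (i : Fin 4) :
    ∃ w : V, i ≠ c v → G.Adj v w ∧ c w = i ∧
      ∀ u x, c u = i → G.Adj u v → c x = c v → G.Adj u x → G.Adj w x := by
  classical
  by_cases hi : i ≠ c v
  swap
  · exact ⟨v, fun h => absurd h hi⟩
  let S : Finset V := Finset.univ.filter fun w => G.Adj v w ∧ c w = i
  let N : V → Finset V := fun w => Finset.univ.filter fun x => c x = c v ∧ G.Adj w x
  obtain ⟨w0, hw0⟩ := hf v i hi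
  have hS : S.Nonempty := ⟨w0, by simp [S, hw0]⟩
  obtain ⟨w, hw, hmax⟩ := Finset.exists_max_image S (fun w => (N w).card) hS
  have hw' : G.Adj v w ∧ c w = i := by simpa [S] using hw
  refine ⟨w, fun _ => ⟨hw'.1, hw'.2, ?_⟩⟩
  intro u x hu huv hx hux
  by_contra hwx
  have huS : u ∈ S := by simp [S, hu, huv.symm]
  have hle := hmax u huS
  -- some neighbour of `w` is not a neighbour of `u`
  have hsub : ¬ N w ⊆ N u := by
    intro hsub
    have hx1 : x ∈ N u := by simp [N, hx, hux]
    have hx2 : x ∉ N w := by simp [N, hwx]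
    have hlt : N w ⊂ N u := (Finset.ssubset_iff_of_subset hsub).2 ⟨x, hx1, hx2⟩
    exact absurd (Finset.card_lt_card hlt) (not_lt.2 hle)
  rw [Finset.not_subset] at hsub
  obtain ⟨y, hy1, hy2⟩ := hsub
  have hy1' : c y = c v ∧ G.Adj w y := by simpa [N] using hy1
  have hy2' : ¬ G.Adj u y := by
    intro huy
    exact hy2 (by simp [N, hy1'.1, huy])
  -- the induced path x - u - v - w - y
  have same : ∀ {p q : V}, c p = c q → ¬ G.Adj p q := fun hpq hadj => c.valid hadj hpq
  refine no_path h hux.symm huv hw'.1 hy1'.2 ?_ ?_ ?_ ?_ ?_ ?_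
  · exact same hx
  · exact fun h => hwx h.symm
  · exact same (hx.trans hy1'.1.symm)
  · exact same (hu.trans hw'.2.symm)
  · exact hy2'
  · exact same hy1'.1.symm

/-- class of the `i`-th vertex as an element of `Fin 4` -/
def clsF (i : ℕ) : Fin 4 := ⟨cls i, Nat.mod_lt _ (by norm_num)⟩

/-- The sequence of vertices: each vertex is the witness, in its class, for an earlier one. -/
noncomputable def seq {V : Type} (f : V → Fin 4 → V) (v0 : V) (i : ℕ) : V :=
  if _h : par i < i then f (seq f v0 (par i)) (clsF i) else v0
termination_by i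

/-- The nineteen vertices (the index is cut off at 19). -/
noncomputable def tt {V : Type} (f : V → Fin 4 → V) (v0 : V) (i : ℕ) : V :=
  if i < 19 then seq f v0 i else v0

theorem par_lt : ∀ i < 19, 0 < i → par i < i := by decide +kernel

theorem cls_par : ∀ i < 19, 0 < i → cls i ≠ cls (par i) := by decide +kernel

theorem cls_big : ∀ i < 32, 19 ≤ i → cls i = 0 := by decide +kernel

theorem tt_zero {V : Type} (f : V → Fin 4 → V) (v0 : V) : tt f v0 0 = v0 := by
  unfold tt
  rw [if_pos (by norm_num), seq, dif_neg (by decide +kernel)]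

theorem tt_succ {V : Type} (f : V → Fin 4 → V) (v0 : V) {i : ℕ} (hi : i < 19) (h0 : 0 < i) :
    tt f v0 i = f (tt f v0 (par i)) (clsF i) := by
  have h1 := par_lt i hi h0
  unfold tt
  rw [if_pos hi, if_pos (by omega), seq, dif_pos h1]

/-- the valuation of the variables -/
def val {V : Type} (G : SimpleGraph V) (a : V → Fin 3) (t : ℕ → V) (k : ℕ) : Prop :=
  if k < 1024 then G.Adj (t (k / 32)) (t (k % 32))
  else (a (t ((k - 1024) / 4)) : ℕ) = (k - 1024) % 4

theorem val_E {V : Type} (G : SimpleGraph V) (a : V → Fin 3) (t : ℕ → V) {i j : ℕ} (hi : i < 32)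
    (hj : j < 32) : val G a t (E i j) ↔ G.Adj (t i) (t j) := by
  unfold val E
  by_cases h : i < j
  · rw [if_pos h, if_pos (by omega)]
    have e1 : (i * 32 + j) / 32 = i := by omega
    have e2 : (i * 32 + j) % 32 = j := by omega
    rw [e1, e2]
  · rw [if_neg h, if_pos (by omega)]
    have e1 : (j * 32 + i) / 32 = j := by omega
    have e2 : (j * 32 + i) % 32 = i := by omega
    rw [e1, e2]
    exact G.adj_comm _ _

theorem val_A {V : Type} (G : SimpleGraph V) (a : V → Fin 3) (t : ℕ → V) {i x : ℕ} (hx : x < 4) :
    val G a t (A i x) ↔ (a (t i) : ℕ) = x := by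
  unfold val A
  rw [if_neg (by omega)]
  have e1 : (1024 + i * 4 + x - 1024) / 4 = i := by omega
  have e2 : (1024 + i * 4 + x - 1024) % 4 = x := by omega
  rw [e1, e2]

theorem taut_holds (ν : ℕ → Prop) : ∃ l ∈ taut, Holds ν l := by
  by_cases h : ν 0
  · exact ⟨(0, true), by simp [taut], by simpa [Holds] using h⟩
  · exact ⟨(0, false), by simp [taut], by simpa [Holds] using h⟩

/-- The core: no such configuration exists. -/
theorem core {V : Type} {G : SimpleGraph V} (hP : IsEmpty (SimpleGraph.pathGraph 5 ↪g G))
    (c : G.Coloring (Fin 4)) (a : G.Coloring (Fin 3)) (f : V → Fin 4 → V)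
    (hf : ∀ v i, i ≠ c v → G.Adj v (f v i) ∧ c (f v i) = i ∧
      ∀ u x, c u = i → G.Adj u v → c x = c v → G.Adj u x → G.Adj (f v i) x)
    (v0 : V) (h0 : c v0 = 0) (ha0 : a v0 = 0) (ha1 : a (tt f v0 1) = 1) : False := by
  -- the classes
  have hcls : ∀ i, i < 32 → c (tt f v0 i) = clsF i := by
    intro i
    induction i using Nat.strong_induction_on with
    | _ i ih =>
      intro hi
      by_cases h19 : i < 19
      · by_cases hi0 : 0 < i
        · have h1 := par_lt i h19 hi0
          have h2 := ih (par i) h1 (by omega)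
          rw [tt_succ f v0 h19 hi0]
          refine (hf _ _ ?_).2.1
          rw [h2]
          intro h
          exact cls_par i h19 hi0 (congrArg Fin.val h)
        · have : i = 0 := by omega
          subst this
          rw [tt_zero, h0]
          rfl
      · have h1 : cls i = 0 := cls_big i hi (by omega)
        unfold tt
        rw [if_neg h19, h0]
        apply Fin.ext
        simp [clsF, h1]
  have hne : ∀ i j, i < 32 → j < 32 → cls i = cls j → ¬ G.Adj (tt f v0 i) (tt f v0 j) := by
    intro i j hi hj hij hadj
    apply c.valid hadj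
    rw [hcls i hi, hcls j hj]
    exact Fin.ext hij
  have hw : ∀ i, 0 < i → i < 19 → G.Adj (tt f v0 (par i)) (tt f v0 i) ∧
      ∀ u x, c u = clsF i → G.Adj u (tt f v0 (par i)) → c x = c (tt f v0 (par i)) → G.Adj u x →
        G.Adj (tt f v0 i) x := by
    intro i hi0 hi
    have h1 := par_lt i hi hi0
    have h2 := hcls (par i) (by omega)
    rw [tt_succ f v0 hi hi0]
    have h3 : clsF i ≠ c (tt f v0 (par i)) := by
      rw [h2]
      intro h
      exact cls_par i hi hi0 (congrArg Fin.val h)
    obtain ⟨g1, g2, g3⟩ := hf (tt f v0 (par i)) (clsF i) h3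
    exact ⟨g1, g3⟩
  obtain ⟨ν, hν⟩ : ∃ ν : ℕ → Prop, ν = val G a (tt f v0) := ⟨_, rfl⟩
  have vE : ∀ {i j : ℕ}, i < 32 → j < 32 → (ν (E i j) ↔ G.Adj (tt f v0 i) (tt f v0 j)) := by
    intro i j hi hj
    rw [hν]
    exact val_E G a _ hi hj
  have vA : ∀ {i x : ℕ}, x < 4 → (ν (A i x) ↔ (a (tt f v0 i) : ℕ) = x) := by
    intro i x hx
    rw [hν]
    exact val_A G a _ hx
  have hopt : ∀ i j, i < 32 → j < 32 → (∀ l ∈ opt i j, ¬ Holds ν l) →
      ¬ G.Adj (tt f v0 i) (tt f v0 j) := by
    intro i j hi hj hl
    by_cases h : cls i = cls j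
    · exact hne i j hi hj h
    · have h1 := hl (E i j, true) (by simp [opt, h])
      intro hadj
      apply h1
      simp only [Holds, if_true]
      exact (vE hi hj).2 hadj
  have hclause : ∀ k p q r s u, p < 32 → q < 32 → r < 32 → s < 32 → u < 32 →
      ∃ l ∈ clauseOf k p q r s u, Holds ν l := by
    intro k p q r s u hp hq hr hs hu
    unfold clauseOf
    split
    · -- induced path
      by_contra hcon
      push Not at hcon
      have m1 : ¬ Holds ν (E p q, false) := hcon _ (by simp)
      have m2 : ¬ Holds ν (E q r, false) := hcon _ (by simp)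
      have m3 : ¬ Holds ν (E r s, false) := hcon _ (by simp)
      have m4 : ¬ Holds ν (E s u, false) := hcon _ (by simp)
      simp only [Holds, Bool.false_eq_true, if_false, not_not] at m1 m2 m3 m4
      rw [vE hp hq] at m1
      rw [vE hq hr] at m2
      rw [vE hr hs] at m3
      rw [vE hs hu] at m4
      refine no_path hP m1 m2 m3 m4 (hopt p r hp hr ?_) (hopt p s hp hs ?_) (hopt p u hp hu ?_)
        (hopt q s hq hs ?_) (hopt q u hq hu ?_) (hopt r u hr hu ?_)
      all_goals
        intro l hl
        apply hcon
        simp only [List.mem_cons, List.mem_append]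
        tauto
    · -- witness property
      split
      · rename_i h
        obtain ⟨h1, h2, h3, h4⟩ := h
        have hpp := par_lt p h2 h1
        by_contra hcon
        push Not at hcon
        have m1 : ¬ Holds ν (E q (par p), false) := hcon _ (by simp)
        have m2 : ¬ Holds ν (E q r, false) := hcon _ (by simp)
        have m3 : ¬ Holds ν (E p r, true) := hcon _ (by simp)
        simp only [Holds, Bool.false_eq_true, if_false, not_not, if_true] at m1 m2 m3
        rw [vE hq (by omega)] at m1
        rw [vE hq hr] at m2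
        rw [vE hp hr] at m3
        apply m3
        refine (hw p h1 h2).2 _ _ ?_ m1 ?_ m2
        · rw [hcls q hq]; exact Fin.ext h3
        · rw [hcls r hr, hcls (par p) (by omega)]; exact Fin.ext h4
      · exact taut_holds ν
    · -- the 3-colouring is proper
      split
      · rename_i h
        by_contra hcon
        push Not at hcon
        have m1 : ¬ Holds ν (E p q, false) := hcon _ (by simp)
        have m2 : ¬ Holds ν (A p r, false) := hcon _ (by simp)
        have m3 : ¬ Holds ν (A q r, false) := hcon _ (by simp)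
        simp only [Holds, Bool.false_eq_true, if_false, not_not] at m1 m2 m3
        rw [vE hp hq] at m1
        rw [vA (by omega)] at m2 m3
        exact a.valid m1 (Fin.ext (m2.trans m3.symm))
      · exact taut_holds ν
    · -- at most one colour
      split
      · rename_i h
        by_contra hcon
        push Not at hcon
        have m2 : ¬ Holds ν (A p q, false) := hcon _ (by simp)
        have m3 : ¬ Holds ν (A p r, false) := hcon _ (by simp)
        simp only [Holds, Bool.false_eq_true, if_false, not_not] at m2 m3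
        rw [vA (by omega)] at m2 m3
        exact h.2.2 (m2.symm.trans m3)
      · exact taut_holds ν
    · -- at least one colour
      by_contra hcon
      push Not at hcon
      have m1 : ¬ Holds ν (A p 0, true) := hcon _ (by simp)
      have m2 : ¬ Holds ν (A p 1, true) := hcon _ (by simp)
      have m3 : ¬ Holds ν (A p 2, true) := hcon _ (by simp)
      simp only [Holds, if_true] at m1 m2 m3
      rw [vA (by omega)] at m1 m2 m3
      have := (a (tt f v0 p)).isLt
      omega
    · -- witness edge
      split
      · rename_i h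
        have hpp := par_lt p h.2 h.1
        refine ⟨(E (par p) p, true), by simp, ?_⟩
        simp only [Holds, if_true]
        rw [vE (by omega) hp]
        exact (hw p h.1 h.2).1
      · exact taut_holds ν
    · -- the first two colours
      split
      · rename_i h
        refine ⟨(A p p, true), by simp, ?_⟩
        simp only [Holds, if_true]
        rw [vA (by omega)]
        have : p = 0 ∨ p = 1 := by omega
        rcases this with rfl | rfl
        · rw [tt_zero, ha0]; rfl
        · rw [ha1]; rfl
      · exact taut_holds ν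
    · exact taut_holds ν
  refine check_sound (ν := ν) ?_ tree 0 0 ?_ check_tree
  · intro k
    unfold clause
    apply hclause <;> exact Nat.mod_lt _ (by norm_num)
  · refine ⟨fun k hk => ?_, fun k hk => ?_⟩ <;> simp at hk

/-- The negation of the preceding statement: There is a finite nonempty graph that is 3-colourable, has no induced 5-vertex path, and has a proper 4-colouring in which every vertex has neighbours of all three colours other than its own. -/
theorem result :
    ¬ (∃ (V : Type) (_ : Fintype V) (_ : Nonempty V) (G : SimpleGraph V),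
      G.Colorable 3 ∧
      IsEmpty (SimpleGraph.pathGraph 5 ↪g G) ∧
      ∃ c : G.Coloring (Fin 4), ∀ v : V, ∀ i : Fin 4, i ≠ c v →
        ∃ w : V, G.Adj v w ∧ c w = i) := by
  rintro ⟨V, _, ⟨v⟩, G, ⟨a⟩, hP, c, hfr⟩
  choose f hf using fun v i => exists_witness hP c hfr v i
  -- a vertex in class 0
  obtain ⟨v0, h0⟩ : ∃ v0, c v0 = 0 := by
    by_cases h : c v = 0
    · exact ⟨v, h⟩
    · obtain ⟨w, _, hw⟩ := hfr v 0 (fun h' => h h'.symm)
      exact ⟨w, hw⟩
  -- its first witness
  have hadj : G.Adj v0 (tt f v0 1) := by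
    rw [tt_succ f v0 (by norm_num) (by norm_num)]
    have h1 : par 1 = 0 := by decide +kernel
    rw [h1, tt_zero]
    refine (hf v0 (clsF 1) ?_).1
    rw [h0]
    decide +kernel
  -- normalise the 3-colouring
  have hne : a v0 ≠ a (tt f v0 1) := a.valid hadj
  obtain ⟨σ, hσ0, hσ1⟩ : ∃ σ : Equiv.Perm (Fin 3), σ (a v0) = 0 ∧ σ (a (tt f v0 1)) = 1 := by
    generalize a v0 = x at hne
    generalize a (tt f v0 1) = y at hne
    revert x y
    decide
  let a' : G.Coloring (Fin 3) := SimpleGraph.Coloring.mk (fun v => σ (a v))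
    (fun {u v} huv h => a.valid huv (σ.injective h))
  exact core hP c a' f (fun v i hi => hf v i hi) v0 h0 hσ0 hσ1

end Pool.Agent.S08250
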