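import Pool.Statements.S08704
import Pool.Agent.H48.Final

set_option autoImplicit false
open Filter Topology
open Pool Pool.MP_4f79e9_co

namespace Pool.Agent.S08704

/-- The negation of the preceding statement: With s the stack-sorting map (s of L n R is s(L) s(R) n, n the maximum), let W(n) count permutations of length n sorted by three passes of s; then W(n)^(1/n) converges to a limit strictly between 9.702 and 9.704. -/
theorem result :
    ¬ (∀ s : List ℕ → List ℕ,
      s [] = [] →
      (∀ (L R : List ℕ) (m : ℕ), (L ++ m :: R).Nodup → (∀ x ∈ L, x < m) → (∀ x ∈ R, x < m) →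
          s (L ++ m :: R) = s L ++ s R ++ [m]) →
      ∃ c : ℝ, 9.702 < c ∧ c < 9.704 ∧
        Tendsto
          (fun n : ℕ =>
            (((Finset.univ : Finset (Equiv.Perm (Fin n))).filter
                (fun σ => s (s (s (List.ofFn (fun i : Fin n => ((σ i : Fin n) : ℕ))))) = List.range n)).card : ℝ)
              ^ ((1 : ℝ) / (n : ℝ)))
          atTop (𝓝 c)) := by
  intro h
  obtain ⟨c, hc1, _, hc3⟩ := h Pool.Agent.H48.ss Pool.Agent.H48.ss_nil
    (fun L R m _ hL hR => Pool.Agent.H48.ss_split L R m hL hR)
  have := Pool.Agent.H48.growth_le c hc3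
  linarith

end Pool.Agent.S08704
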