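import Pool.Statements.S08737
-- import your own Pool.Agent.* helpers here
import Pool.Agent.H73.MT.Final
import Pool.Agent.H75.MT.Tower
import Pool.Agent.H39.MT.OneStepM
import Pool.Agent.H39.MT.AlgA2
import Pool.Agent.H46.MT.CompY
import Pool.Agent.H62.MT.CompEx

set_option autoImplicit false
open MeasureTheory
open Pool Pool.MP_5140a6_co

namespace Pool.Agent.S08737

/-- If a convex polytope in R^d has a multiset of translates covering almost every point exactly k times (k at least 1), then some full-rank lattice's translates of it cover almost every point exactly m times, for some m at least 1. -/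
theorem result :
    ∀ d : ℕ, ∀ P : Set (EuclideanSpace ℝ (Fin d)),
      (∃ S : Finset (EuclideanSpace ℝ (Fin d)), P = convexHull ℝ (S : Set (EuclideanSpace ℝ (Fin d)))) →
      ∀ k : ℕ, 0 < k →
      ∀ t : ℕ → EuclideanSpace ℝ (Fin d),
        (∀ᵐ x : EuclideanSpace ℝ (Fin d) ∂(volume : Measure (EuclideanSpace ℝ (Fin d))),
          Nat.card {i : ℕ // x - t i ∈ P} = k) →
        ∃ m : ℕ, 0 < m ∧
          ∃ L : Submodule ℤ (EuclideanSpace ℝ (Fin d)),
            ∃ (_ : DiscreteTopology L),
              IsZLattice ℝ L ∧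
              ∀ᵐ x : EuclideanSpace ℝ (Fin d) ∂(volume : Measure (EuclideanSpace ℝ (Fin d))),
                Nat.card {v : L // x - (v : EuclideanSpace ℝ (Fin d)) ∈ P} = m := by
  intro d P hP k hk t h
  obtain ⟨S, rfl⟩ := hP
  refine Pool.Agent.MT.mt_final ?_ ?_ ?_ S k hk t h
  · intro n w a f B hB h q hq r _ c hc
    exact Pool.Agent.MT.dilation w a f B hB h q (by simpa using hq) r c hc
  · intro S N C0 hN hD FD hFD
    exact Pool.Agent.MT.str4 S N C0 hN hD FD hFD
  · intro S FD VV EE Y st
    obtain ⟨LL, hL⟩ := Pool.Agent.MT.comp_exists st (Pool.Agent.MT.one_step st)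
    have hE := hL.span EE st.top_mem
    rw [inf_eq_left.mpr hL.le] at hE
    refine ⟨LL, hL.isQForm st.top_mem, hE, fun V hV => hL.span V hV,
      fun V hV => hL.comp V hV, fun V hV => ?_⟩
    rw [hL.Y_le st hV]
    exact sup_le (le_trans inf_le_left le_sup_right) le_sup_left

end Pool.Agent.S08737
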