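import Pool.Statements.S08833
import Pool.Agent.H42.Cubes.Main

set_option autoImplicit false
open BigOperators
open Pool Pool.MP_56af99_co

namespace Pool.Agent.S08833

/-- There is an infinite sequence with letters in {0,1,2,3} with no three consecutive nonempty blocks of equal length whose letter sums are all equal. -/
theorem result :
    ∃ w : ℕ → ℕ, (∀ m, w m < 4) ∧
      ∀ i n : ℕ, 0 < n →
        ¬ ((∑ k ∈ Finset.range n, w (i + k) = ∑ k ∈ Finset.range n, w (i + n + k)) ∧
           (∑ k ∈ Finset.range n, w (i + n + k) = ∑ k ∈ Finset.range n, w (i + 2 * n + k))) := by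
  refine ⟨Pool.Agent.H42.Cubes.W, Pool.Agent.H42.Cubes.W_lt, ?_⟩
  rintro i n hn ⟨h1, h2⟩
  exact Pool.Agent.H42.Cubes.no_cube i n hn h1 h2

end Pool.Agent.S08833
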