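import Pool.Statements.S08853
import Pool.Agent.CG.Final

set_option autoImplicit false
open Pool Pool.MP_5748f3_co

namespace Pool.Agent.S08853

/-- ∃ C, N₀, ∀ N ≥ N₀, ∀ q ≥ 2log₂N − 2log₂log₂N + C, Breaker has a positional winning strategy (set P of positions closed under all Maker 2-edge moves with a Breaker 2-edge reply) in the Maker-first (2:2) game on K_N preventing Maker's edges from containing a K_q. -/
theorem result :
    ∃ C : ℝ, ∃ N₀ : ℕ, ∀ N : ℕ, N₀ ≤ N → ∀ q : ℕ,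
      2 * Real.logb 2 (N : ℝ) - 2 * Real.logb 2 (Real.logb 2 (N : ℝ)) + C ≤ (q : ℝ) →
      ∃ P : Set (Finset (Sym2 (Fin N)) × Finset (Sym2 (Fin N))),
        ((∅ : Finset (Sym2 (Fin N))), (∅ : Finset (Sym2 (Fin N)))) ∈ P ∧
        ∀ p ∈ P, ∀ A : Finset (Sym2 (Fin N)),
          A ⊆ (⊤ : SimpleGraph (Fin N)).edgeFinset \ (p.1 ∪ p.2) →
          A.card = min 2 ((⊤ : SimpleGraph (Fin N)).edgeFinset \ (p.1 ∪ p.2)).card →
          (¬ ∃ s : Finset (Fin N), s.card = q ∧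
              ∀ x ∈ s, ∀ y ∈ s, x ≠ y → s(x, y) ∈ p.1 ∪ A) ∧
          ∃ D : Finset (Sym2 (Fin N)),
            D ⊆ (⊤ : SimpleGraph (Fin N)).edgeFinset \ (p.1 ∪ p.2 ∪ A) ∧
            D.card = min 2 ((⊤ : SimpleGraph (Fin N)).edgeFinset \ (p.1 ∪ p.2 ∪ A)).card ∧
            (p.1 ∪ A, p.2 ∪ D) ∈ P :=
  Pool.Agent.CG.final

end Pool.Agent.S08853
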