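import Pool.Statements.S08913
import Pool.Agent.H95.UT.Final
import Pool.Agent.H95.UT.Glue

set_option autoImplicit false
open Pool Pool.MP_59bda2_co

namespace Pool.Agent.S08913

/-- The supremum of d in [0,1] such that for every η>0 and n there are arbitrarily large K4-free 3-uniform hypergraphs where all vertex sets X,Y,Z span at least d∣X∣∣Y∣∣Z∣ − η∣V∣^3 edge triples equals 1/2. -/
theorem result :
    sSup {d : ℝ | 0 ≤ d ∧ d ≤ 1 ∧
      ∀ η : ℝ, 0 < η → ∀ n : ℕ, ∃ N : ℕ, n ≤ N ∧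
        ∃ E : Finset (Finset (Fin N)),
          (∀ e ∈ E, e.card = 3) ∧
          (¬ ∃ S : Finset (Fin N), S.card = 4 ∧ ∀ T ∈ S.powersetCard 3, T ∈ E) ∧
          ∀ X Y Z : Finset (Fin N),
            d * (X.card : ℝ) * (Y.card : ℝ) * (Z.card : ℝ) - η * (N : ℝ) ^ 3 ≤
              (((X ×ˢ Y ×ˢ Z).filter
                (fun p => ({p.1, p.2.1, p.2.2} : Finset (Fin N)) ∈ E)).card : ℝ)}
      = 1 / 2 :=
  Pool.UT.sSup_eq_half Pool.UT.palette_half

end Pool.Agent.S08913
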