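import Pool.Statements.S08958
import Pool.Agent.H20.PSMulti
import Pool.Agent.H20.PSFvec

set_option autoImplicit false
open Pool Pool.MP_5b9ab2_co

namespace Pool.Agent.S08958

open Pool.Agent.H20.PS

/-- Simplices joined on: the `j`-th ear starts from the simplex on this vertex set. -/
def A (j : ℕ) : Finset (Fin 10) :=
  if j = 0 then ∅ else if j = 1 then {9} else {5, 9}

/-- Vertex sets of the boundary spheres of the `j`-th ear. -/
def P (j : ℕ) : Finset (Finset (Fin 10)) :=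
  if j = 0 then {{0, 1, 3, 4, 6, 7}, {2, 5, 8}}
  else if j = 1 then {{0, 2, 6, 8}, {1, 3, 4, 7}}
  else {{0, 1, 4, 6, 7, 8}}

/-- The ears. -/
def E (j : ℕ) : Finset (Finset (Fin 10)) :=
  (A j ∪ (P j).sup id).powerset.filter (fun F => ∀ B ∈ P j, ¬ B ⊆ F)

theorem mem_E0 (F : Finset (Fin 10)) : F ∈ E 0 ↔
    (9 ∉ F ∧ ¬ (0 ∈ F ∧ 1 ∈ F ∧ 3 ∈ F ∧ 4 ∈ F ∧ 6 ∈ F ∧ 7 ∈ F) ∧ ¬ (2 ∈ F ∧ 5 ∈ F ∧ 8 ∈ F)) := by
  have h1 : A 0 ∪ (P 0).sup id = Finset.univ.erase 9 := by decide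
  have h2 : P 0 = {{0, 1, 3, 4, 6, 7}, {2, 5, 8}} := rfl
  have h3 : F ⊆ Finset.univ.erase 9 ↔ 9 ∉ F := by
    constructor
    · intro h h9
      exact absurd (h h9) (by simp)
    · intro h x hx
      rw [Finset.mem_erase]
      exact ⟨fun he => h (he ▸ hx), Finset.mem_univ x⟩
  unfold E
  rw [h1, h2, Finset.mem_filter, Finset.mem_powerset, h3]
  simp only [Finset.mem_insert, Finset.mem_singleton, forall_eq_or_imp, forall_eq,
    Finset.insert_subset_iff, Finset.singleton_subset_iff]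

theorem mem_E1 (F : Finset (Fin 10)) : F ∈ E 1 ↔
    (5 ∉ F ∧ ¬ (0 ∈ F ∧ 2 ∈ F ∧ 6 ∈ F ∧ 8 ∈ F) ∧ ¬ (1 ∈ F ∧ 3 ∈ F ∧ 4 ∈ F ∧ 7 ∈ F)) := by
  have h1 : A 1 ∪ (P 1).sup id = Finset.univ.erase 5 := by decide
  have h2 : P 1 = {{0, 2, 6, 8}, {1, 3, 4, 7}} := rfl
  have h3 : F ⊆ Finset.univ.erase 5 ↔ 5 ∉ F := by
    constructor
    · intro h h9
      exact absurd (h h9) (by simp)
    · intro h x hx
      rw [Finset.mem_erase]
      exact ⟨fun he => h (he ▸ hx), Finset.mem_univ x⟩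
  unfold E
  rw [h1, h2, Finset.mem_filter, Finset.mem_powerset, h3]
  simp only [Finset.mem_insert, Finset.mem_singleton, forall_eq_or_imp, forall_eq,
    Finset.insert_subset_iff, Finset.singleton_subset_iff]

theorem mem_E2 (F : Finset (Fin 10)) : F ∈ E 2 ↔
    (2 ∉ F ∧ 3 ∉ F ∧ ¬ (0 ∈ F ∧ 1 ∈ F ∧ 4 ∈ F ∧ 6 ∈ F ∧ 7 ∈ F ∧ 8 ∈ F)) := by
  have h1 : A 2 ∪ (P 2).sup id = (Finset.univ.erase 2).erase 3 := by decide
  have h2 : P 2 = {{0, 1, 4, 6, 7, 8}} := rfl
  have h3 : F ⊆ (Finset.univ.erase 2).erase 3 ↔ 2 ∉ F ∧ 3 ∉ F := by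
    constructor
    · intro h
      exact ⟨fun h9 => absurd (h h9) (by simp), fun h9 => absurd (h h9) (by simp)⟩
    · rintro ⟨h, h'⟩ x hx
      rw [Finset.mem_erase, Finset.mem_erase]
      exact ⟨fun he => h' (he ▸ hx), fun he => h (he ▸ hx), Finset.mem_univ x⟩
  unfold E
  rw [h1, h2, Finset.mem_filter, Finset.mem_powerset, h3]
  simp only [Finset.mem_singleton, forall_eq,
    Finset.insert_subset_iff, Finset.singleton_subset_iff, and_assoc]

/-- The complex. -/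
def D : Finset (Finset (Fin 10)) := (Finset.range (2 + 1)).biUnion E

theorem mem_D (F : Finset (Fin 10)) : F ∈ D ↔ F ∈ E 0 ∨ F ∈ E 1 ∨ F ∈ E 2 := by
  unfold D
  rw [Finset.mem_biUnion]
  constructor
  · rintro ⟨j, hj, hF⟩
    rw [Finset.mem_range] at hj
    interval_cases j
    · exact Or.inl hF
    · exact Or.inr (Or.inl hF)
    · exact Or.inr (Or.inr hF)
  · rintro (h | h | h)
    · exact ⟨0, by simp, h⟩
    · exact ⟨1, by simp, h⟩
    · exact ⟨2, by simp, h⟩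

theorem mem_D_iff (F : Finset (Fin 10)) : F ∈ D ↔ Q (ind F) = true := by
  rw [mem_D, mem_E0, mem_E1, mem_E2]
  unfold Q ind
  simp only [Bool.or_eq_true, Bool.and_eq_true, Bool.not_eq_true', decide_eq_true_eq,
    ← Bool.not_eq_true]

theorem step1 : ((Finset.range 1).biUnion E) ∩ E 1 = (E 1).filter (fun F => ¬ A 1 ⊆ F) := by
  have hA : A 1 = {9} := rfl
  ext F
  rw [Finset.mem_inter, Finset.mem_filter, hA, Finset.singleton_subset_iff]
  have h0 : F ∈ (Finset.range 1).biUnion E ↔ F ∈ E 0 := by simp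
  rw [h0, mem_E0, mem_E1]
  constructor
  · rintro ⟨h9, h1⟩
    exact ⟨h1, h9.1⟩
  · rintro ⟨⟨h5, ha, hb⟩, h9⟩
    refine ⟨⟨h9, ?_, ?_⟩, h5, ha, hb⟩
    · rintro ⟨_, x1, x3, x4, _, x7⟩
      exact hb ⟨x1, x3, x4, x7⟩
    · rintro ⟨_, x5, _⟩
      exact h5 x5

theorem step2 : ((Finset.range 2).biUnion E) ∩ E 2 = (E 2).filter (fun F => ¬ A 2 ⊆ F) := by
  have hA : A 2 = {5, 9} := rfl
  ext F
  rw [Finset.mem_inter, Finset.mem_filter, hA, Finset.insert_subset_iff,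
    Finset.singleton_subset_iff]
  have h0 : F ∈ (Finset.range 2).biUnion E ↔ F ∈ E 0 ∨ F ∈ E 1 := by
    rw [Finset.mem_biUnion]
    constructor
    · rintro ⟨j, hj, hF⟩
      rw [Finset.mem_range] at hj
      interval_cases j
      · exact Or.inl hF
      · exact Or.inr hF
    · rintro (h | h)
      · exact ⟨0, by simp, h⟩
      · exact ⟨1, by simp, h⟩
  rw [h0, mem_E0, mem_E1, mem_E2]
  constructor
  · rintro ⟨h1, h2⟩
    refine ⟨h2, ?_⟩
    rintro ⟨x5, x9⟩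
    rcases h1 with h1 | h1
    · exact h1.1 x9
    · exact h1.1 x5
  · rintro ⟨⟨h2, h3, ha⟩, h59⟩
    refine ⟨?_, h2, h3, ha⟩
    by_cases h9 : 9 ∈ F
    · right
      refine ⟨fun h5 => h59 ⟨h5, h9⟩, ?_, ?_⟩
      · rintro ⟨_, x2, _⟩
        exact h2 x2
      · rintro ⟨_, x3, _⟩
        exact h3 x3
    · left
      refine ⟨h9, ?_, ?_⟩
      · rintro ⟨_, _, x3, _⟩
        exact h3 x3
      · rintro ⟨x2, _⟩
        exact h2 x2

/-- The negation of the preceding statement: For every complex with a PS ear decomposition (a PS-sphere with PS-balls of the same dimension attached along their boundaries), its h-vector is the degree-count vector of a finite pure multicomplex of monomials. -/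
theorem result :
    ¬ (∀ (n d : ℕ) (Δ : Finset (Finset (Fin n))),
    (∃ (m : ℕ) (A : ℕ → Finset (Fin n)) (P : ℕ → Finset (Finset (Fin n)))
        (E : ℕ → Finset (Finset (Fin n))),
      (∀ j, E j = (A j ∪ (P j).sup id).powerset.filter (fun F => ∀ B ∈ P j, ¬ B ⊆ F)) ∧
      A 0 = ∅ ∧
      (∀ j ≤ m, (∀ B ∈ P j, 2 ≤ B.card ∧ Disjoint (A j) B) ∧
        (∀ B ∈ P j, ∀ C ∈ P j, B ≠ C → Disjoint B C) ∧
        (A j).card + ∑ B ∈ P j, (B.card - 1) = d) ∧
      (∀ j, 1 ≤ j → j ≤ m → (A j).Nonempty ∧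
        ((Finset.range j).biUnion E) ∩ E j = (E j).filter (fun F => ¬ A j ⊆ F)) ∧
      Δ = (Finset.range (m + 1)).biUnion E) →
    ∃ (r : ℕ) (M : Finset (Fin r → ℕ)),
      (∀ μ ∈ M, ∀ ν : Fin r → ℕ, ν ≤ μ → ν ∈ M) ∧
      (∀ μ ∈ M, ∀ ν ∈ M, (∀ κ ∈ M, μ ≤ κ → κ = μ) → (∀ κ ∈ M, ν ≤ κ → κ = ν) →
        ∑ i, μ i = ∑ i, ν i) ∧
      ∀ k : ℕ, (((M.filter (fun μ => ∑ i, μ i = k)).card : ℤ) =
        if k ≤ d then
          ∑ i ∈ Finset.range (k + 1), (-1 : ℤ) ^ (k - i) * (((d - i).choose (k - i) : ℕ) : ℤ) *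
            ((Δ.filter (fun F => F.card = i)).card : ℤ)
        else 0)) := by
  intro h
  have hs : ∀ j ≤ 2, (∀ B ∈ P j, 2 ≤ B.card ∧ Disjoint (A j) B) ∧
        (∀ B ∈ P j, ∀ C ∈ P j, B ≠ C → Disjoint B C) ∧
        (A j).card + ∑ B ∈ P j, (B.card - 1) = 7 := by
    intro j hj
    interval_cases j
    · decide +kernel
    · decide +kernel
    · decide +kernel
  have hg : ∀ j, 1 ≤ j → j ≤ 2 → (A j).Nonempty ∧
        ((Finset.range j).biUnion E) ∩ E j = (E j).filter (fun F => ¬ A j ⊆ F) := by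
    intro j hj1 hj2
    interval_cases j
    · exact ⟨⟨9, by decide⟩, step1⟩
    · exact ⟨⟨9, by decide⟩, step2⟩
  obtain ⟨r, M, hdown, hpure, hcount⟩ := h 10 7 D ⟨2, A, P, E, fun j => rfl, rfl, hs, hg, rfl⟩
  · have f0 : (D.filter (fun F => F.card = 0)).card = 1 := by
      rw [card_eq_cnt D mem_D_iff 0, c0]
    have f1 : (D.filter (fun F => F.card = 1)).card = 10 := by
      rw [card_eq_cnt D mem_D_iff 1, c1]
    have f2 : (D.filter (fun F => F.card = 2)).card = 45 := by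
      rw [card_eq_cnt D mem_D_iff 2, c2]
    have f3 : (D.filter (fun F => F.card = 3)).card = 117 := by
      rw [card_eq_cnt D mem_D_iff 3, c3]
    have f4 : (D.filter (fun F => F.card = 4)).card = 191 := by
      rw [card_eq_cnt D mem_D_iff 4, c4]
    have f5 : (D.filter (fun F => F.card = 5)).card = 199 := by
      rw [card_eq_cnt D mem_D_iff 5, c5]
    have f6 : (D.filter (fun F => F.card = 6)).card = 126 := by
      rw [card_eq_cnt D mem_D_iff 6, c6]
    have f7 : (D.filter (fun F => F.card = 7)).card = 40 := by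
      rw [card_eq_cnt D mem_D_iff 7, c7]
    have g1 := hcount 1
    have g2 := hcount 2
    have g3 := hcount 3
    have g4 := hcount 4
    have g5 := hcount 5
    have g6 := hcount 6
    have g7 := hcount 7
    simp only [Finset.sum_range_succ, Finset.sum_range_zero, f0, f1, f2, f3, f4, f5, f6, f7]
      at g1 g2 g3 g4 g5 g6 g7
    norm_num [Nat.choose] at g1 g2 g3 g4 g5 g6 g7
    refine no_pure r M hdown hpure ?_ ?_ ?_ ?_ ?_ ?_ ?_ ?_
    · exact_mod_cast g1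
    · exact_mod_cast g2
    · exact_mod_cast g3
    · exact_mod_cast g4
    · exact_mod_cast g5
    · exact_mod_cast g6
    · exact_mod_cast g7
    · intro k hk
      have := hcount k
      rw [if_neg (by omega)] at this
      exact_mod_cast this

end Pool.Agent.S08958
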