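import Pool.Statements.S09380
import Pool.Agent.H47.TVD.Final
import Pool.Agent.H47.TVX.Steps

set_option autoImplicit false
open Pool Pool.MP_6e2a57_co

namespace Pool.Agent.S09380

/-- The negation of the preceding statement: For k < d, positive r_0..r_k and finite sets S_i in R^d with ∣S_i∣ = (r_i-1)(d-k+1)+1, each S_i splits into r_i nonempty parts and some k-dimensional affine subspace meets the convex hull of every part. -/
theorem result :
    ¬ (∀ (d k : ℕ), k + 1 ≤ d → ∀ (r : Fin (k + 1) → ℕ), (∀ i, 1 ≤ r i) →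
    ∀ (S : Fin (k + 1) → Finset (EuclideanSpace ℝ (Fin d))),
      (∀ i, (S i).card = (r i - 1) * (d - k + 1) + 1) →
      ∃ c : Fin (k + 1) → EuclideanSpace ℝ (Fin d) → ℕ,
        (∀ i, ∀ x ∈ S i, c i x < r i) ∧
        (∀ i, ∀ j < r i, ∃ x ∈ S i, c i x = j) ∧
        ∃ D : AffineSubspace ℝ (EuclideanSpace ℝ (Fin d)),
          Module.finrank ℝ D.direction = k ∧
          ∀ i, ∀ j < r i,
            ((D : Set (EuclideanSpace ℝ (Fin d))) ∩
              convexHull ℝ {x | x ∈ S i ∧ c i x = j}).Nonempty) := by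
  exact TVD.final_of_C TVC.statementC

end Pool.Agent.S09380
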