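import Pool.Statements.S09545
import Pool.Agent.H55.SG.Fer
import Pool.Agent.H55.SG.Tab
import Pool.Agent.H55.SG.Grp

set_option autoImplicit false
open Matrix
open Pool Pool.MP_75cc19_co

namespace Pool.Agent.S09545

open SG22

/-- the coefficient vectors of the 22 lines -/
noncomputable def vec (i : Fin 22) : Fin 3 → ℂ := ![ph (pt i).1, ph (pt i).2.1, ph (pt i).2.2]

theorem vec0 (i : Fin 22) : vec i 0 = ph (pt i).1 := rfl
theorem vec1 (i : Fin 22) : vec i 1 = ph (pt i).2.1 := rfl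
theorem vec2 (i : Fin 22) : vec i 2 = ph (pt i).2.2 := rfl

theorem minors {i j : Fin 22} (h : i ≠ j) :
    vec i 0 * vec j 1 - vec i 1 * vec j 0 ≠ 0 ∨ vec i 0 * vec j 2 - vec i 2 * vec j 0 ≠ 0 ∨
      vec i 1 * vec j 2 - vec i 2 * vec j 1 ≠ 0 := by
  have h1 := okPair_all i j
  simp only [okPair, Bool.or_eq_true, beq_iff_eq] at h1
  rcases h1 with h1 | (h1 | h1) | h1
  · exact absurd h1 h
  · left
    have := ph_ne h1
    rwa [m01, ph_sub, ph_mul, ph_mul] at this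
  · right; left
    have := ph_ne h1
    rwa [m02, ph_sub, ph_mul, ph_mul] at this
  · right; right
    have := ph_ne h1
    rwa [m12, ph_sub, ph_mul, ph_mul] at this

theorem vec_ne (i : Fin 22) : ∃ t, vec i t ≠ 0 := by
  have hj : ∃ j : Fin 22, i ≠ j := ⟨if i = 0 then 1 else 0, by split_ifs with h <;> simp [h]⟩
  obtain ⟨j, hj⟩ := hj
  by_contra hcon
  push Not at hcon
  rcases minors hj with h | h | h <;> exact h (by simp [hcon])

theorem exists_third {i j : Fin 22} (h : i ≠ j) : ∃ k : Fin 22, k ≠ i ∧ k ≠ j ∧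
    vec k 0 * (vec i 1 * vec j 2 - vec i 2 * vec j 1) - vec k 1 * (vec i 0 * vec j 2 - vec i 2 * vec j 0) +
      vec k 2 * (vec i 0 * vec j 1 - vec i 1 * vec j 0) = 0 := by
  have h1 := okThird_all i j
  simp only [okThird, Bool.or_eq_true, beq_iff_eq] at h1
  rcases h1 with h1 | h1
  · exact absurd h1 h
  · split_ifs at h1 with h2
    simp only [Bool.and_eq_true, bne_iff_ne] at h1
    obtain ⟨⟨h3, h4⟩, h5⟩ := h1
    refine ⟨⟨third i j, h2⟩, h3, h4, ?_⟩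
    have := ph_zero h5
    simp only [det3, m01, m02, m12, ph_add, ph_sub, ph_mul] at this
    exact this

/-- the lines are distinct -/
theorem lin_inj : Function.Injective (fun i : Fin 22 => lin (vec i)) := by
  intro i j hij
  by_contra h
  simp only at hij
  have key : ∀ x : Fin 3 → ℂ, vec i 0 * x 0 + vec i 1 * x 1 + vec i 2 * x 2 = 0 →
      vec j 0 * x 0 + vec j 1 * x 1 + vec j 2 * x 2 = 0 := by
    intro x hx
    rw [← mem_lin] at hx ⊢
    rw [← hij]; exact hx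
  rcases minors h with h1 | h1 | h1
  · apply h1
    have := key ![vec i 1, -vec i 0, 0] (by simp; ring)
    simp at this
    linear_combination -this
  · apply h1
    have := key ![vec i 2, 0, -vec i 0] (by simp; ring)
    simp at this
    linear_combination -this
  · apply h1
    have := key ![0, vec i 2, -vec i 1] (by simp; ring)
    simp at this
    linear_combination -this

/-- the third line -/
theorem third_line {i j : Fin 22} (h : i ≠ j) : ∃ k : Fin 22, k ≠ i ∧ k ≠ j ∧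
    ∀ x, x ∈ lin (vec i) → x ∈ lin (vec j) → x ∈ lin (vec k) := by
  obtain ⟨k, hki, hkj, hk⟩ := exists_third h
  refine ⟨k, hki, hkj, fun x hx hy => ?_⟩
  rw [mem_lin] at *
  rcases minors h with h1 | h1 | h1
  · apply (mul_eq_zero.1 (_ : (vec i 0 * vec j 1 - vec i 1 * vec j 0) * _ = 0)).resolve_left h1
    linear_combination (vec k 0 * vec j 1 - vec k 1 * vec j 0) * hx + (vec i 0 * vec k 1 - vec i 1 * vec k 0) * hy + x 2 * hk
  · apply (mul_eq_zero.1 (_ : (vec i 0 * vec j 2 - vec i 2 * vec j 0) * _ = 0)).resolve_left h1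
    linear_combination (vec k 0 * vec j 2 - vec k 2 * vec j 0) * hx + (vec i 0 * vec k 2 - vec i 2 * vec k 0) * hy - x 1 * hk
  · apply (mul_eq_zero.1 (_ : (vec i 1 * vec j 2 - vec i 2 * vec j 1) * _ = 0)).resolve_left h1
    linear_combination (vec k 1 * vec j 2 - vec k 2 * vec j 1) * hx + (vec i 1 * vec k 2 - vec i 2 * vec k 1) * hy + x 0 * hk

theorem card22 : (Set.range (fun i : Fin 22 => lin (vec i))).ncard = 22 := by
  rw [← Nat.card_coe_set_eq, Nat.card_range_of_injective lin_inj]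
  simp


/-- There is a finite set of at least 3 lines in the complex projective plane, every pairwise intersection point lying on a third line, that is not a pencil, not projectively a Fermat arrangement, and not the involution-axis set of a PSL(2,7) or A6 subgroup of PGL3. -/
theorem result :
  ∃ A : Set (Submodule ℂ (Fin 3 → ℂ)),
    A.Finite ∧ 3 ≤ A.ncard ∧
    (∀ ℓ ∈ A, Module.finrank ℂ ℓ = 2) ∧
    (∀ ℓ₁ ∈ A, ∀ ℓ₂ ∈ A, ℓ₁ ≠ ℓ₂ → ∀ p : Submodule ℂ (Fin 3 → ℂ),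
        Module.finrank ℂ p = 1 → p ≤ ℓ₁ → p ≤ ℓ₂ →
          ∃ ℓ₃ ∈ A, ℓ₃ ≠ ℓ₁ ∧ ℓ₃ ≠ ℓ₂ ∧ p ≤ ℓ₃) ∧
    ¬ (∃ p : Submodule ℂ (Fin 3 → ℂ), Module.finrank ℂ p = 1 ∧ ∀ ℓ ∈ A, p ≤ ℓ) ∧
    (∀ r : ℕ, 1 ≤ r → ∀ g : (Fin 3 → ℂ) ≃ₗ[ℂ] (Fin 3 → ℂ),
      A ≠ Submodule.map g.toLinearMap ''
        {ℓ : Submodule ℂ (Fin 3 → ℂ) | Module.finrank ℂ ℓ = 2 ∧
          ∃ ζ : ℂ, ζ ^ r = 1 ∧
            ((∀ x ∈ ℓ, x 0 = ζ * x 1) ∨ (∀ x ∈ ℓ, x 0 = ζ * x 2) ∨
              (∀ x ∈ ℓ, x 1 = ζ * x 2))}) ∧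
    (∀ K : Subgroup (GL (Fin 3) ℂ ⧸ Subgroup.center (GL (Fin 3) ℂ)),
      Nonempty (K ≃* GL (Fin 3) (ZMod 2)) →
      A ≠ {ℓ : Submodule ℂ (Fin 3 → ℂ) | Module.finrank ℂ ℓ = 2 ∧
        ∃ g : GL (Fin 3) ℂ,
          (QuotientGroup.mk g : GL (Fin 3) ℂ ⧸ Subgroup.center (GL (Fin 3) ℂ)) ∈ K ∧
          g ^ 2 ∈ Subgroup.center (GL (Fin 3) ℂ) ∧
          g ∉ Subgroup.center (GL (Fin 3) ℂ) ∧
          ∃ c : ℂ, ∀ x ∈ ℓ, (g : Matrix (Fin 3) (Fin 3) ℂ) *ᵥ x = c • x}) ∧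
    (∀ K : Subgroup (GL (Fin 3) ℂ ⧸ Subgroup.center (GL (Fin 3) ℂ)),
      Nonempty (K ≃* alternatingGroup (Fin 6)) →
      A ≠ {ℓ : Submodule ℂ (Fin 3 → ℂ) | Module.finrank ℂ ℓ = 2 ∧
        ∃ g : GL (Fin 3) ℂ,
          (QuotientGroup.mk g : GL (Fin 3) ℂ ⧸ Subgroup.center (GL (Fin 3) ℂ)) ∈ K ∧
          g ^ 2 ∈ Subgroup.center (GL (Fin 3) ℂ) ∧
          g ∉ Subgroup.center (GL (Fin 3) ℂ) ∧
          ∃ c : ℂ, ∀ x ∈ ℓ, (g : Matrix (Fin 3) (Fin 3) ℂ) *ᵥ x = c • x}) := by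
  refine ⟨Set.range (fun i : Fin 22 => lin (vec i)), Set.finite_range _, ?_, ?_, ?_, ?_, ?_, ?_, ?_⟩
  · rw [card22]; norm_num
  · rintro _ ⟨i, rfl⟩
    exact finrank_lin (vec_ne i)
  · rintro _ ⟨i, rfl⟩ _ ⟨j, rfl⟩ hij p _ hp1 hp2
    have h : i ≠ j := fun e => hij (by rw [e])
    obtain ⟨k, hki, hkj, hk⟩ := third_line h
    refine ⟨lin (vec k), ⟨k, rfl⟩, fun e => hki (lin_inj e), fun e => hkj (lin_inj e), fun x hx => hk x (hp1 hx) (hp2 hx)⟩
  · rintro ⟨p, hp, hall⟩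
    have hpos : p ≠ ⊥ := by
      rintro rfl
      simp at hp
    obtain ⟨x, hx, hx0⟩ := (Submodule.ne_bot_iff p).1 hpos
    apply hx0
    have h0 := mem_lin.1 (hall _ ⟨0, rfl⟩ hx)
    have h1 := mem_lin.1 (hall _ ⟨1, rfl⟩ hx)
    have h6 := mem_lin.1 (hall _ ⟨6, rfl⟩ hx)
    simp [vec0, vec1, vec2, pt, pts, ph] at h0 h1 h6
    rw [h0, h1] at h6
    simp at h6
    ext t
    fin_cases t
    · simpa using h6
    · simpa using h0
    · simpa using h1
  · intro r hr g h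
    have h3 := fset_dvd hr g
    have h4 : (Submodule.map g.toLinearMap '' Fset r).ncard = 22 := by
      rw [← card22, h]; rfl
    rw [h4] at h3
    omega
  · rintro K ⟨e⟩ h
    haveI : Finite K := Finite.of_equiv _ e.symm.toEquiv
    have h2 : (axes K) = Set.range (fun i : Fin 22 => lin (vec i)) := h.symm
    have h1 := axes_odd K (by rw [h2]; exact ⟨_, ⟨0, rfl⟩⟩)
    rw [h2, card22] at h1
    exact absurd h1 (by decide)
  · rintro K ⟨e⟩ h
    haveI : Finite K := Finite.of_equiv _ e.symm.toEquiv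
    have h2 : (axes K) = Set.range (fun i : Fin 22 => lin (vec i)) := h.symm
    have h1 := axes_odd K (by rw [h2]; exact ⟨_, ⟨0, rfl⟩⟩)
    rw [h2, card22] at h1
    exact absurd h1 (by decide)

end Pool.Agent.S09545
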