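import Pool.Statements.S09581
import Pool.Agent.H5.Tri.GlueFin

set_option autoImplicit false
open MeasureTheory
open Pool Pool.MP_76e945_co

namespace Pool.Agent.S09581

/-- Every measurable plane set whose area in the disc of radius r is at least c·r² for arbitrarily large r (some c>0) contains the vertices of an equilateral triangle of side d for every sufficiently large d. -/
theorem result :
    ∀ E : Set (EuclideanSpace ℝ (Fin 2)), MeasurableSet E →
      (∃ c : ℝ, 0 < c ∧ ∀ R : ℝ, ∃ r : ℝ, R ≤ r ∧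
        ENNReal.ofReal (c * r ^ 2) ≤ volume (E ∩ Metric.closedBall (0 : EuclideanSpace ℝ (Fin 2)) r)) →
      ∃ d₀ : ℝ, 0 < d₀ ∧ ∀ d : ℝ, d₀ ≤ d →
        ∃ x ∈ E, ∃ y ∈ E, ∃ z ∈ E,
          dist x y = d ∧ dist y z = d ∧ dist x z = d :=
  Pool.Agent.H24.Tri.Fin_Q1 Pool.Agent.H24.Tri.Fin_hyps

end Pool.Agent.S09581
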