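import Pool.Statements.S10031
import Pool.Agent.H61.Rz.Fin
import Pool.Agent.H81.Lv.Zh

set_option autoImplicit false
open Pool Pool.MP_8c99c3_co

namespace Pool.Agent.S10031

/-- Every origin-symmetric planar convex body has best lattice packing density at least (8−√32−ln 2)/(√8−1), and some such body has density exactly this value. -/
theorem result :
    (∀ K : Set (ℝ × ℝ), Convex ℝ K → IsCompact K → (interior K).Nonempty →
        (∀ x ∈ K, -x ∈ K) →
        (8 - Real.sqrt 32 - Real.log 2) / (Real.sqrt 8 - 1) ≤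
          sSup {d : ℝ | ∃ v w : ℝ × ℝ, v.1 * w.2 - v.2 * w.1 ≠ 0 ∧
            (∀ m n : ℤ, ¬ (m = 0 ∧ n = 0) →
              ∀ x ∈ interior K, x + ((m : ℝ) • v + (n : ℝ) • w) ∉ interior K) ∧
            d = (MeasureTheory.volume K).toReal / |v.1 * w.2 - v.2 * w.1|}) ∧
    (∃ K : Set (ℝ × ℝ), Convex ℝ K ∧ IsCompact K ∧ (interior K).Nonempty ∧
        (∀ x ∈ K, -x ∈ K) ∧
        sSup {d : ℝ | ∃ v w : ℝ × ℝ, v.1 * w.2 - v.2 * w.1 ≠ 0 ∧
            (∀ m n : ℤ, ¬ (m = 0 ∧ n = 0) →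
              ∀ x ∈ interior K, x + ((m : ℝ) • v + (n : ℝ) • w) ∉ interior K) ∧
            d = (MeasureTheory.volume K).toReal / |v.1 * w.2 - v.2 * w.1|} =
          (8 - Real.sqrt 32 - Real.log 2) / (Real.sqrt 8 - 1)) := by
  exact Pool.H61.Sm.main (Pool.H61.Rh.rs_of_zones Pool.H61.Rh.hqA
    (Pool.H61.Rh.zhA Pool.H61.Rh.ytOk) (Pool.H61.Rh.zhB Pool.H61.Rh.ytOk))

end Pool.Agent.S10031
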