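import Pool.Statements.S10051
import Pool.Agent.H46.BrouwerFinal
import Pool.Agent.H46.BrouwerC4
import Pool.Agent.H50.Split.Interface
import Pool.Agent.H87.Br.Cert

set_option autoImplicit false
open Pool Pool.MP_8cfe6a_co

namespace Pool.Agent.S10051

open Finset Matrix Pool.Agent.H46.Brouwer

/-- The split case in the form used by the reduction. -/
theorem split_case (V : Type) [Fintype V] [DecidableEq V] (P : Matrix V V ℝ)
    (hs : P.transpose = P) (hi : P * P = P) (k : ℕ) (hk : ∑ u, P u u = (k : ℝ))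
    (G : SimpleGraph V) [DecidableRel G.Adj] (K : Finset V)
    (hK : ∀ u ∈ K, ∀ v ∈ K, u ≠ v → G.Adj u v) (hI : ∀ u, u ∉ K → ∀ v, v ∉ K → ¬ G.Adj u v) :
    Bound P G := by
  have h := Pool.Agent.H50.Split.split_le hs hi G k hk K hK hI
  unfold Bound
  rw [hk]
  exact h

/-- The inequality for all projections of integral trace. -/
theorem proj_case (V : Type) [Fintype V] [DecidableEq V] (P : Matrix V V ℝ)
    (hs : P.transpose = P) (hi : P * P = P) (k : ℕ) (hk : ∑ u, P u u = (k : ℝ))
    (G : SimpleGraph V) [DecidableRel G.Adj] : Bound P G :=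
  bound_all
    (fun V _ _ P hs hi k hk G _ K hK hI => split_case V P hs hi k hk G K hK hI)
    (fun V _ _ P hs hi G _ hE hN a b c d h1 h2 h3 h4 h5 h6 h7 h8 h9 h10 =>
      Pool.Agent.H87.Br.h2K V P hs hi G hE hN a b c d h1 h2 h3 h4 h5 h6 h7 h8 h9 h10)
    (fun V _ _ P hs hi G _ hE hN a b c d h1 h2 h3 h4 h5 h6 h7 h8 =>
      bound_C4 V P hs hi G hE hN a b c d h1 h2 h3 h4 h5 h6 h7 h8)
    (fun V _ _ P hs hi G _ hE hN a b c d e h1 h2 h3 h4 h5 h6 h7 h8 h9 h10 h11 h12 h13 h14 h15 =>
      Pool.Agent.H87.Br.hC5 V P hs hi G hE hN a b c d e h1 h2 h3 h4 h5 h6 h7 h8 h9 h10 h11 h12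
        h13 h14 h15)
    hs hi hk G

/-- For every finite simple graph with m edges, the sum of any k eigenvalues (with multiplicity) of its signless Laplacian D+A, in particular the k largest, is at most m + k(k+1)/2. -/
theorem result :
    ∀ (V : Type) [Fintype V] [DecidableEq V] (G : SimpleGraph V) [DecidableRel G.Adj]
      (hQ : (G.degMatrix ℝ + G.adjMatrix ℝ).IsHermitian) (s : Finset V),
      ∑ i ∈ s, hQ.eigenvalues i
        ≤ (G.edgeFinset.card : ℝ) + (s.card : ℝ) * ((s.card : ℝ) + 1) / 2 := by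
  intro V _ _ G _ hQ s
  exact eigen_of_bound (fun P hs hi k hk G _ => proj_case V P hs hi k hk G) G hQ s

end Pool.Agent.S10051
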