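import Pool.Statements.S10251
-- import your own Pool.Agent.* helpers here
import Pool.Agent.H40.ER.Final

set_option autoImplicit false
open Pool Pool.MP_95ea8f_co

namespace Pool.Agent.S10251

/-- There is c>0 such that for every t≥2 some constant C works: every n has a K_4-free graph on n vertices in which every vertex set inducing a K_{2,t}-free subgraph has size at most C·n^(1/2−c). -/
theorem result :
    ∃ c : ℝ, 0 < c ∧ ∀ t : ℕ, 2 ≤ t → ∃ C : ℝ, 0 < C ∧ ∀ n : ℕ,
      ∃ G : SimpleGraph (Fin n), G.CliqueFree 4 ∧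
        ∀ S : Finset (Fin n),
          (completeBipartiteGraph (Fin 2) (Fin t)).Free (G.induce (S : Set (Fin n))) →
            (S.card : ℝ) ≤ C * (n : ℝ) ^ ((1 : ℝ) / 2 - c) := by
  exact ⟨1 / 500, by norm_num, fun t ht => Pool.Agent.H40.ER.main t ht⟩

end Pool.Agent.S10251
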