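-- Proof of frozen statement S10590: the DP color function is not always eventually a polynomial.
import Pool.Statements.S10590
import Pool.Agent.H46.DPColor

set_option autoImplicit false
open Pool Pool.MP_a59ce0_co

namespace Pool.Agent.S10590

/-- The negation of the preceding statement: For every finite graph G, the DP color function (minimum over all m-fold correspondence covers of the number of independent transversals) agrees with some real polynomial in m for all sufficiently large m. -/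
theorem result :
    ¬ (∀ (n : ℕ) (G : SimpleGraph (Fin n)), ∃ N : ℕ, ∃ p : Polynomial ℝ, ∀ m : ℕ, N ≤ m →
      (((sInf {k : ℕ | ∃ M : Fin n → Fin n → Fin m → Fin m → Prop,
          (∀ u v i j, M u v i j → G.Adj u v) ∧
          (∀ u v i j, M u v i j → M v u j i) ∧
          (∀ u v i j j', M u v i j → M u v i j' → j = j') ∧
          (∀ u v i i' j, M u v i j → M u v i' j → i = i') ∧
          k = Set.ncard {f : Fin n → Fin m | ∀ u v, ¬ M u v (f u) (f v)}} : ℕ) : ℝ)
        = p.eval (m : ℝ))) := by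
  intro H
  obtain ⟨N, p, hp⟩ := H 7 Pool.Agent.H46.DPColor.G7
  -- the set of values for a given `m`
  let T : ℕ → Set ℕ := fun m => {k : ℕ | ∃ M : Fin 7 → Fin 7 → Fin m → Fin m → Prop,
          (∀ u v i j, M u v i j → Pool.Agent.H46.DPColor.G7.Adj u v) ∧
          (∀ u v i j, M u v i j → M v u j i) ∧
          (∀ u v i j j', M u v i j → M u v i j' → j = j') ∧
          (∀ u v i i' j, M u v i j → M u v i' j → i = i') ∧
          k = Set.ncard {f : Fin 7 → Fin m | ∀ u v, ¬ M u v (f u) (f v)}}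
  have hp' : ∀ m : ℕ, N ≤ m → ((sInf (T m) : ℕ) : ℝ) = p.eval (m : ℝ) := hp
  have hne : ∀ m : ℕ, (T m).Nonempty := by
    intro m
    exact ⟨_, fun _ _ _ _ => False, fun _ _ _ _ h => h.elim, fun _ _ _ _ h => h.elim,
      fun _ _ _ _ _ h _ => h.elim, fun _ _ _ _ _ h _ => h.elim, rfl⟩
  have hlow : ∀ m : ℕ, 5 ≤ m → ∀ k ∈ T m, Pool.Agent.H46.DPColor.q m ≤ (k : ℤ) ∧
      ((k : ℤ) ≤ Pool.Agent.H46.DPColor.q m → Even m) := by
    rintro m hm k ⟨M, h1, h2, h3, h4, rfl⟩
    exact Pool.Agent.H46.DPColor.cover_lower hm M h1 h2 h3 h4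
  have heven : ∀ m : ℕ, 5 ≤ m → Even m → ((sInf (T m) : ℕ) : ℤ) = Pool.Agent.H46.DPColor.q m := by
    intro m hm he
    apply le_antisymm
    · obtain ⟨M, h1, h2, h3, h4, h5⟩ := Pool.Agent.H46.DPColor.cover_even he (by omega)
      refine le_trans ?_ h5
      have hmem : Set.ncard {f : Fin 7 → Fin m | ∀ u v, ¬ M u v (f u) (f v)} ∈ T m :=
        ⟨M, h1, h2, h3, h4, rfl⟩
      exact_mod_cast Nat.sInf_le hmem
    · exact (hlow m hm _ (Nat.sInf_mem (hne m))).1
  have hodd : ∀ m : ℕ, 5 ≤ m → ¬ Even m →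
      Pool.Agent.H46.DPColor.q m < ((sInf (T m) : ℕ) : ℤ) := by
    intro m hm he
    have h := hlow m hm _ (Nat.sInf_mem (hne m))
    by_contra hcon
    exact he (h.2 (not_lt.mp hcon))
  -- the polynomial
  let Q : Polynomial ℝ :=
    (Polynomial.X ^ 2 - 3 * Polynomial.X + 3) *
      (Polynomial.X * (Polynomial.X - 1) * ((Polynomial.X - 2) ^ 3 + (Polynomial.X - 4))
        + 2 * Polynomial.X)
    - Polynomial.X * ((Polynomial.X - 2) ^ 3 + (Polynomial.X - 4)) - 2 * Polynomial.X
  have hQ : ∀ m : ℕ, Q.eval (m : ℝ) = ((Pool.Agent.H46.DPColor.q m : ℤ) : ℝ) := by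
    intro m
    simp only [Q, Pool.Agent.H46.DPColor.q]
    have e2 : Polynomial.eval (m : ℝ) (2 : Polynomial ℝ) = 2 := Polynomial.eval_ofNat 2 _
    have e3 : Polynomial.eval (m : ℝ) (3 : Polynomial ℝ) = 3 := Polynomial.eval_ofNat 3 _
    have e4 : Polynomial.eval (m : ℝ) (4 : Polynomial ℝ) = 4 := Polynomial.eval_ofNat 4 _
    simp only [Polynomial.eval_add, Polynomial.eval_sub, Polynomial.eval_mul, Polynomial.eval_pow,
      Polynomial.eval_X, Polynomial.eval_one, e2, e3, e4]
    push_cast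
    ring
  have hpQ : p = Q := by
    apply Polynomial.eq_of_infinite_eval_eq
    have hinf : (Set.range (fun k : ℕ => ((2 * (k + N + 5) : ℕ) : ℝ))).Infinite := by
      apply Set.infinite_range_of_injective
      intro a b hab
      have h0 : ((2 * (a + N + 5) : ℕ) : ℝ) = ((2 * (b + N + 5) : ℕ) : ℝ) := hab
      have : (2 * (a + N + 5) : ℕ) = 2 * (b + N + 5) := Nat.cast_injective h0
      omega
    refine hinf.mono ?_
    rintro x ⟨k, rfl⟩
    have h1 := hp' (2 * (k + N + 5)) (by omega)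
    have h2 := heven (2 * (k + N + 5)) (by omega) (even_two_mul _)
    change Polynomial.eval (((2 * (k + N + 5) : ℕ) : ℝ)) p
      = Polynomial.eval (((2 * (k + N + 5) : ℕ) : ℝ)) Q
    rw [← h1, hQ, ← h2]
    norm_cast
  have h1 := hp' (2 * (N + 5) + 1) (by omega)
  have h2 := hodd (2 * (N + 5) + 1) (by omega) (by
    rw [Nat.not_even_iff_odd]
    exact ⟨N + 5, rfl⟩)
  rw [hpQ, hQ] at h1
  have h3 : ((sInf (T (2 * (N + 5) + 1)) : ℕ) : ℤ)
      = Pool.Agent.H46.DPColor.q (2 * (N + 5) + 1) := by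
    exact_mod_cast h1
  omega

end Pool.Agent.S10590
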