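import Pool.Statements.S10719

/-!
# Monochromatic non-separated matchings in ordered complete graphs

Proof idea.  Suppose that no colour has a non-separated matching with `n = s + 1` edges.  For every
cut position `j` and every colour `i`, Koenig's theorem gives a vertex cover of size at most `s` of
the bipartite graph of colour `i` between the vertices before the cut and those after it.  As the
union over the colours of these covers covers a complete bipartite graph, it contains one whole side.
Take the last cut whose left side is covered; the next one then has its right side covered.  A double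
count with the covers at these two consecutive cuts gives `m - 1 ≤ (t + 1) s`, a contradiction.
-/

set_option autoImplicit false
open Pool Pool.MP_aba350_co

namespace Pool.Agent.S10719

section Helpers

open Finset


/-- Koenig's theorem in the form of an alternative, derived from Hall's marriage theorem. -/
theorem konig {α β : Type} [DecidableEq α] [DecidableEq β] (L : Finset α) (R : Finset β)
    (r : α → β → Prop) (n : ℕ) :
    (∃ a : Fin n → α, ∃ b : Fin n → β, Function.Injective a ∧ Function.Injective b ∧
      (∀ i, a i ∈ L ∧ b i ∈ R ∧ r (a i) (b i))) ∨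
    (∃ A ⊆ L, ∃ B ⊆ R, A.card + B.card < n ∧ ∀ x ∈ L, ∀ y ∈ R, r x y → x ∈ A ∨ y ∈ B) := by
  classical
  by_cases h : ∃ S ⊆ L, (L \ S).card + (R.filter (fun y => ∃ x ∈ S, r x y)).card < n
  · right
    obtain ⟨S, hS, hcard⟩ := h
    refine ⟨L \ S, sdiff_subset, R.filter (fun y => ∃ x ∈ S, r x y), filter_subset _ _, hcard, ?_⟩
    intro x hx y hy hr
    by_cases hxS : x ∈ S
    · right
      exact mem_filter.2 ⟨hy, x, hxS, hr⟩
    · left
      exact mem_sdiff.2 ⟨hx, hxS⟩
  · left
    push Not at h
    have hLn : n ≤ L.card := by
      have := h ∅ (empty_subset _)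
      simpa using this
    obtain ⟨d, hd⟩ : ∃ d, L.card = n + d := ⟨L.card - n, by omega⟩
    let t : {x // x ∈ L} → Finset (β ⊕ Fin d) := fun x =>
      (R.filter (fun y => r x y)).disjSum (univ : Finset (Fin d))
    have hall : ∀ s : Finset {x // x ∈ L}, s.card ≤ (s.biUnion t).card := by
      intro s
      rcases s.eq_empty_or_nonempty with rfl | hs
      · simp
      · set S : Finset α := s.map (Function.Embedding.subtype _) with hSdef
        have hSL : S ⊆ L := by
          intro x hx
          rw [hSdef, mem_map] at hx
          obtain ⟨y, _, rfl⟩ := hx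
          exact y.2
        have h1 := h S hSL
        have h2 : (L \ S).card = L.card - S.card := card_sdiff_of_subset hSL
        have h3 : S.card = s.card := by rw [hSdef, card_map]
        have h5 : S.card ≤ L.card := card_le_card hSL
        have h4 : ((R.filter (fun y => ∃ x ∈ S, r x y)).disjSum (univ : Finset (Fin d))).card
            ≤ (s.biUnion t).card := by
          apply card_le_card
          intro z hz
          rw [mem_biUnion]
          rcases z with y | e
          · rw [inl_mem_disjSum, mem_filter] at hz
            obtain ⟨hy, x, hx, hr⟩ := hz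
            rw [hSdef, mem_map] at hx
            obtain ⟨x', hx', rfl⟩ := hx
            refine ⟨x', hx', ?_⟩
            show Sum.inl y ∈ (R.filter (fun y => r x' y)).disjSum (univ : Finset (Fin d))
            rw [inl_mem_disjSum, mem_filter]
            exact ⟨hy, hr⟩
          · obtain ⟨x, hx⟩ := hs
            refine ⟨x, hx, ?_⟩
            show Sum.inr e ∈ (R.filter (fun y => r x y)).disjSum (univ : Finset (Fin d))
            rw [inr_mem_disjSum]
            exact mem_univ _
        rw [card_disjSum, card_univ, Fintype.card_fin] at h4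
        omega
    obtain ⟨f, hf, hft⟩ := (Finset.all_card_le_biUnion_card_iff_exists_injective t).1 hall
    set M : Finset {x // x ∈ L} := univ.filter (fun x => (f x).isLeft = true) with hM
    have hMc : (univ.filter (fun x : {x // x ∈ L} => ¬ ((f x).isLeft = true))).card ≤ d := by
      have : ((univ.filter (fun x : {x // x ∈ L} => ¬ ((f x).isLeft = true))).image f).card
          ≤ ((univ : Finset (Fin d)).image (Sum.inr : Fin d → β ⊕ Fin d)).card := by
        apply card_le_card
        intro z hz
        rw [mem_image] at hz
        obtain ⟨x, hx, rfl⟩ := hz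
        rw [mem_filter] at hx
        rw [mem_image]
        cases hfx : f x with
        | inl y => simp [hfx] at hx
        | inr e => exact ⟨e, mem_univ _, rfl⟩
      rw [card_image_of_injective _ hf] at this
      refine this.trans ?_
      refine card_image_le.trans ?_
      simp
    have hcardM : n ≤ M.card := by
      have h1 := Finset.card_filter_add_card_filter_not (s := (univ : Finset {x // x ∈ L}))
        (fun x => (f x).isLeft = true)
      rw [card_univ, Fintype.card_coe] at h1
      rw [hM]
      omega
    obtain ⟨e⟩ : Nonempty (Fin n ↪ {x // x ∈ M}) := by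
      apply Function.Embedding.nonempty_of_card_le
      simpa using hcardM
    have hleft : ∀ i : Fin n, (f (e i).1).isLeft = true := fun i => (mem_filter.1 (e i).2).2
    refine ⟨fun i => ((e i).1 : α), fun i => (f (e i).1).getLeft (hleft i), ?_, ?_, ?_⟩
    · intro i j hij
      apply e.injective
      apply Subtype.ext
      apply Subtype.ext
      exact hij
    · intro i j hij
      apply e.injective
      apply Subtype.ext
      apply hf
      have hij' : (f (e i).1).getLeft (hleft i) = (f (e j).1).getLeft (hleft j) := hij
      rw [← Sum.inl_getLeft (f (e i).1) (hleft i), ← Sum.inl_getLeft (f (e j).1) (hleft j), hij']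
    · intro i
      have h1 := hft (e i).1
      have h2 : Sum.inl ((f (e i).1).getLeft (hleft i)) ∈
          (R.filter (fun y => r (e i).1 y)).disjSum (univ : Finset (Fin d)) := by
        rw [Sum.inl_getLeft]
        exact h1
      rw [inl_mem_disjSum, mem_filter] at h2
      exact ⟨(e i).1.2, h2.1, h2.2⟩



/-- The counting heart: two systems of covers `(A i, B i)` and `(A' i, B' i)` of size at most `s`,
both covering all pairs of `L × R` simultaneously, where the `A i` cover all of `L` and the `B' i`
cover all of `R`, force `|L| + |R| ≤ (t+1) s`. -/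
theorem core_count {α : Type} [DecidableEq α] (t s : ℕ) (L R : Finset α)
    (A B A' B' : Fin t → Finset α)
    (hs : ∀ i, (A i).card + (B i).card ≤ s) (hs' : ∀ i, (A' i).card + (B' i).card ≤ s)
    (hL : ∀ x ∈ L, ∃ i, x ∈ A i) (hR : ∀ y ∈ R, ∃ i, y ∈ B' i)
    (hcov : ∀ x ∈ L, ∀ y ∈ R, ∃ i, (x ∈ A i ∨ y ∈ B i) ∧ (x ∈ A' i ∨ y ∈ B' i)) :
    L.card + R.card ≤ (t + 1) * s := by
  classical
  set U : Fin t → Finset α := fun i => A i ∩ A' i with hU
  set V : Fin t → Finset α := fun i => B i ∩ B' i with hV
  set P : Finset α := L \ univ.biUnion U with hP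
  set Q : Finset α := R \ univ.biUnion V with hQ
  have hLP : L.card ≤ P.card + ∑ i, (U i).card := by
    calc L.card ≤ (P ∪ univ.biUnion U).card := by
          apply card_le_card
          intro x hx
          by_cases hxU : x ∈ univ.biUnion U
          · exact mem_union_right _ hxU
          · exact mem_union_left _ (mem_sdiff.2 ⟨hx, hxU⟩)
      _ ≤ P.card + (univ.biUnion U).card := card_union_le _ _
      _ ≤ P.card + ∑ i, (U i).card := by
          gcongr
          exact card_biUnion_le
  have hRQ : R.card ≤ Q.card + ∑ i, (V i).card := by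
    calc R.card ≤ (Q ∪ univ.biUnion V).card := by
          apply card_le_card
          intro x hx
          by_cases hxU : x ∈ univ.biUnion V
          · exact mem_union_right _ hxU
          · exact mem_union_left _ (mem_sdiff.2 ⟨hx, hxU⟩)
      _ ≤ Q.card + (univ.biUnion V).card := card_union_le _ _
      _ ≤ Q.card + ∑ i, (V i).card := by
          gcongr
          exact card_biUnion_le
  have hLA : L.card ≤ ∑ i, (A i).card := by
    calc L.card ≤ (univ.biUnion A).card := by
          apply card_le_card
          intro x hx
          obtain ⟨i, hi⟩ := hL x hx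
          exact mem_biUnion.2 ⟨i, mem_univ _, hi⟩
      _ ≤ ∑ i, (A i).card := card_biUnion_le
  have hRB : R.card ≤ ∑ i, (B' i).card := by
    calc R.card ≤ (univ.biUnion B').card := by
          apply card_le_card
          intro x hx
          obtain ⟨i, hi⟩ := hR x hx
          exact mem_biUnion.2 ⟨i, mem_univ _, hi⟩
      _ ≤ ∑ i, (B' i).card := card_biUnion_le
  have hUA : ∀ i, (U i).card ≤ (A i).card := fun i => card_le_card inter_subset_left
  have hUA' : ∀ i, (U i).card ≤ (A' i).card := fun i => card_le_card inter_subset_right
  have hVB : ∀ i, (V i).card ≤ (B i).card := fun i => card_le_card inter_subset_left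
  have hVB' : ∀ i, (V i).card ≤ (B' i).card := fun i => card_le_card inter_subset_right
  -- the case `P = ∅`
  rcases Nat.eq_zero_or_pos P.card with hp0 | hp0
  · have h1 : L.card + R.card ≤ ∑ i : Fin t, s := by
      calc L.card + R.card ≤ ∑ i, (U i).card + ∑ i, (B' i).card := by omega
        _ = ∑ i, ((U i).card + (B' i).card) := by rw [sum_add_distrib]
        _ ≤ ∑ i : Fin t, s := by
            apply sum_le_sum
            intro i _
            have := hs' i
            have := hUA' i
            omega
    simp at h1
    nlinarith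
  rcases Nat.eq_zero_or_pos Q.card with hq0 | hq0
  · have h1 : L.card + R.card ≤ ∑ i : Fin t, s := by
      calc L.card + R.card ≤ ∑ i, (A i).card + ∑ i, (V i).card := by omega
        _ = ∑ i, ((A i).card + (V i).card) := by rw [sum_add_distrib]
        _ ≤ ∑ i : Fin t, s := by
            apply sum_le_sum
            intro i _
            have := hs i
            have := hVB i
            omega
    simp at h1
    nlinarith
  -- the rectangles
  set a1 : Fin t → Finset α := fun i => (A i \ A' i) ∩ P with ha1
  set b1 : Fin t → Finset α := fun i => (B' i \ B i) ∩ Q with hb1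
  set a2 : Fin t → Finset α := fun i => (A' i \ A i) ∩ P with ha2
  set b2 : Fin t → Finset α := fun i => (B i \ B' i) ∩ Q with hb2
  have hcount : P.card * Q.card ≤
      ∑ i, ((a1 i).card * (b1 i).card + (a2 i).card * (b2 i).card) := by
    have h1 : P ×ˢ Q ⊆ univ.biUnion (fun i => (a1 i ×ˢ b1 i) ∪ (a2 i ×ˢ b2 i)) := by
      rintro ⟨x, y⟩ hxy
      rw [mem_product] at hxy
      obtain ⟨hx, hy⟩ := hxy
      simp only at hx hy
      have hxL : x ∈ L := (mem_sdiff.1 hx).1
      have hyR : y ∈ R := (mem_sdiff.1 hy).1
      have hxU : ∀ i, ¬ (x ∈ A i ∧ x ∈ A' i) := by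
        intro i hi
        exact (mem_sdiff.1 hx).2 (mem_biUnion.2 ⟨i, mem_univ _, mem_inter.2 hi⟩)
      have hyV : ∀ i, ¬ (y ∈ B i ∧ y ∈ B' i) := by
        intro i hi
        exact (mem_sdiff.1 hy).2 (mem_biUnion.2 ⟨i, mem_univ _, mem_inter.2 hi⟩)
      obtain ⟨i, h1, h2⟩ := hcov x hxL y hyR
      have hxi := hxU i
      have hyi := hyV i
      refine mem_biUnion.2 ⟨i, mem_univ _, ?_⟩
      rw [mem_union, mem_product, mem_product]
      simp only [ha1, hb1, ha2, hb2, mem_inter, mem_sdiff]
      tauto
    calc P.card * Q.card = (P ×ˢ Q).card := (card_product _ _).symm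
      _ ≤ (univ.biUnion (fun i => (a1 i ×ˢ b1 i) ∪ (a2 i ×ˢ b2 i))).card := card_le_card h1
      _ ≤ ∑ i, ((a1 i ×ˢ b1 i) ∪ (a2 i ×ˢ b2 i)).card := card_biUnion_le
      _ ≤ ∑ i, ((a1 i).card * (b1 i).card + (a2 i).card * (b2 i).card) := by
          apply sum_le_sum
          intro i _
          refine (card_union_le _ _).trans ?_
          rw [card_product, card_product]
  -- sizes
  have hsz1 : ∀ i, (U i).card + (V i).card + (a1 i).card + (b2 i).card ≤ s := by
    intro i
    have h1 : (U i).card + (a1 i).card ≤ (A i).card := by
      rw [← card_union_of_disjoint]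
      · apply card_le_card
        intro x hx
        simp only [hU, ha1, mem_union, mem_inter, mem_sdiff] at hx
        tauto
      · rw [disjoint_left]
        intro x hx hx'
        simp only [hU, ha1, mem_inter, mem_sdiff] at hx hx'
        tauto
    have h2 : (V i).card + (b2 i).card ≤ (B i).card := by
      rw [← card_union_of_disjoint]
      · apply card_le_card
        intro x hx
        simp only [hV, hb2, mem_union, mem_inter, mem_sdiff] at hx
        tauto
      · rw [disjoint_left]
        intro x hx hx'
        simp only [hV, hb2, mem_inter, mem_sdiff] at hx hx'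
        tauto
    have := hs i
    omega
  have hsz2 : ∀ i, (U i).card + (V i).card + (a2 i).card + (b1 i).card ≤ s := by
    intro i
    have h1 : (U i).card + (a2 i).card ≤ (A' i).card := by
      rw [← card_union_of_disjoint]
      · apply card_le_card
        intro x hx
        simp only [hU, ha2, mem_union, mem_inter, mem_sdiff] at hx
        tauto
      · rw [disjoint_left]
        intro x hx hx'
        simp only [hU, ha2, mem_inter, mem_sdiff] at hx hx'
        tauto
    have h2 : (V i).card + (b1 i).card ≤ (B' i).card := by
      rw [← card_union_of_disjoint]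
      · apply card_le_card
        intro x hx
        simp only [hV, hb1, mem_union, mem_inter, mem_sdiff] at hx
        tauto
      · rw [disjoint_left]
        intro x hx hx'
        simp only [hV, hb1, mem_inter, mem_sdiff] at hx hx'
        tauto
    have := hs' i
    omega
  have hPP : ∀ i, (a1 i).card + (a2 i).card ≤ P.card := by
    intro i
    rw [← card_union_of_disjoint]
    · apply card_le_card
      intro x hx
      simp only [ha1, ha2, mem_union, mem_inter, mem_sdiff] at hx
      tauto
    · rw [disjoint_left]
      intro x hx hx'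
      simp only [ha1, ha2, mem_inter, mem_sdiff] at hx hx'
      tauto
  have hQQ : ∀ i, (b1 i).card + (b2 i).card ≤ Q.card := by
    intro i
    rw [← card_union_of_disjoint]
    · apply card_le_card
      intro x hx
      simp only [hb1, hb2, mem_union, mem_inter, mem_sdiff] at hx
      tauto
    · rw [disjoint_left]
      intro x hx hx'
      simp only [hb1, hb2, mem_inter, mem_sdiff] at hx hx'
      tauto
  -- residual capacities
  set w : Fin t → ℕ := fun i => s - ((U i).card + (V i).card) with hw
  have hwU : ∀ i, w i + (U i).card + (V i).card = s := by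
    intro i
    have := hsz1 i
    simp only [hw]
    omega
  have hwsum : ∑ i, w i + ∑ i, (U i).card + ∑ i, (V i).card = t * s := by
    rw [← sum_add_distrib, ← sum_add_distrib, sum_congr rfl (fun i _ => hwU i)]
    simp
  have e1 : ∀ i, (a1 i).card + (b2 i).card ≤ w i := by
    intro i
    have := hsz1 i
    have := hwU i
    omega
  have e2 : ∀ i, (a2 i).card + (b1 i).card ≤ w i := by
    intro i
    have := hsz2 i
    have := hwU i
    omega
  -- it suffices to bound `p + q`
  suffices hpq : P.card + Q.card ≤ s + ∑ i, w i by
    have : (t + 1) * s = t * s + s := by ring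
    omega
  by_cases hps : P.card ≤ s
  · have h1 : P.card * Q.card ≤ P.card * ∑ i, w i := by
      refine hcount.trans ?_
      rw [mul_sum]
      apply sum_le_sum
      intro i _
      have h1 := e1 i
      have h2 := e2 i
      have h3 := hPP i
      calc (a1 i).card * (b1 i).card + (a2 i).card * (b2 i).card
          ≤ (a1 i).card * w i + (a2 i).card * w i := by
            apply Nat.add_le_add
            · exact Nat.mul_le_mul_left _ (by omega)
            · exact Nat.mul_le_mul_left _ (by omega)
        _ = ((a1 i).card + (a2 i).card) * w i := by ring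
        _ ≤ P.card * w i := Nat.mul_le_mul_right _ h3
    have h2 : Q.card ≤ ∑ i, w i := Nat.le_of_mul_le_mul_left h1 hp0
    omega
  by_cases hqs : Q.card ≤ s
  · have h1 : Q.card * P.card ≤ Q.card * ∑ i, w i := by
      rw [mul_comm]
      refine hcount.trans ?_
      rw [mul_sum]
      apply sum_le_sum
      intro i _
      have h1 := e1 i
      have h2 := e2 i
      have h3 := hQQ i
      calc (a1 i).card * (b1 i).card + (a2 i).card * (b2 i).card
          ≤ w i * (b1 i).card + w i * (b2 i).card := by
            apply Nat.add_le_add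
            · exact Nat.mul_le_mul_right _ (by omega)
            · exact Nat.mul_le_mul_right _ (by omega)
        _ = ((b1 i).card + (b2 i).card) * w i := by ring
        _ ≤ Q.card * w i := Nat.mul_le_mul_right _ h3
    have h2 : P.card ≤ ∑ i, w i := Nat.le_of_mul_le_mul_left h1 hq0
    omega
  -- now `p, q > s`
  push Not at hps hqs
  have h1 : P.card * Q.card ≤ s * ∑ i, w i := by
    refine hcount.trans ?_
    rw [mul_sum]
    apply sum_le_sum
    intro i _
    have h1 := e1 i
    have h2 := e2 i
    have h3 : w i ≤ s := by
      have := hwU i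
      omega
    have h4 : (a1 i).card * (b1 i).card + (a2 i).card * (b2 i).card ≤ w i * w i := by
      obtain ⟨x, hx⟩ : ∃ x, x = (a1 i).card := ⟨_, rfl⟩
      obtain ⟨y, hy⟩ : ∃ y, y = (b1 i).card := ⟨_, rfl⟩
      obtain ⟨x', hx'⟩ : ∃ x, x = (a2 i).card := ⟨_, rfl⟩
      obtain ⟨y', hy'⟩ : ∃ y, y = (b2 i).card := ⟨_, rfl⟩
      obtain ⟨v, hv⟩ : ∃ v, v = w i := ⟨_, rfl⟩
      rw [← hx, ← hy, ← hx', ← hy', ← hv]
      rw [← hx, ← hy', ← hv] at h1
      rw [← hx', ← hy, ← hv] at h2
      -- x + y' ≤ v, x' + y ≤ v
      obtain ⟨z, hz⟩ : ∃ z, v = x + y' + z := ⟨v - (x + y'), by omega⟩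
      obtain ⟨z', hz'⟩ : ∃ z, v = x' + y + z := ⟨v - (x' + y), by omega⟩
      have h5 : v * v = (x + y' + z) * (x' + y + z') := by
        rw [← hz, ← hz']
      rw [h5]
      nlinarith [Nat.zero_le (x * x'), Nat.zero_le (y' * y), Nat.zero_le (x * z'),
        Nat.zero_le (y' * z'), Nat.zero_le (z * x'), Nat.zero_le (z * y), Nat.zero_le (z * z')]
    exact h4.trans (Nat.mul_le_mul_right _ h3)
  rcases Nat.eq_zero_or_pos s with hs0 | hs0
  · rw [hs0] at h1
    nlinarith
  · -- (p - s) (q - s) ≥ 0
    obtain ⟨x, hx⟩ : ∃ x, P.card = s + x := ⟨P.card - s, by omega⟩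
    obtain ⟨y, hy⟩ : ∃ y, Q.card = s + y := ⟨Q.card - s, by omega⟩
    rw [hx, hy] at h1 ⊢
    have h2 : s * (s + x + y) ≤ s * ∑ i, w i := by
      nlinarith [Nat.zero_le (x * y)]
    have h3 := Nat.le_of_mul_le_mul_left h2 hs0
    omega


/-- The theorem in terms of `s = n - 1` and a general number `m ≥ (t + 1) s + 2` of vertices. -/
theorem main_aux (t s m : ℕ) (hm : (t + 1) * s + 2 ≤ m) (c : Fin m → Fin m → Fin t) :
    ∃ k : Fin t, ∃ a b : Fin (s + 1) → Fin m,
      Function.Injective a ∧ Function.Injective b ∧
      (∀ i j, a i < b j) ∧ ∀ i, c (a i) (b i) = k := by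
  classical
  by_contra hcon
  -- covers at every cut
  have hcover : ∀ (j : ℕ) (k : Fin t), ∃ AB : Finset (Fin m) × Finset (Fin m),
      AB.1.card + AB.2.card ≤ s ∧
      (∀ x : Fin m, x.val < j → ∀ y : Fin m, j ≤ y.val → c x y = k → x ∈ AB.1 ∨ y ∈ AB.2) := by
    intro j k
    rcases konig (univ.filter (fun x : Fin m => x.val < j)) (univ.filter (fun x : Fin m => j ≤ x.val))
      (fun x y => c x y = k) (s + 1) with h | h
    · exfalso
      obtain ⟨a, b, ha, hb, hab⟩ := h
      apply hcon
      refine ⟨k, a, b, ha, hb, ?_, fun i => (hab i).2.2⟩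
      intro i j'
      have h1 := (mem_filter.1 (hab i).1).2
      have h2 := (mem_filter.1 (hab j').2.1).2
      exact Fin.lt_def.2 (lt_of_lt_of_le h1 h2)
    · obtain ⟨A, _, B, _, hcard, hc⟩ := h
      refine ⟨(A, B), by simp only; omega, ?_⟩
      intro x hx y hy hxy
      exact hc x (mem_filter.2 ⟨mem_univ _, hx⟩) y (mem_filter.2 ⟨mem_univ _, hy⟩) hxy
  choose C hCcard hCcov using hcover
  -- left coveredness
  let Left : ℕ → Prop := fun j => ∀ x : Fin m, x.val < j → ∃ k, x ∈ (C j k).1
  have hleft0 : Left 0 := fun x hx => absurd hx (Nat.not_lt_zero _)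
  have hleftm : ¬ Left m := by
    intro h
    have h1 : (univ : Finset (Fin m)).card ≤ ∑ k, (C m k).1.card := by
      refine le_trans (card_le_card (t := univ.biUnion (fun k => (C m k).1)) ?_) card_biUnion_le
      intro x _
      obtain ⟨k, hk⟩ := h x x.2
      exact mem_biUnion.2 ⟨k, mem_univ _, hk⟩
    have h2 : ∑ k, (C m k).1.card ≤ ∑ k : Fin t, s := by
      apply sum_le_sum
      intro k _
      have := hCcard m k
      omega
    simp only [card_univ, Fintype.card_fin, sum_const, smul_eq_mul] at h1 h2
    have h3 : (t + 1) * s = t * s + s := by ring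
    omega
  obtain ⟨j, hjm, hj, hj1⟩ : ∃ j, j < m ∧ Left j ∧ ¬ Left (j + 1) := by
    by_contra hno
    push Not at hno
    have hall : ∀ j, j ≤ m → Left j := by
      intro j
      induction j with
      | zero => intro _; exact hleft0
      | succ j ih => intro hjm; exact hno j (by omega) (ih (by omega))
    exact hleftm (hall m le_rfl)
  -- right coveredness of the next cut
  have hright : ∀ y : Fin m, j + 1 ≤ y.val → ∃ k, y ∈ (C (j + 1) k).2 := by
    intro y hy
    have hj1' : ¬ ∀ x : Fin m, x.val < j + 1 → ∃ k, x ∈ (C (j + 1) k).1 := hj1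
    push Not at hj1'
    obtain ⟨x, hx, hxk⟩ := hj1'
    rcases hCcov (j + 1) (c x y) x hx y hy rfl with h | h
    · exact absurd h (hxk _)
    · exact ⟨_, h⟩
  have key := core_count t s (univ.filter (fun x : Fin m => x.val < j))
    (univ.filter (fun x : Fin m => j + 1 ≤ x.val))
    (fun k => (C j k).1) (fun k => (C j k).2) (fun k => (C (j + 1) k).1) (fun k => (C (j + 1) k).2)
    (fun k => hCcard j k) (fun k => hCcard (j + 1) k)
    (fun x hx => hj x (mem_filter.1 hx).2) (fun y hy => hright y (mem_filter.1 hy).2)
    (by
      intro x hx y hy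
      have hx' := (mem_filter.1 hx).2
      have hy' := (mem_filter.1 hy).2
      exact ⟨c x y, hCcov j (c x y) x hx' y (by omega) rfl,
        hCcov (j + 1) (c x y) x (by omega) y hy' rfl⟩)
  have hLcard : (univ.filter (fun x : Fin m => x.val < j)).card = j := by
    have h1 : (univ.filter (fun x : Fin m => x.val < j)).card = ((range m).filter (· < j)).card := by
      rw [← card_map Fin.valEmbedding]
      congr 1
      ext x
      simp only [mem_map, mem_filter, mem_univ, true_and, Fin.valEmbedding_apply, mem_range]
      constructor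
      · rintro ⟨y, hy, rfl⟩
        exact ⟨y.2, hy⟩
      · rintro ⟨h1, h2⟩
        exact ⟨⟨x, h1⟩, h2, rfl⟩
    rw [h1]
    have h2 : (range m).filter (· < j) = range j := by
      ext x
      simp only [mem_filter, mem_range]
      omega
    rw [h2, card_range]
  have hRcard : (univ.filter (fun x : Fin m => j + 1 ≤ x.val)).card = m - (j + 1) := by
    have h1 : (univ.filter (fun x : Fin m => j + 1 ≤ x.val)).card
        = ((range m).filter (fun x => j + 1 ≤ x)).card := by
      rw [← card_map Fin.valEmbedding]
      congr 1
      ext x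
      simp only [mem_map, mem_filter, mem_univ, true_and, Fin.valEmbedding_apply, mem_range]
      constructor
      · rintro ⟨y, hy, rfl⟩
        exact ⟨y.2, hy⟩
      · rintro ⟨h1, h2⟩
        exact ⟨⟨x, h1⟩, h2, rfl⟩
    rw [h1]
    have h2 : (range m).filter (fun x => j + 1 ≤ x) = Ico (j + 1) m := by
      ext x
      simp only [mem_filter, mem_range, mem_Ico]
      omega
    rw [h2, Nat.card_Ico]
  rw [hLcard, hRcard] at key
  omega

end Helpers

/-- For all positive t, n with m=(t-1)(n-1)+2n, every t-coloring of edges of K_m on 1<...<m has n same-colored disjoint edges a_i<b_i where every left endpoint a_i precedes every right endpoint b_j. -/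
theorem result :
    ∀ t n : ℕ, 0 < t → 0 < n →
      ∀ c : Fin ((t - 1) * (n - 1) + 2 * n) → Fin ((t - 1) * (n - 1) + 2 * n) → Fin t,
        ∃ k : Fin t, ∃ a b : Fin n → Fin ((t - 1) * (n - 1) + 2 * n),
          Function.Injective a ∧ Function.Injective b ∧
          (∀ i j, a i < b j) ∧ ∀ i, c (a i) (b i) = k := by
  intro t n ht hn c
  obtain ⟨s, rfl⟩ : ∃ s, n = s + 1 := ⟨n - 1, by omega⟩
  obtain ⟨u, rfl⟩ : ∃ u, t = u + 1 := ⟨t - 1, by omega⟩
  apply main_aux (u + 1) s _ _ c
  have h1 : u + 1 - 1 = u := by omega
  have h2 : s + 1 - 1 = s := by omega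
  rw [h1, h2]
  ring_nf
  omega

end Pool.Agent.S10719
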