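import Pool.Statements.S12863
import Pool.Agent.H67.WijsmanMain

set_option autoImplicit false
open Pool Pool.MP_1e945b_gt

namespace Pool.Agent.S12863

/-- For a metrizable space X: if, for every compatible metric d, player II has a winning strategy in the strong Choquet game on the nonempty closed sets of X with the Wijsman topology of d, then X admits a compatible complete metric. -/
theorem result :
  ∀ (X : Type) [t : TopologicalSpace X], TopologicalSpace.MetrizableSpace X →
    (∀ (m : MetricSpace X), m.toUniformSpace.toTopologicalSpace = t →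
      ∀ τ : TopologicalSpace {A : Set X // IsClosed A ∧ A.Nonempty},
        τ = ⨅ x : X, TopologicalSpace.induced
              (fun A : {A : Set X // IsClosed A ∧ A.Nonempty} =>
                @EMetric.infEdist X m.toPseudoEMetricSpace x A.1)
              (inferInstance : TopologicalSpace ENNReal) →
        ∃ σ : List ({A : Set X // IsClosed A ∧ A.Nonempty} ×
                Set {A : Set X // IsClosed A ∧ A.Nonempty}) →
              Set {A : Set X // IsClosed A ∧ A.Nonempty},
          (∀ (h : List ({A : Set X // IsClosed A ∧ A.Nonempty} ×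
                Set {A : Set X // IsClosed A ∧ A.Nonempty}))
              (y : {A : Set X // IsClosed A ∧ A.Nonempty})
              (U : Set {A : Set X // IsClosed A ∧ A.Nonempty}),
              y ∈ U → @IsOpen _ τ U →
                @IsOpen _ τ (σ (h ++ [(y, U)])) ∧ y ∈ σ (h ++ [(y, U)]) ∧
                  σ (h ++ [(y, U)]) ⊆ U) ∧
          ∀ p : ℕ → ({A : Set X // IsClosed A ∧ A.Nonempty} ×
                Set {A : Set X // IsClosed A ∧ A.Nonempty}),
            (∀ n, (p n).1 ∈ (p n).2 ∧ @IsOpen _ τ (p n).2) →
            (∀ n, (p (n + 1)).2 ⊆ σ (List.ofFn (fun i : Fin (n + 1) => p i.val))) →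
            (⋂ n, σ (List.ofFn (fun i : Fin (n + 1) => p i.val))).Nonempty) →
    ∃ m : MetricSpace X, m.toUniformSpace.toTopologicalSpace = t ∧
      @CompleteSpace X m.toUniformSpace := by
  intro X t hX H
  let ρ : MetricSpace X := TopologicalSpace.metrizableSpaceMetric X
  have hρ : ρ.toUniformSpace.toTopologicalSpace = t := rfl
  have key : TopologicalSpace.IsCompletelyMetrizableSpace X := by
    refine Pool.Agent.H67.isCompletelyMetrizableSpace_of_wijsman (X := X) (ρ := ρ) ?_
    intro m hm
    obtain ⟨σ, h1, h2⟩ := H m hm _ rfl
    exact ⟨σ, @Pool.Agent.H67.Winning.mk _ (Pool.Agent.H67.wijsman m) σ h1 h2⟩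
  exact key.complete

end Pool.Agent.S12863
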