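import Pool.Statements.S13321

set_option autoImplicit false
open Topology
open Pool Pool.MP_6b9469_gt

namespace Pool.Agent.S13321

/-- The union of the members of the family `G` that are contained in `U`. -/
def core {X : Type} (G : Set (Set X)) (U : Set X) : Set X := ⋃₀ {V | V ∈ G ∧ V ⊆ U}

theorem core_subset {X : Type} (G : Set (Set X)) (U : Set X) : core G U ⊆ U := by
  intro x hx
  obtain ⟨V, hV, hxV⟩ := hx
  exact hV.2 hxV

/-- Every topological space having a σ-disjoint base and a σ-locally countable base also has a single base that is both σ-disjoint and σ-locally countable. -/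
theorem result :
    ∀ (X : Type) [TopologicalSpace X],
      (∃ B : Set (Set X), TopologicalSpace.IsTopologicalBasis B ∧
        ∃ F : ℕ → Set (Set X), B = ⋃ n, F n ∧ ∀ n, (F n).PairwiseDisjoint id) →
      (∃ B : Set (Set X), TopologicalSpace.IsTopologicalBasis B ∧
        ∃ F : ℕ → Set (Set X), B = ⋃ n, F n ∧
          ∀ n, ∀ x : X, ∃ U ∈ 𝓝 x, {S ∈ F n | (S ∩ U).Nonempty}.Countable) →
      ∃ B : Set (Set X), TopologicalSpace.IsTopologicalBasis B ∧
        (∃ F : ℕ → Set (Set X), B = ⋃ n, F n ∧ ∀ n, (F n).PairwiseDisjoint id) ∧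
        (∃ G : ℕ → Set (Set X), B = ⋃ n, G n ∧
          ∀ n, ∀ x : X, ∃ U ∈ 𝓝 x, {S ∈ G n | (S ∩ U).Nonempty}.Countable) := by
  rintro X _ ⟨B, hB, F, rfl, hF⟩ ⟨B', hB', G, rfl, hG⟩
  -- the `(n, m)` level: cores of members of `F n` with respect to `G m`
  let D : ℕ → Set (Set X) := fun k => (fun U => core (G k.unpair.2) U) '' (F k.unpair.1)
  have hdisj : ∀ k, (D k).PairwiseDisjoint id := by
    intro k
    rintro _ ⟨U₁, hU₁, rfl⟩ _ ⟨U₂, hU₂, rfl⟩ hne
    have hne' : U₁ ≠ U₂ := by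
      rintro rfl
      exact hne rfl
    have h := hF k.unpair.1 hU₁ hU₂ hne'
    exact Set.disjoint_of_subset (core_subset _ _) (core_subset _ _) h
  have hlc : ∀ k, ∀ x : X, ∃ N ∈ 𝓝 x, {S ∈ D k | (S ∩ N).Nonempty}.Countable := by
    intro k x
    obtain ⟨N, hN, hc⟩ := hG k.unpair.2 x
    refine ⟨N, hN, ?_⟩
    -- send a core meeting `N` to a member of `G` contained in it and meeting `N`
    have key : ∀ S ∈ {S ∈ D k | (S ∩ N).Nonempty},
        ∃ V ∈ {V ∈ G k.unpair.2 | (V ∩ N).Nonempty}, V ⊆ S := by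
      rintro S ⟨⟨U, hU, rfl⟩, y, ⟨V, hV, hyV⟩, hyN⟩
      refine ⟨V, ⟨hV.1, y, hyV, hyN⟩, ?_⟩
      intro z hz
      exact ⟨V, hV, hz⟩
    choose! f hf hfS using key
    have hmaps : Set.MapsTo f {S ∈ D k | (S ∩ N).Nonempty}
        {V ∈ G k.unpair.2 | (V ∩ N).Nonempty} := fun S hS => hf S hS
    have hinj : Set.InjOn f {S ∈ D k | (S ∩ N).Nonempty} := by
      intro S₁ hS₁ S₂ hS₂ heq
      by_contra hne
      have hd : Disjoint S₁ S₂ := hdisj k hS₁.1 hS₂.1 hne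
      obtain ⟨y, hy, -⟩ := (hf S₁ hS₁).2
      have h1 : y ∈ S₁ := hfS S₁ hS₁ hy
      have h2 : y ∈ S₂ := hfS S₂ hS₂ (heq ▸ hy)
      exact Set.disjoint_left.mp hd h1 h2
    exact Set.MapsTo.countable_of_injOn hmaps hinj hc
  refine ⟨⋃ k, D k, ?_, ⟨D, rfl, hdisj⟩, ⟨D, rfl, hlc⟩⟩
  refine TopologicalSpace.isTopologicalBasis_of_isOpen_of_nhds ?_ ?_
  · intro S hS
    obtain ⟨k, U, hU, rfl⟩ := Set.mem_iUnion.mp hS
    refine isOpen_sUnion ?_
    intro V hV
    exact hB'.isOpen (Set.mem_iUnion.mpr ⟨_, hV.1⟩)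
  · intro a u hau hu
    obtain ⟨U, hU, haU, hUu⟩ := hB.exists_subset_of_mem_open hau hu
    obtain ⟨V, hV, haV, hVU⟩ := hB'.exists_subset_of_mem_open haU (hB.isOpen hU)
    obtain ⟨n, hn⟩ := Set.mem_iUnion.mp hU
    obtain ⟨m, hm⟩ := Set.mem_iUnion.mp hV
    refine ⟨core (G m) U, Set.mem_iUnion.mpr ⟨Nat.pair n m, ?_⟩, ?_, ?_⟩
    · refine ⟨U, ?_, ?_⟩
      · simpa using hn
      · simp
    · exact ⟨V, ⟨hm, hVU⟩, haV⟩
    · exact (core_subset _ _).trans hUu

end Pool.Agent.S13321
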