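import Pool.Statements.S13356
import Mathlib

set_option autoImplicit false
open Pool Pool.MP_6e1b9b_gt

namespace Pool.Agent.S13356

/-! ### Real-valued formulas

Write `c = max y z`.  The map is `(x, y, z) ↦ (min c (2 t), min c (2 c - 2 t))`, where
`t = min c (2 |x - w c| + max 0 (z - phi c))`.  The point `(c, t)`, `0 ≤ t ≤ c ≤ 1`, is a pair of
`polar coordinates` on the square centred at the corner `(0, 0)`. -/

/-- An oscillating function with values in `[0, 1]`. -/
noncomputable def w (c : ℝ) : ℝ := (1 + Real.sin (1 / c)) / 2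

/-- A function with `0 ≤ phi c ≤ c` on `[0, 1]` whose zeros are `0` and `1 / √n`. -/
noncomputable def phi (c : ℝ) : ℝ := c * |Real.sin (Real.pi / c ^ 2)|

/-- The `angular` coordinate. -/
noncomputable def tt (x y z : ℝ) : ℝ :=
  min (max y z) (2 * |x - w (max y z)| + max 0 (z - phi (max y z)))

/-- First coordinate of the map. -/
noncomputable def uu (x y z : ℝ) : ℝ := min (max y z) (2 * tt x y z)

/-- Second coordinate of the map. -/
noncomputable def vv (x y z : ℝ) : ℝ := min (max y z) (2 * max y z - 2 * tt x y z)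

lemma w_mem (c : ℝ) : 0 ≤ w c ∧ w c ≤ 1 := by
  unfold w
  constructor <;> nlinarith [Real.neg_one_le_sin (1 / c), Real.sin_le_one (1 / c)]

lemma phi_mem {c : ℝ} (hc : 0 ≤ c) : 0 ≤ phi c ∧ phi c ≤ c := by
  unfold phi
  refine ⟨mul_nonneg hc (abs_nonneg _), ?_⟩
  have h : |Real.sin (Real.pi / c ^ 2)| ≤ 1 := Real.abs_sin_le_one _
  nlinarith

lemma tt_mem {x y z : ℝ} (hy : 0 ≤ y) : 0 ≤ tt x y z ∧ tt x y z ≤ max y z := by
  unfold tt
  refine ⟨le_min (le_max_of_le_left hy) ?_, min_le_left _ _⟩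
  have := abs_nonneg (x - w (max y z))
  have := le_max_left 0 (z - phi (max y z))
  linarith

lemma uu_mem {x y z : ℝ} (hy : 0 ≤ y) : 0 ≤ uu x y z ∧ uu x y z ≤ max y z := by
  have h := tt_mem (x := x) (z := z) hy
  unfold uu
  exact ⟨le_min (h.1.trans h.2) (by linarith [h.1]), min_le_left _ _⟩

lemma vv_mem {x y z : ℝ} (hy : 0 ≤ y) : 0 ≤ vv x y z ∧ vv x y z ≤ max y z := by
  have h := tt_mem (x := x) (z := z) hy
  unfold vv
  exact ⟨le_min (h.1.trans h.2) (by linarith [h.2]), min_le_left _ _⟩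

/-- The `polar coordinates` are determined by the value: if `0 ≤ t ≤ c`, then `(c, t)` is
determined by `(min c (2 t), min c (2 c - 2 t))`. -/
lemma polar_inj {c t c' t' : ℝ} (h1 : min c (2 * t) = min c' (2 * t'))
    (h2 : min c (2 * c - 2 * t) = min c' (2 * c' - 2 * t')) (_ht : 0 ≤ t) (_htc : t ≤ c)
    (_ht' : 0 ≤ t') (_htc' : t' ≤ c') : c = c' ∧ t = t' := by
  rcases le_total c (2 * t) with a | a <;> rcases le_total c (2 * c - 2 * t) with b | b <;>
  rcases le_total c' (2 * t') with a' | a' <;> rcases le_total c' (2 * c' - 2 * t') with b' | b' <;>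
  simp only [min_eq_left a, min_eq_right a, min_eq_left b, min_eq_right b, min_eq_left a',
    min_eq_right a', min_eq_left b', min_eq_right b'] at h1 h2 <;>
  constructor <;> linarith

/-! ### Continuity -/

lemma continuousAt_w {c : ℝ} (hc : c ≠ 0) : ContinuousAt w c := by
  unfold w
  fun_prop (disch := assumption)

lemma continuousAt_phi {c : ℝ} (hc : c ≠ 0) : ContinuousAt phi c := by
  unfold phi
  have : c ^ 2 ≠ 0 := pow_ne_zero 2 hc
  fun_prop (disch := assumption)


/-- The radial coordinate on the cube. -/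
noncomputable def CC (p : Fin 3 → unitInterval) : ℝ := max (p 1 : ℝ) (p 2)

/-- The angular coordinate on the cube. -/
noncomputable def TT (p : Fin 3 → unitInterval) : ℝ := tt (p 0) (p 1) (p 2)

lemma CC_mem (p : Fin 3 → unitInterval) : 0 ≤ CC p ∧ CC p ≤ 1 :=
  ⟨le_max_of_le_left (p 1).2.1, max_le (p 1).2.2 (p 2).2.2⟩

lemma TT_mem (p : Fin 3 → unitInterval) : 0 ≤ TT p ∧ TT p ≤ CC p :=
  tt_mem (p 1).2.1

lemma continuous_CC : Continuous CC := by
  unfold CC
  fun_prop

lemma continuous_TT : Continuous TT := by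
  rw [continuous_iff_continuousAt]
  intro p
  by_cases h : CC p = 0
  · have h0 : TT p = 0 := le_antisymm (h ▸ (TT_mem p).2) (TT_mem p).1
    unfold ContinuousAt
    rw [h0]
    have hC : Filter.Tendsto CC (nhds p) (nhds 0) := by
      have := continuous_CC.continuousAt (x := p)
      unfold ContinuousAt at this
      rwa [h] at this
    exact squeeze_zero (fun q => (TT_mem q).1) (fun q => (TT_mem q).2) hC
  · have hC : ContinuousAt CC p := continuous_CC.continuousAt
    have hw : ContinuousAt (fun q => w (CC q)) p :=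
      ContinuousAt.comp (f := CC) (continuousAt_w h) hC
    have hphi : ContinuousAt (fun q => phi (CC q)) p :=
      ContinuousAt.comp (f := CC) (continuousAt_phi h) hC
    have h0 : ContinuousAt (fun q : Fin 3 → unitInterval => ((q 0 : unitInterval) : ℝ)) p :=
      (continuous_subtype_val.comp (continuous_apply 0)).continuousAt
    have h2 : ContinuousAt (fun q : Fin 3 → unitInterval => ((q 2 : unitInterval) : ℝ)) p :=
      (continuous_subtype_val.comp (continuous_apply 2)).continuousAt
    have key : ContinuousAt (fun q : Fin 3 → unitInterval =>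
        min (CC q) (2 * |((q 0 : unitInterval) : ℝ) - w (CC q)|
          + max 0 (((q 2 : unitInterval) : ℝ) - phi (CC q)))) p := by
      refine hC.min (((h0.sub hw).abs.const_mul 2).add ?_)
      exact continuousAt_const.max (h2.sub hphi)
    exact key

/-- The map of the cube onto the square. -/
noncomputable def F : C(Fin 3 → unitInterval, Fin 2 → unitInterval) where
  toFun p := ![⟨min (CC p) (2 * TT p), le_min (CC_mem p).1 (by linarith [(TT_mem p).1]),
      (min_le_left _ _).trans (CC_mem p).2⟩,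
    ⟨min (CC p) (2 * CC p - 2 * TT p), le_min (CC_mem p).1 (by linarith [(TT_mem p).2]),
      (min_le_left _ _).trans (CC_mem p).2⟩]
  continuous_toFun := by
    have h1 := continuous_CC
    have h2 := continuous_TT
    refine continuous_pi fun i => ?_
    fin_cases i
    · exact Continuous.subtype_mk (h1.min (h2.const_mul 2)) _
    · exact Continuous.subtype_mk (h1.min ((h1.const_mul 2).sub (h2.const_mul 2))) _

lemma F_zero (p : Fin 3 → unitInterval) : ((F p 0 : unitInterval) : ℝ) = min (CC p) (2 * TT p) :=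
  rfl

lemma F_one (p : Fin 3 → unitInterval) :
    ((F p 1 : unitInterval) : ℝ) = min (CC p) (2 * CC p - 2 * TT p) :=
  rfl

lemma F_eq_iff (p q : Fin 3 → unitInterval) : F p = F q ↔ CC p = CC q ∧ TT p = TT q := by
  constructor
  · intro h
    have h0 : ((F p 0 : unitInterval) : ℝ) = (F q 0 : unitInterval) := by rw [h]
    have h1 : ((F p 1 : unitInterval) : ℝ) = (F q 1 : unitInterval) := by rw [h]
    rw [F_zero, F_zero] at h0
    rw [F_one, F_one] at h1
    exact polar_inj h0 h1 (TT_mem p).1 (TT_mem p).2 (TT_mem q).1 (TT_mem q).2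
  · rintro ⟨h1, h2⟩
    funext i
    apply Subtype.ext
    fin_cases i
    · change ((F p 0 : unitInterval) : ℝ) = (F q 0 : unitInterval)
      rw [F_zero, F_zero, h1, h2]
    · change ((F p 1 : unitInterval) : ℝ) = (F q 1 : unitInterval)
      rw [F_one, F_one, h1, h2]

/-- For `0 ≤ t ≤ 1` there is a point of `[0, 1]` at distance `t / 2` from `w c`. -/
lemma exists_x (c : ℝ) {t : ℝ} (ht0 : 0 ≤ t) (ht1 : t ≤ 1) :
    ∃ x : unitInterval, |(x : ℝ) - w c| = t / 2 := by
  obtain ⟨h0, h1⟩ := w_mem c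
  rcases le_total (w c) (1 / 2) with h | h
  · refine ⟨⟨w c + t / 2, by linarith, by linarith⟩, ?_⟩
    have : w c + t / 2 - w c = t / 2 := by ring
    simp only [this]
    exact abs_of_nonneg (by linarith)
  · refine ⟨⟨w c - t / 2, by linarith, by linarith⟩, ?_⟩
    have : w c - t / 2 - w c = -(t / 2) := by ring
    simp only [this, abs_neg]
    exact abs_of_nonneg (by linarith)

lemma CC_mk (x y z : unitInterval) : CC ![x, y, z] = max (y : ℝ) z := rfl

lemma TT_mk (x y z : unitInterval) : TT ![x, y, z] = tt x y z := rfl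

lemma eval0 {x c : unitInterval} {t : ℝ} (_ht : 0 ≤ t) (htc : t ≤ c)
    (hx : |(x : ℝ) - w c| = t / 2) : CC ![x, c, 0] = c ∧ TT ![x, c, 0] = t := by
  have hc : max (c : ℝ) ((0 : unitInterval) : ℝ) = c := max_eq_left c.2.1
  refine ⟨by rw [CC_mk, hc], ?_⟩
  rw [TT_mk, tt, hc, hx]
  have h : max 0 (((0 : unitInterval) : ℝ) - phi c) = 0 := by
    have := (phi_mem c.2.1).1
    apply max_eq_left
    simpa using this
  rw [h, min_eq_right (by linarith)]
  ring

lemma eval1 {x c : unitInterval} {t : ℝ} (_ht : 0 ≤ t) (htc : t ≤ c)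
    (hx : |(x : ℝ) - w c| = t / 2) (z : unitInterval) (hz : (z : ℝ) = phi c) :
    CC ![x, c, z] = c ∧ TT ![x, c, z] = t := by
  have hc : max (c : ℝ) (z : ℝ) = c := max_eq_left (by rw [hz]; exact (phi_mem c.2.1).2)
  refine ⟨by rw [CC_mk, hc], ?_⟩
  rw [TT_mk, tt, hc, hx, hz]
  have h : max 0 (phi c - phi c) = 0 := by simp
  rw [h, min_eq_right (by linarith)]
  ring

lemma eval2 {x c z : unitInterval} (hzc : (z : ℝ) ≤ c)
    (hx : (x : ℝ) = w c) (hphi : phi c = 0) :
    CC ![x, c, z] = c ∧ TT ![x, c, z] = z := by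
  have hc : max (c : ℝ) (z : ℝ) = c := max_eq_left hzc
  refine ⟨by rw [CC_mk, hc], ?_⟩
  rw [TT_mk, tt, hc, hx, hphi]
  have h : max 0 ((z : ℝ) - 0) = z := by
    rw [sub_zero]
    exact max_eq_right z.2.1
  rw [h, sub_self, abs_zero, mul_zero, zero_add]
  exact min_eq_right hzc

lemma F_surjective : Function.Surjective F := by
  intro q
  set a : ℝ := ((q 0 : unitInterval) : ℝ) with ha
  set b : ℝ := ((q 1 : unitInterval) : ℝ) with hb
  have ha0 : 0 ≤ a := (q 0).2.1
  have hb0 : 0 ≤ b := (q 1).2.1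
  have ha1 : a ≤ 1 := (q 0).2.2
  have hb1 : b ≤ 1 := (q 1).2.2
  set c : unitInterval := ⟨max a b, le_max_of_le_left ha0, max_le ha1 hb1⟩ with hc
  have hcv : (c : ℝ) = max a b := rfl
  set t : ℝ := (c + a - b) / 2 with ht
  have hac : a ≤ c := le_max_left _ _
  have hbc : b ≤ c := le_max_right _ _
  have ht0 : 0 ≤ t := by rw [ht]; linarith
  have htc : t ≤ c := by rw [ht]; linarith
  obtain ⟨x, hx⟩ := exists_x c ht0 (htc.trans c.2.2)
  obtain ⟨h1, h2⟩ := eval0 ht0 htc hx
  refine ⟨![x, c, 0], ?_⟩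
  funext i
  apply Subtype.ext
  rcases le_total a b with hab | hab
  · have hcb : (c : ℝ) = b := by rw [hcv]; exact max_eq_right hab
    fin_cases i
    · change ((F ![x, c, 0] 0 : unitInterval) : ℝ) = a
      rw [F_zero, h1, h2, min_eq_right (by rw [ht]; linarith)]
      rw [ht]; linarith
    · change ((F ![x, c, 0] 1 : unitInterval) : ℝ) = b
      rw [F_one, h1, h2, min_eq_left (by rw [ht]; linarith)]
      linarith
  · have hca : (c : ℝ) = a := by rw [hcv]; exact max_eq_left hab
    fin_cases i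
    · change ((F ![x, c, 0] 0 : unitInterval) : ℝ) = a
      rw [F_zero, h1, h2, min_eq_left (by rw [ht]; linarith)]
      linarith
    · change ((F ![x, c, 0] 1 : unitInterval) : ℝ) = b
      rw [F_one, h1, h2, min_eq_right (by rw [ht]; linarith)]
      rw [ht]; linarith

/-- Points over which `F` is one-to-one have the form `(w c, c, 0)` with `c > 0`, `phi c = 0`. -/
lemma unique_form (p : Fin 3 → unitInterval) (hp : ∀ q, F q = F p → q = p) :
    0 < ((p 1 : unitInterval) : ℝ) ∧ phi (p 1) = 0 ∧ ((p 0 : unitInterval) : ℝ) = w (p 1) ∧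
      p 2 = 0 := by
  have hC := CC_mem p
  have hT := TT_mem p
  have hne : CC p ≠ 0 := by
    intro h
    have hT0 : TT p = 0 := le_antisymm (h ▸ hT.2) hT.1
    have e0 : ∀ x : unitInterval, ![x, 0, 0] = p := by
      intro x
      apply hp
      rw [F_eq_iff, h, hT0]
      have hc0 : CC ![x, 0, 0] = 0 := by rw [CC_mk]; simp
      refine ⟨hc0, ?_⟩
      have := TT_mem ![x, 0, 0]
      rw [hc0] at this
      exact le_antisymm this.2 this.1
    have h01 : (![0, 0, 0] : Fin 3 → unitInterval) = ![1, 0, 0] := by rw [e0, e0]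
    have := congrFun h01 0
    simp at this
  have hpos : 0 < CC p := lt_of_le_of_ne hC.1 (Ne.symm hne)
  set c : unitInterval := ⟨CC p, hC⟩ with hc
  have hcv : (c : ℝ) = CC p := rfl
  have htc : TT p ≤ c := hT.2
  obtain ⟨x, hx⟩ := exists_x c hT.1 (htc.trans c.2.2)
  obtain ⟨h1, h2⟩ := eval0 hT.1 htc hx
  have hphi0 := (phi_mem c.2.1).1
  have hphi1 := (phi_mem c.2.1).2
  set z : unitInterval := ⟨phi c, hphi0, hphi1.trans c.2.2⟩ with hz
  obtain ⟨h3, h4⟩ := eval1 hT.1 htc hx z rfl
  have e1 : ![x, c, 0] = p := hp _ (by rw [F_eq_iff, h1, h2]; exact ⟨rfl, rfl⟩)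
  have e2 : ![x, c, z] = p := hp _ (by rw [F_eq_iff, h3, h4]; exact ⟨rfl, rfl⟩)
  have hz0 : z = 0 := by
    have := congrFun (e2.trans e1.symm) 2
    simpa using this
  have hphi : phi c = 0 := by
    have := congrArg Subtype.val hz0
    simpa [hz] using this
  set x' : unitInterval := ⟨w c, w_mem c⟩ with hx'
  set t' : unitInterval := ⟨TT p, hT.1, hT.2.trans hC.2⟩ with ht'
  obtain ⟨h5, h6⟩ := eval2 (x := x') (c := c) (z := t') hT.2 rfl hphi
  have e3 : ![x', c, t'] = p := hp _ (by rw [F_eq_iff, h5, h6]; exact ⟨rfl, rfl⟩)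
  have hp0 : p 0 = x' := by rw [← e3]; rfl
  have hp1 : p 1 = c := by rw [← e3]; rfl
  have hp2 : p 2 = 0 := by rw [← e1]; rfl
  rw [hp0, hp1, hp2]
  exact ⟨hpos, hphi, rfl, rfl⟩

lemma phi_zero_range {c : ℝ} (hc : 0 < c) (h : phi c = 0) :
    c ∈ Set.range (fun n : ℤ => 1 / Real.sqrt n) := by
  unfold phi at h
  rcases mul_eq_zero.1 h with h | h
  · exact absurd h hc.ne'
  rw [abs_eq_zero, Real.sin_eq_zero_iff] at h
  obtain ⟨n, hn⟩ := h
  refine ⟨n, ?_⟩
  have hc2 : 0 < c ^ 2 := by positivity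
  have hn' : (n : ℝ) = 1 / c ^ 2 := by
    have hpi := Real.pi_pos
    field_simp at hn ⊢
    nlinarith
  change 1 / Real.sqrt (n : ℝ) = c
  rw [hn', Real.sqrt_div' _ hc2.le, Real.sqrt_one, Real.sqrt_sq hc.le]
  simp

lemma countable_unique :
    {p : Fin 3 → unitInterval | ∀ q, F q = F p → q = p}.Countable := by
  have hinj : Set.InjOn (fun p : Fin 3 → unitInterval => ((p 1 : unitInterval) : ℝ))
      {p : Fin 3 → unitInterval | ∀ q, F q = F p → q = p} := by
    intro p hp q hq hpq
    obtain ⟨-, -, hp0, hp2⟩ := unique_form p hp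
    obtain ⟨-, -, hq0, hq2⟩ := unique_form q hq
    have hpq1 : p 1 = q 1 := Subtype.ext hpq
    have hpq0 : p 0 = q 0 := Subtype.ext (by rw [hp0, hq0, hpq1])
    funext i
    fin_cases i
    · exact hpq0
    · exact hpq1
    · exact hp2.trans hq2.symm
  refine Set.countable_of_injective_of_countable_image hinj ?_
  apply (Set.countable_range (fun n : ℤ => 1 / Real.sqrt n)).mono
  rintro _ ⟨p, hp, rfl⟩
  obtain ⟨h1, h2, -, -⟩ := unique_form p hp
  exact phi_zero_range h1 h2

/-- Every closed set mapped onto the square contains the edge `{(a, 0, 0)}` of the cube. -/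
lemma edge_mem (K : Set (Fin 3 → unitInterval)) (hK : IsClosed K) (hFK : F '' K = Set.univ)
    (a : unitInterval) : ![a, 0, 0] ∈ K := by
  -- the points of one-to-one-ness
  have hmem : ∀ (c : unitInterval), 0 < (c : ℝ) → phi c = 0 →
      ![(⟨w c, w_mem c⟩ : unitInterval), c, 0] ∈ K := by
    intro c hc hphi
    set x : unitInterval := ⟨w c, w_mem c⟩ with hx
    obtain ⟨h1, h2⟩ := eval2 (x := x) (c := c) (z := 0) c.2.1 rfl hphi
    have hin : F ![x, c, 0] ∈ F '' K := by rw [hFK]; trivial
    obtain ⟨q, hqK, hq⟩ := hin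
    rw [F_eq_iff, h1, h2] at hq
    obtain ⟨hqC, hqT⟩ := hq
    have hqC' : max ((q 1 : unitInterval) : ℝ) (q 2) = c := hqC
    have hqT' : tt (q 0) (q 1) (q 2) = 0 := hqT
    rw [tt, hqC', hphi, sub_zero, max_eq_right (q 2).2.1] at hqT'
    have hn := abs_nonneg (((q 0 : unitInterval) : ℝ) - w c)
    have hz := (q 2).2.1
    have hsum : 2 * |((q 0 : unitInterval) : ℝ) - w c| + ((q 2 : unitInterval) : ℝ) = 0 := by
      rcases min_choice (c : ℝ)
        (2 * |((q 0 : unitInterval) : ℝ) - w c| + ((q 2 : unitInterval) : ℝ)) with h | h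
      · rw [h] at hqT'
        exact absurd hqT' hc.ne'
      · rw [h] at hqT'
        exact hqT'
    have h2' : ((q 2 : unitInterval) : ℝ) = 0 := by linarith
    have h0' : ((q 0 : unitInterval) : ℝ) = w c := by
      have : |((q 0 : unitInterval) : ℝ) - w c| = 0 := by linarith
      rw [abs_eq_zero] at this
      linarith
    have h1' : ((q 1 : unitInterval) : ℝ) = c := by
      rw [h2', max_eq_left (q 1).2.1] at hqC'
      exact hqC'
    have : q = ![x, c, 0] := by
      funext i
      apply Subtype.ext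
      fin_cases i
      · exact h0'
      · exact h1'
      · exact h2'
    rwa [← this]
  -- a sequence of such points converging to `(a, 0, 0)`
  set θ : ℝ := Real.arcsin (2 * a - 1) with hθ
  have ha0 : -1 ≤ 2 * (a : ℝ) - 1 := by linarith [a.2.1]
  have ha1 : 2 * (a : ℝ) - 1 ≤ 1 := by linarith [a.2.2]
  have hsinθ : Real.sin θ = 2 * a - 1 := Real.sin_arcsin ha0 ha1
  have hθ0 : -(Real.pi / 2) ≤ θ := Real.neg_pi_div_two_le_arcsin _
  have hpi := Real.pi_gt_three
  let s : ℕ → ℝ := fun k => θ + ((k : ℝ) + 1) * (2 * Real.pi)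
  have hs_lb : ∀ k : ℕ, (k : ℝ) + 1 ≤ s k := by
    intro k
    have hk : (0 : ℝ) ≤ k := Nat.cast_nonneg k
    change (k : ℝ) + 1 ≤ θ + ((k : ℝ) + 1) * (2 * Real.pi)
    nlinarith
  have hs1 : ∀ k : ℕ, 1 ≤ s k := fun k => by
    have hk : (0 : ℝ) ≤ k := Nat.cast_nonneg k
    linarith [hs_lb k]
  have hsinS : ∀ k : ℕ, Real.sin (s k) = 2 * a - 1 := by
    intro k
    have : s k = θ + ((k + 1 : ℕ) : ℝ) * (2 * Real.pi) := by
      change θ + ((k : ℝ) + 1) * (2 * Real.pi) = _
      push_cast
      ring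
    rw [this, Real.sin_add_nat_mul_two_pi, hsinθ]
  let n : ℕ → ℕ := fun k => ⌈(s k) ^ 2⌉₊
  have hn_lb : ∀ k : ℕ, (s k) ^ 2 ≤ n k := fun k => Nat.le_ceil _
  have hn_ub : ∀ k : ℕ, (n k : ℝ) < (s k) ^ 2 + 1 := fun k => Nat.ceil_lt_add_one (by positivity)
  let r : ℕ → ℝ := fun k => Real.sqrt (n k)
  have hrs : ∀ k : ℕ, s k ≤ r k := by
    intro k
    have h1 := hs1 k
    change s k ≤ Real.sqrt (n k)
    exact Real.le_sqrt_of_sq_le (hn_lb k)
  have hr1 : ∀ k : ℕ, 1 ≤ r k := fun k => (hs1 k).trans (hrs k)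
  have hrpos : ∀ k : ℕ, 0 < r k := fun k => lt_of_lt_of_le one_pos (hr1 k)
  have hrsq : ∀ k : ℕ, r k ^ 2 = n k := fun k => Real.sq_sqrt (Nat.cast_nonneg _)
  have hrs_ub : ∀ k : ℕ, r k - s k ≤ 1 / ((k : ℝ) + 1) := by
    intro k
    have hk : (0 : ℝ) ≤ k := Nat.cast_nonneg k
    have h1 := hrsq k
    have h2 := hn_ub k
    have h3 := hrs k
    have h4 := hs_lb k
    have h5 : (r k - s k) * (r k + s k) < 1 := by nlinarith
    rw [le_div_iff₀ (by linarith)]
    have h6 : 0 ≤ r k - s k := by linarith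
    nlinarith
  let c : ℕ → unitInterval := fun k => ⟨1 / r k, by
    have := hrpos k
    positivity, by
    rw [div_le_one (hrpos k)]
    exact hr1 k⟩
  have hcv : ∀ k, ((c k : unitInterval) : ℝ) = 1 / r k := fun k => rfl
  have hcpos : ∀ k, 0 < ((c k : unitInterval) : ℝ) := fun k => by
    rw [hcv]
    have := hrpos k
    positivity
  have hphic : ∀ k, phi (c k) = 0 := by
    intro k
    have hr := hrpos k
    have : Real.pi / ((c k : unitInterval) : ℝ) ^ 2 = (n k : ℝ) * Real.pi := by
      rw [hcv, ← hrsq]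
      field_simp
    unfold phi
    rw [this, Real.sin_nat_mul_pi, abs_zero, mul_zero]
  have hwc : ∀ k, w (c k) = (1 + Real.sin (r k)) / 2 := by
    intro k
    unfold w
    rw [hcv, one_div_one_div]
  have hlim0 : Filter.Tendsto (fun k : ℕ => 1 / ((k : ℝ) + 1)) Filter.atTop (nhds 0) :=
    tendsto_one_div_add_atTop_nhds_zero_nat
  have hclim : Filter.Tendsto (fun k => ((c k : unitInterval) : ℝ)) Filter.atTop (nhds 0) := by
    refine squeeze_zero (fun k => (hcpos k).le) (fun k => ?_) hlim0
    rw [hcv]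
    have hk : (0 : ℝ) ≤ k := Nat.cast_nonneg k
    exact one_div_le_one_div_of_le (by linarith) ((hs_lb k).trans (hrs k))
  have hwlim : Filter.Tendsto (fun k => w (c k)) Filter.atTop (nhds (a : ℝ)) := by
    have hdist : ∀ k, dist (w (c k)) (a : ℝ) ≤ 1 / ((k : ℝ) + 1) := by
      intro k
      rw [hwc, Real.dist_eq]
      have e : (1 + Real.sin (r k)) / 2 - (a : ℝ) = (Real.sin (r k) - Real.sin (s k)) / 2 := by
        rw [hsinS]
        ring
      rw [e, abs_div, abs_two]
      have h1 : |Real.sin (r k) - Real.sin (s k)| ≤ |r k - s k| := by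
        have := Real.lipschitzWith_sin.dist_le_mul (r k) (s k)
        simpa [Real.dist_eq] using this
      have h2 : |r k - s k| = r k - s k := abs_of_nonneg (by linarith [hrs k])
      have h3 := hrs_ub k
      have h4 := hrs k
      linarith
    rw [tendsto_iff_dist_tendsto_zero]
    exact squeeze_zero (fun k => dist_nonneg) hdist hlim0
  have hlim : Filter.Tendsto (fun k => (![(⟨w (c k), w_mem (c k)⟩ : unitInterval), c k, 0] :
      Fin 3 → unitInterval)) Filter.atTop (nhds ![a, 0, 0]) := by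
    rw [tendsto_pi_nhds]
    intro i
    rw [tendsto_subtype_rng]
    fin_cases i
    · exact hwlim
    · exact hclim
    · exact tendsto_const_nhds
  exact hK.mem_of_tendsto hlim (Filter.Eventually.of_forall fun k => hmem (c k) (hcpos k) (hphic k))

/-- The negation of the preceding statement: For every continuous surjection f from the cube onto the square, if the set of points whose fiber is just themselves is totally disconnected, then some closed totally disconnected subset of the cube is mapped by f onto the whole square. -/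
theorem result :
    ¬ (∀ f : C(Fin 3 → unitInterval, Fin 2 → unitInterval),
      Function.Surjective f →
      IsTotallyDisconnected {x : Fin 3 → unitInterval | ∀ y, f y = f x → y = x} →
      ∃ K : Set (Fin 3 → unitInterval),
        IsClosed K ∧ IsTotallyDisconnected K ∧ f '' K = Set.univ) := by
  intro h
  obtain ⟨K, hKc, hKtd, hKF⟩ := h F F_surjective countable_unique.isTotallyDisconnected
  have hL : Set.range (fun a : unitInterval => (![a, 0, 0] : Fin 3 → unitInterval)) ⊆ K := by
    rintro _ ⟨a, rfl⟩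
    exact edge_mem K hKc hKF a
  have hpre : IsPreconnected
      (Set.range (fun a : unitInterval => (![a, 0, 0] : Fin 3 → unitInterval))) := by
    apply isPreconnected_range
    refine continuous_pi fun i => ?_
    fin_cases i
    · exact continuous_id
    · exact continuous_const
    · exact continuous_const
  have hsub := hKtd _ hL hpre
  have h01 : (![0, 0, 0] : Fin 3 → unitInterval) = ![1, 0, 0] :=
    hsub ⟨0, rfl⟩ ⟨1, rfl⟩
  have := congrFun h01 0
  simp at this

end Pool.Agent.S13356
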