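import Pool.Statements.S14180

set_option autoImplicit false
open Topology Pointwise
open Pool Pool.MP_ede847_gt

namespace Pool.Agent.S14180

/-- The poset of positive bounded real sequences, with the pointwise order. -/
abbrev X : Type := {f : ℕ → ℝ // (∀ n, 0 < f n) ∧ ∃ M : ℝ, ∀ n, f n ≤ M}

/-- The group: all order automorphisms of `X`. -/
abbrev G : Type := X ≃o X

/-- The basic neighbourhoods of the identity. -/
def U (s : Finset X) : Set G := {g | ∀ a ∈ s, a ≤ g a}

/-- The paratopological group topology on `G`: a set is open when with each `g` it contains a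
translate `g * U s`. -/
@[reducible] def topG : TopologicalSpace G where
  IsOpen O := ∀ g ∈ O, ∃ s : Finset X, ∀ u ∈ U s, g * u ∈ O
  isOpen_univ := fun g _ => ⟨∅, fun _ _ => Set.mem_univ _⟩
  isOpen_inter := by
    classical
    intro O₁ O₂ h₁ h₂ g hg
    obtain ⟨s, hs⟩ := h₁ g hg.1
    obtain ⟨t, ht⟩ := h₂ g hg.2
    refine ⟨s ∪ t, fun u hu => ⟨hs u ?_, ht u ?_⟩⟩
    · intro a ha
      exact hu a (Finset.mem_union_left _ ha)
    · intro a ha
      exact hu a (Finset.mem_union_right _ ha)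
  isOpen_sUnion := by
    intro S hS g hg
    obtain ⟨O, hO, hgO⟩ := hg
    obtain ⟨s, hs⟩ := hS O hO g hgO
    exact ⟨s, fun u hu => ⟨O, hO, hs u hu⟩⟩

theorem isOpen_iff (O : Set G) :
    IsOpen[topG] O ↔ ∀ g ∈ O, ∃ s : Finset X, ∀ u ∈ U s, g * u ∈ O := Iff.rfl

theorem mul_mem_U {s : Finset X} {g h : G} (hg : g ∈ U s) (hh : h ∈ U s) : g * h ∈ U s := by
  intro a ha
  have h1 : a ≤ g a := hg a ha
  have h2 : g a ≤ g (h a) := g.monotone (hh a ha)
  exact le_trans h1 h2

theorem one_mem_U (s : Finset X) : (1 : G) ∈ U s := fun a _ => le_refl a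

theorem isOpen_translate (g : G) (s : Finset X) : IsOpen[topG] {x : G | g⁻¹ * x ∈ U s} := by
  rw [isOpen_iff]
  intro x hx
  refine ⟨s, fun u hu => ?_⟩
  have : g⁻¹ * (x * u) = (g⁻¹ * x) * u := by group
  change g⁻¹ * (x * u) ∈ U s
  rw [this]
  exact mul_mem_U hx hu

theorem continuousMul_topG : @ContinuousMul G topG _ := by
  classical
  let _ := topG
  refine ⟨?_⟩
  rw [continuous_def]
  intro O hO
  rw [isOpen_prod_iff]
  intro g h hgh
  obtain ⟨s, hs⟩ := (isOpen_iff O).1 hO (g * h) hgh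
  refine ⟨{x : G | g⁻¹ * x ∈ U (s.image (fun a => h a))}, {x : G | h⁻¹ * x ∈ U s},
    isOpen_translate _ _, isOpen_translate _ _, ?_, ?_, ?_⟩
  · change g⁻¹ * g ∈ U _
    rw [inv_mul_cancel]; exact one_mem_U _
  · change h⁻¹ * h ∈ U _
    rw [inv_mul_cancel]; exact one_mem_U _
  · rintro ⟨x, y⟩ ⟨hx, hy⟩
    have hx' : g⁻¹ * x ∈ U (s.image (fun a => h a)) := hx
    have hy' : h⁻¹ * y ∈ U s := hy
    have key : (h⁻¹ * (g⁻¹ * x) * h) * (h⁻¹ * y) ∈ U s := by
      apply mul_mem_U _ hy'
      intro a ha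
      have h1 : h a ≤ (g⁻¹ * x) (h a) := hx' (h a) (Finset.mem_image_of_mem _ ha)
      have h2 : h⁻¹ (h a) ≤ h⁻¹ ((g⁻¹ * x) (h a)) := (h⁻¹).monotone h1
      have h3 : h⁻¹ (h a) = a := RelIso.inv_apply_self h a
      rw [h3] at h2
      exact h2
    have := hs _ key
    have e : g * h * ((h⁻¹ * (g⁻¹ * x) * h) * (h⁻¹ * y)) = x * y := by group
    rw [e] at this
    exact this

theorem mem_nhds_one_iff (V : Set G) :
    V ∈ @nhds G topG 1 ↔ ∃ s : Finset X, U s ⊆ V := by
  let _ := topG
  rw [mem_nhds_iff]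
  constructor
  · rintro ⟨O, hOV, hO, h1⟩
    obtain ⟨s, hs⟩ := (isOpen_iff O).1 hO 1 h1
    exact ⟨s, fun u hu => hOV (by simpa using hs u hu)⟩
  · rintro ⟨s, hs⟩
    refine ⟨U s, hs, ?_, one_mem_U s⟩
    have := isOpen_translate 1 s
    simpa using this

/-- The order automorphism of `X` which sends the sequence `a` (with values at most `1`) to the
constant sequence `1`. -/
noncomputable def phi (a : ℕ → ℝ) (ha : ∀ n, 0 < a n) (ha1 : ∀ n, a n ≤ 1) : G where
  toFun f := ⟨fun n => min (f.1 n / a n) (f.1 n + 1 - a n), by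
    constructor
    · intro n
      have h1 := f.2.1 n
      have h2 := ha n
      have h3 := ha1 n
      exact lt_min (by positivity) (by linarith)
    · obtain ⟨M, hM⟩ := f.2.2
      refine ⟨M + 1, fun n => ?_⟩
      have h1 := hM n
      have h2 := ha n
      exact le_trans (min_le_right _ _) (by linarith)⟩
  invFun f := ⟨fun n => max (a n * f.1 n) (f.1 n - 1 + a n), by
    constructor
    · intro n
      have h1 := f.2.1 n
      have h2 := ha n
      exact lt_max_of_lt_left (by positivity)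
    · obtain ⟨M, hM⟩ := f.2.2
      refine ⟨M, fun n => ?_⟩
      have h0 := f.2.1 n
      have h1 := hM n
      have h2 := ha n
      have h3 := ha1 n
      exact max_le (by nlinarith) (by linarith)⟩
  left_inv f := by
    apply Subtype.ext
    funext n
    have h0 := f.2.1 n
    have h2 := ha n
    have h3 := ha1 n
    change max (a n * min (f.1 n / a n) (f.1 n + 1 - a n))
      (min (f.1 n / a n) (f.1 n + 1 - a n) - 1 + a n) = f.1 n
    have hx : a n * (f.1 n / a n) = f.1 n := by field_simp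
    rcases le_total (f.1 n) (a n) with h | h
    · have h4 : f.1 n / a n ≤ f.1 n + 1 - a n := by
        rw [div_le_iff₀ h2]; nlinarith
      rw [min_eq_left h4, hx]
      apply max_eq_left
      linarith
    · have h4 : f.1 n + 1 - a n ≤ f.1 n / a n := by
        rw [le_div_iff₀ h2]; nlinarith
      rw [min_eq_right h4]
      rw [max_eq_right (by nlinarith)]
      ring
  right_inv f := by
    apply Subtype.ext
    funext n
    have h0 := f.2.1 n
    have h2 := ha n
    have h3 := ha1 n
    change min (max (a n * f.1 n) (f.1 n - 1 + a n) / a n)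
      (max (a n * f.1 n) (f.1 n - 1 + a n) + 1 - a n) = f.1 n
    rcases le_total (f.1 n) 1 with h | h
    · have h4 : f.1 n - 1 + a n ≤ a n * f.1 n := by nlinarith
      rw [max_eq_left h4, mul_div_cancel_left₀ _ h2.ne']
      apply min_eq_left
      linarith
    · have h4 : a n * f.1 n ≤ f.1 n - 1 + a n := by nlinarith
      rw [max_eq_right h4]
      rw [min_eq_right]
      · ring
      · rw [le_div_iff₀ h2]; nlinarith
  map_rel_iff' := by
    intro f g
    constructor
    · intro h n
      have h2 := ha n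
      have h3 := ha1 n
      have h4 : min (f.1 n / a n) (f.1 n + 1 - a n) ≤ min (g.1 n / a n) (g.1 n + 1 - a n) := h n
      by_contra hlt
      push Not at hlt
      have h5 : g.1 n < f.1 n := hlt
      have h6 : g.1 n / a n < f.1 n / a n := by
        rw [div_lt_div_iff_of_pos_right h2]; exact h5
      have h7 : g.1 n + 1 - a n < f.1 n + 1 - a n := by linarith
      have h8 : min (g.1 n / a n) (g.1 n + 1 - a n) < min (f.1 n / a n) (f.1 n + 1 - a n) :=
        lt_min (lt_of_le_of_lt (min_le_left _ _) h6) (lt_of_le_of_lt (min_le_right _ _) h7)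
      exact absurd h4 (not_le.mpr h8)
    · intro h n
      have h2 := ha n
      have h5 : f.1 n ≤ g.1 n := h n
      change min (f.1 n / a n) (f.1 n + 1 - a n) ≤ min (g.1 n / a n) (g.1 n + 1 - a n)
      apply min_le_min
      · rw [div_le_div_iff_of_pos_right h2]; exact h5
      · linarith

theorem phi_apply (a : X) (ha1 : ∀ n, a.1 n ≤ 1) :
    phi a.1 a.2.1 ha1 a = ⟨fun _ => 1, fun _ => one_pos, 1, fun _ => le_refl _⟩ := by
  apply Subtype.ext
  funext n
  have h2 := a.2.1 n
  change min (a.1 n / a.1 n) (a.1 n + 1 - a.1 n) = 1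
  rw [div_self h2.ne']
  simp

/-- Scaling by a positive constant. -/
noncomputable def scale (c : ℝ) (hc : 0 < c) : G where
  toFun f := ⟨fun n => c * f.1 n, fun n => mul_pos hc (f.2.1 n), by
    obtain ⟨M, hM⟩ := f.2.2
    exact ⟨c * M, fun n => mul_le_mul_of_nonneg_left (hM n) hc.le⟩⟩
  invFun f := ⟨fun n => c⁻¹ * f.1 n, fun n => mul_pos (inv_pos.2 hc) (f.2.1 n), by
    obtain ⟨M, hM⟩ := f.2.2
    exact ⟨c⁻¹ * M, fun n => mul_le_mul_of_nonneg_left (hM n) (inv_pos.2 hc).le⟩⟩
  left_inv f := by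
    apply Subtype.ext
    funext n
    change c⁻¹ * (c * f.1 n) = f.1 n
    field_simp
  right_inv f := by
    apply Subtype.ext
    funext n
    change c * (c⁻¹ * f.1 n) = f.1 n
    field_simp
  map_rel_iff' := by
    intro f g
    constructor
    · intro h n
      exact le_of_mul_le_mul_left (h n) hc
    · intro h n
      exact mul_le_mul_of_nonneg_left (h n) hc.le

/-- Every element of `X` can be moved above every constant by an automorphism. -/
theorem exists_raise (a : X) (k : ℕ) : ∃ g : G, ∀ n, (k : ℝ) ≤ (g a).1 n := by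
  obtain ⟨M, hM⟩ := a.2.2
  have hM0 : 0 < M := lt_of_lt_of_le (a.2.1 0) (hM 0)
  have hb1 : ∀ n, (scale M⁻¹ (inv_pos.2 hM0) a).1 n ≤ 1 := by
    intro n
    change M⁻¹ * a.1 n ≤ 1
    rw [inv_mul_le_iff₀ hM0]
    simpa using hM n
  refine ⟨scale (k + 1) (by positivity) * (phi _ (scale M⁻¹ (inv_pos.2 hM0) a).2.1 hb1 *
    scale M⁻¹ (inv_pos.2 hM0)), fun n => ?_⟩
  have e : (scale (k + 1) (by positivity) * (phi _ (scale M⁻¹ (inv_pos.2 hM0) a).2.1 hb1 *
    scale M⁻¹ (inv_pos.2 hM0)) : G) a = scale (k + 1) (by positivity)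
      ⟨fun _ => 1, fun _ => one_pos, 1, fun _ => le_refl _⟩ := by
    rw [← phi_apply _ hb1]
    rfl
  rw [e]
  change (k : ℝ) ≤ (k + 1) * 1
  linarith

/-- The constant sequence `1`. -/
def oneX : X := ⟨fun _ => 1, fun _ => one_pos, 1, fun _ => le_refl _⟩

theorem exists_lower (s : Finset X) : ∃ m : X, ∀ a ∈ s, m ≤ a := by
  classical
  induction s using Finset.induction_on with
  | empty => exact ⟨oneX, by simp⟩
  | insert a s _ ih =>
    obtain ⟨m, hm⟩ := ih
    obtain ⟨M, hM⟩ := a.2.2
    refine ⟨⟨fun n => min (a.1 n) (m.1 n), fun n => lt_min (a.2.1 n) (m.2.1 n), M,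
      fun n => le_trans (min_le_left _ _) (hM n)⟩, ?_⟩
    intro b hb
    rcases Finset.mem_insert.1 hb with rfl | hb
    · exact fun n => min_le_left _ _
    · exact fun n => le_trans (min_le_right _ _) (hm b hb n)

theorem exists_upper (s : Finset X) : ∃ m : X, ∀ a ∈ s, a ≤ m := by
  classical
  induction s using Finset.induction_on with
  | empty => exact ⟨oneX, by simp⟩
  | insert a s _ ih =>
    obtain ⟨m, hm⟩ := ih
    obtain ⟨M, hM⟩ := a.2.2
    obtain ⟨M', hM'⟩ := m.2.2
    refine ⟨⟨fun n => max (a.1 n) (m.1 n), fun n => lt_max_of_lt_left (a.2.1 n), max M M',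
      fun n => max_le_max (hM n) (hM' n)⟩, ?_⟩
    intro b hb
    rcases Finset.mem_insert.1 hb with rfl | hb
    · exact fun n => le_max_left _ _
    · exact fun n => le_trans (hm b hb n) (le_max_right _ _)

/-- Right omega-boundedness of `G`. -/
theorem right_bounded (s : Finset X) : ∃ F : Set G, F.Countable ∧ U s * F = Set.univ := by
  obtain ⟨m, hm⟩ := exists_lower s
  obtain ⟨b, hb⟩ := exists_upper s
  choose psi hpsi using fun k => exists_raise m k
  refine ⟨Set.range (fun k => (psi k)⁻¹), Set.countable_range _, ?_⟩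
  rw [Set.eq_univ_iff_forall]
  intro g
  obtain ⟨M, hM⟩ := (g⁻¹ b).2.2
  obtain ⟨k, hk⟩ := exists_nat_ge M
  refine Set.mem_mul.2 ⟨g * psi k, ?_, (psi k)⁻¹, ⟨k, rfl⟩, by group⟩
  intro a ha
  have h1 : g⁻¹ b ≤ psi k m := fun n => le_trans (hM n) (le_trans hk (hpsi k n))
  have h2 : g⁻¹ b ≤ psi k a := le_trans h1 ((psi k).monotone (hm a ha))
  have h3 : g (g⁻¹ b) ≤ g (psi k a) := g.monotone h2
  rw [RelIso.apply_inv_self] at h3
  exact le_trans (hb a ha) h3

/-- Failure of left omega-boundedness of `G`. -/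
theorem not_left_bounded (F : Set G) (hF : F.Countable) : F * U {oneX} ≠ Set.univ := by
  intro h
  have hne : F.Nonempty := by
    have h1 : (1 : G) ∈ F * U {oneX} := by rw [h]; exact Set.mem_univ _
    obtain ⟨f, hf, _⟩ := Set.mem_mul.1 h1
    exact ⟨f, hf⟩
  obtain ⟨e, he⟩ := hF.exists_eq_range hne
  let x : X := ⟨fun n => min 1 ((e n oneX).1 n / 2),
    fun n => lt_min one_pos (half_pos ((e n oneX).2.1 n)), 1, fun n => min_le_left _ _⟩
  have hx1 : ∀ n, x.1 n ≤ 1 := fun n => min_le_left _ _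
  have hg : (phi x.1 x.2.1 hx1)⁻¹ oneX = x := by
    have h1 : phi x.1 x.2.1 hx1 x = oneX := phi_apply x hx1
    rw [← h1, RelIso.inv_apply_self]
  have hmem : (phi x.1 x.2.1 hx1)⁻¹ ∈ F * U {oneX} := by rw [h]; exact Set.mem_univ _
  obtain ⟨f, hf, u, hu, hfu⟩ := Set.mem_mul.1 hmem
  rw [he] at hf
  obtain ⟨n, rfl⟩ := hf
  have h1 : oneX ≤ u oneX := hu oneX (Finset.mem_singleton_self _)
  have h2 : e n oneX ≤ (e n) (u oneX) := (e n).monotone h1
  have h3 : (e n) (u oneX) = x := by
    rw [← hg, ← hfu]; rfl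
  rw [h3] at h2
  have h4 : (e n oneX).1 n ≤ x.1 n := h2 n
  have h5 : x.1 n ≤ (e n oneX).1 n / 2 := min_le_right _ _
  have h6 := (e n oneX).2.1 n
  linarith

/-- The negation of the preceding statement: In every group with a topology making multiplication continuous, if each neighbourhood U of the identity admits a countable F with U·F = G, then each such U also admits a countable F with F·U = G. -/
theorem result :
    ¬ (∀ (G : Type) [Group G] [TopologicalSpace G] [ContinuousMul G],
      (∀ U ∈ 𝓝 (1 : G), ∃ F : Set G, F.Countable ∧ U * F = Set.univ) →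
      (∀ U ∈ 𝓝 (1 : G), ∃ F : Set G, F.Countable ∧ F * U = Set.univ)) := by
  intro H
  have h := @H G _ topG continuousMul_topG (fun V hV => by
    obtain ⟨s, hs⟩ := (mem_nhds_one_iff V).1 hV
    obtain ⟨F, hF, hU⟩ := right_bounded s
    refine ⟨F, hF, ?_⟩
    rw [Set.eq_univ_iff_forall] at hU ⊢
    intro g
    exact Set.mul_subset_mul_right hs (hU g))
  obtain ⟨F, hF, hFU⟩ := h (U {oneX}) ((mem_nhds_one_iff _).2 ⟨_, subset_rfl⟩)
  exact not_left_bounded F hF hFU

end Pool.Agent.S14180
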