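import Pool.Statements.S14307
import Pool.Agent.H61.DimUnion
import Pool.Agent.H61.Lavrentiev

set_option autoImplicit false
open Pool Pool.MP_ffad8e_gt

namespace Pool.Agent.S14307

open Set Topology TopologicalSpace Filter Pool.Agent.H61

/-- Forward direction: the decomposition. -/
theorem forward {X Y : Type} [TopologicalSpace X] [TopologicalSpace Y] [PolishSpace Y] (n : ℕ)
    (f : X → Y) (hf : IsEmbedding f) (h : UZ (n + 1) ↥(Set.range f)ᶜ) :
    ∃ A : Fin (n + 1) → Set X, (⋃ i, A i) = Set.univ ∧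
      ∀ i, ∃ (Y : Type) (_ : TopologicalSpace Y), PolishSpace Y ∧
        ∃ f : ↥(A i) → Y, Topology.IsEmbedding f ∧ UZ 1 ↥(Set.range f)ᶜ := by
  obtain ⟨Z, hZ, hZD⟩ := uz_coe_iff.1 h
  have h1 : ∀ i, ∃ G : Set Y, IsGδ G ∧ Z i ⊆ G ∧ ZD G := fun i => (hZD i).enlarge
  choose G hG hZG hGZ using h1
  obtain ⟨G', hG', hcov, hGR⟩ := exists_gdelta_cover G hG (range f)ᶜ
    (hZ.trans (iUnion_mono hZG))
  refine ⟨fun i => f ⁻¹' G' i, ?_, fun i => ?_⟩
  · rw [← preimage_iUnion, hcov, preimage_univ]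
  · refine ⟨G' i, inferInstance, polishSpace_of_isGδ (hG' i),
      (G' i).restrictPreimage f, hf.restrictPreimage _, ?_⟩
    rw [uz_one_iff_zd]
    -- the remainder embeds into `G i`
    have hmem : ∀ y : ↥(Set.range ((G' i).restrictPreimage f))ᶜ, (y.1 : Y) ∈ G i := by
      intro y
      have hy : (y.1 : Y) ∈ G' i ∩ (range f)ᶜ := by
        refine ⟨y.1.2, ?_⟩
        rintro ⟨x, hx⟩
        apply y.2
        exact ⟨⟨x, by rw [mem_preimage, hx]; exact y.1.2⟩, Subtype.ext hx⟩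
      rw [hGR i] at hy
      exact hy.1
    refine (hGZ i).of_isInducing (f := fun y => ⟨(y.1 : Y), hmem y⟩) ?_
    have h2 : IsInducing ((Subtype.val : G i → Y) ∘
        (fun y : ↥(Set.range ((G' i).restrictPreimage f))ᶜ => (⟨(y.1 : Y), hmem y⟩ : G i))) := by
      have h3 : IsInducing ((Subtype.val : G' i → Y) ∘
          (Subtype.val : ↥(Set.range ((G' i).restrictPreimage f))ᶜ → G' i)) :=
        IsInducing.subtypeVal.comp IsInducing.subtypeVal
      exact h3
    exact IsInducing.subtypeVal.of_comp_iff.1 h2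

/-- Backward direction: the addition theorem. -/
theorem backward {X : Type} [TopologicalSpace X] [SeparableSpace X] [MetrizableSpace X] (n : ℕ)
    (A : Fin (n + 1) → Set X) (hA : (⋃ i, A i) = Set.univ)
    (h : ∀ i, ∃ (Y : Type) (_ : TopologicalSpace Y), PolishSpace Y ∧
        ∃ f : ↥(A i) → Y, Topology.IsEmbedding f ∧ UZ 1 ↥(Set.range f)ᶜ) :
    ∃ (Y : Type) (_ : TopologicalSpace Y), PolishSpace Y ∧
      ∃ f : X → Y, Topology.IsEmbedding f ∧ UZ (n + 1) ↥(Set.range f)ᶜ := by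
  let := metrizableSpaceMetric X
  let Y' := UniformSpace.Completion X
  let e : X → Y' := fun x => (x : UniformSpace.Completion X)
  have he : IsEmbedding e := UniformSpace.Completion.isDenseEmbedding_coe.isEmbedding
  have : SecondCountableTopology Y' := UniformSpace.secondCountable_of_separable Y'
  have hPol : PolishSpace Y' := inferInstance
  -- Gδ extensions
  have h1 : ∀ i, ∃ G : Set Y', IsGδ G ∧ e '' A i ⊆ G ∧ ZD (G \ e '' A i : Set Y') := by
    intro i
    obtain ⟨Z, _, _, f, hf, hZ⟩ := h i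
    let := upgradeIsCompletelyMetrizable Z
    rw [uz_one_iff_zd] at hZ
    let ψ : ↥(e '' A i) ≃ₜ ↥(A i) := (he.homeomorphImage (A i)).symm
    obtain ⟨G, hAG, F, hG, hF, hFf⟩ := exists_gdelta_embedding (e '' A i) (f ∘ ψ)
      (hf.comp ψ.isEmbedding)
    refine ⟨G, hG, hAG, ?_⟩
    have hmem : ∀ y : ↥(G \ e '' A i), F ⟨y.1, y.2.1⟩ ∈ (range f)ᶜ := by
      rintro y ⟨a, ha⟩
      apply y.2.2
      have h2 : F ⟨(ψ.symm a).1, hAG (ψ.symm a).2⟩ = f a := by
        rw [hFf]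
        simp
      have h3 := hF.injective (ha.symm.trans h2.symm)
      have h4 : y.1 = (ψ.symm a).1 := Subtype.ext_iff.1 h3
      rw [h4]
      exact (ψ.symm a).2
    refine hZ.of_isInducing (f := fun y => ⟨F ⟨y.1, y.2.1⟩, hmem y⟩) ?_
    have h2 : IsInducing (fun y : ↥(G \ e '' A i) => (⟨y.1, y.2.1⟩ : G)) := by
      have h3 : IsInducing ((Subtype.val : G → Y') ∘
          (fun y : ↥(G \ e '' A i) => (⟨y.1, y.2.1⟩ : G))) := IsInducing.subtypeVal
      exact IsInducing.subtypeVal.of_comp_iff.1 h3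
    have h4 : IsInducing ((Subtype.val : ↥(range f)ᶜ → Z) ∘
        (fun y : ↥(G \ e '' A i) => (⟨F ⟨y.1, y.2.1⟩, hmem y⟩ : ↥(range f)ᶜ))) :=
      hF.isInducing.comp h2
    exact IsInducing.subtypeVal.of_comp_iff.1 h4
  choose G hG hAG hGZ using h1
  have hU : IsGδ (⋃ i, G i) := IsGδ.iUnion hG
  have hmem : ∀ x, e x ∈ ⋃ i, G i := by
    intro x
    have hx : x ∈ ⋃ i, A i := by rw [hA]; trivial
    obtain ⟨i, hi⟩ := mem_iUnion.1 hx
    exact mem_iUnion.2 ⟨i, hAG i ⟨x, hi, rfl⟩⟩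
  refine ⟨↥(⋃ i, G i), inferInstance, polishSpace_of_isGδ hU, fun x => ⟨e x, hmem x⟩, ?_, ?_⟩
  · exact he.codRestrict _ _
  · refine ⟨fun i => {y | (y.1 : Y') ∈ G i \ e '' A i}, ?_, fun i => ?_⟩
    · rw [eq_univ_iff_forall]
      intro y
      obtain ⟨i, hi⟩ := mem_iUnion.1 y.1.2
      refine mem_iUnion.2 ⟨i, hi, ?_⟩
      rintro ⟨x, hx, hxy⟩
      exact y.2 ⟨x, Subtype.ext hxy⟩
    · let j : {y : ↥(Set.range (fun x => (⟨e x, hmem x⟩ : ↥(⋃ i, G i))))ᶜ |
          (y.1 : Y') ∈ G i \ e '' A i} → ↥(G i \ e '' A i) := fun y => ⟨(y.1.1 : Y'), y.2⟩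
      refine (hGZ i).of_isInducing (f := j) ?_
      have h2 : IsInducing (Subtype.val ∘ j) := by
        have h3 := (IsInducing.subtypeVal (t := ⋃ i, G i)).comp
          ((IsInducing.subtypeVal (t :=
            (Set.range (fun x => (⟨e x, hmem x⟩ : ↥(⋃ i, G i))))ᶜ)).comp
            (IsInducing.subtypeVal (t :=
              {y : ↥(Set.range (fun x => (⟨e x, hmem x⟩ : ↥(⋃ i, G i))))ᶜ |
          (y.1 : Y') ∈ G i \ e '' A i})))
        exact h3
      exact IsInducing.subtypeVal.of_comp_iff.1 h2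

/-- For separable metrizable X, some Polish space containing X has remainder of small inductive dimension ≤ n iff X is a union of n+1 subspaces, each having a Polish extension whose remainder has small inductive dimension ≤ 0. -/
theorem result :
    ∀ (ind : ℕ → (α : Type) → [TopologicalSpace α] → Prop),
      (∀ (α : Type) [TopologicalSpace α],
        (ind 0 α ↔ IsEmpty α) ∧
        ∀ k : ℕ, (ind (k + 1) α ↔
          ∀ x : α, ∀ U ∈ nhds x, ∃ V : Set α,
            IsOpen V ∧ x ∈ V ∧ V ⊆ U ∧ ind k ↥(frontier V))) →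
      ∀ (X : Type) [TopologicalSpace X] [TopologicalSpace.SeparableSpace X]
        [TopologicalSpace.MetrizableSpace X] (n : ℕ),
        ((∃ (Y : Type) (_ : TopologicalSpace Y), PolishSpace Y ∧
            ∃ f : X → Y, Topology.IsEmbedding f ∧ ind (n + 1) ↥(Set.range f)ᶜ) ↔
          ∃ A : Fin (n + 1) → Set X, (⋃ i, A i) = Set.univ ∧
            ∀ i, ∃ (Y : Type) (_ : TopologicalSpace Y), PolishSpace Y ∧
              ∃ f : ↥(A i) → Y, Topology.IsEmbedding f ∧ ind 1 ↥(Set.range f)ᶜ) := by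
  intro ind hind X _ _ _ n
  have : SecondCountableTopology X := by
    let := metrizableSpaceMetric X
    exact UniformSpace.secondCountable_of_separable X
  constructor
  · rintro ⟨Y, _, hY, f, hf, h⟩
    rw [ind_iff_uz ind hind] at h
    obtain ⟨A, hA, h2⟩ := forward n f hf h
    refine ⟨A, hA, fun i => ?_⟩
    obtain ⟨Z, _, hZ, g, hg, h3⟩ := h2 i
    exact ⟨Z, _, hZ, g, hg, (ind_iff_uz ind hind 1 _).2 h3⟩
  · rintro ⟨A, hA, h⟩
    obtain ⟨Y, _, hY, f, hf, h2⟩ := backward n A hA (fun i => by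
      obtain ⟨Z, _, hZ, g, hg, h3⟩ := h i
      exact ⟨Z, _, hZ, g, hg, (ind_iff_uz ind hind 1 _).1 h3⟩)
    exact ⟨Y, _, hY, f, hf, (ind_iff_uz ind hind (n + 1) _).2 h2⟩

end Pool.Agent.S14307
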