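import Pool.Statements.S14410

set_option autoImplicit false
open Cardinal
open Pool Pool.MP_15d45c_lc

namespace Pool.Agent.S14410

/-! A colouring of the pairs of a well-order of type `ω₁` with `ℵ₁` colours such that every
uncountable set gets every colour, but no infinite set is rainbow. -/

section

variable {V : Type} [LinearOrder V] [WellFoundedLT V]

theorem exists_bound (hV : ¬ (Set.univ : Set V).Countable)
    (hseg : ∀ a : V, (Set.Iic a).Countable)
    (A : Set V) (hA : A.Countable) : ∃ b : V, ∀ a ∈ A, a < b := by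
  by_contra h
  push Not at h
  apply hV
  have hsub : (Set.univ : Set V) ⊆ ⋃ a ∈ A, Set.Iic a := by
    intro b _
    obtain ⟨a, ha, hab⟩ := h b
    simp only [Set.mem_iUnion]
    exact ⟨a, ha, hab⟩
  exact (hA.biUnion (fun a _ => hseg a)).mono hsub

theorem exists_above (hseg : ∀ a : V, (Set.Iic a).Countable)
    (W : Set V) (hW : ¬ W.Countable) (a : V) : ∃ b ∈ W, a < b := by
  by_contra h
  push Not at h
  exact hW ((hseg a).mono (fun b hb => h b hb))

theorem exists_closed (hV : ¬ (Set.univ : Set V).Countable)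
    (hseg : ∀ a : V, (Set.Iic a).Countable)
    (f : V → V) (a : V) : ∃ δ : V, a < δ ∧ ∀ x < δ, f x < δ := by
  have hg : ∀ x : V, ∃ y : V, x < y ∧ ∀ z ≤ x, f z < y := by
    intro x
    obtain ⟨y, hy⟩ := exists_bound hV hseg (insert x (f '' Set.Iic x))
      (((hseg x).image f).insert x)
    exact ⟨y, hy x (Set.mem_insert _ _), fun z hz => hy _ (Set.mem_insert_of_mem _ ⟨z, hz, rfl⟩)⟩
  choose g hg1 hg2 using hg
  let s : ℕ → V := fun n => g^[n] a
  have hs : ∀ n, s (n + 1) = g (s n) := fun n => Function.iterate_succ_apply' g n a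
  obtain ⟨b, hb⟩ := exists_bound hV hseg (Set.range s) (Set.countable_range s)
  let B : Set V := {b | ∀ n, s n < b}
  have hB : B.Nonempty := ⟨b, fun n => hb _ ⟨n, rfl⟩⟩
  let δ := wellFounded_lt.min B hB
  have hδ : δ ∈ B := wellFounded_lt.min_mem B hB
  refine ⟨δ, hδ 0, fun x hx => ?_⟩
  have hx' : x ∉ B := fun h => wellFounded_lt.not_lt_min B h hx
  simp only [B, Set.mem_ofPred_eq, not_forall, not_lt] at hx'
  obtain ⟨n, hn⟩ := hx'
  have h1 : f x < g (s n) := hg2 _ _ hn
  rw [← hs] at h1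
  exact h1.trans (hδ (n + 1))

/-- stationarity, phrased through closure points of functions -/
def Stat (A : Set V) : Prop := ∀ (f : V → V) (a : V), ∃ δ ∈ A, a < δ ∧ ∀ x < δ, f x < δ

theorem exists_stat (hV : ¬ (Set.univ : Set V).Countable)
    (hseg : ∀ a : V, (Set.Iic a).Countable)
    (e : V → V → ℕ) (ξ : V) : ∃ n, Stat {δ : V | ξ < δ ∧ e δ ξ = n} := by
  by_contra h
  push Not at h
  unfold Stat at h
  push Not at h
  choose f a hfa using h
  obtain ⟨a', ha'⟩ := exists_bound hV hseg (insert ξ (Set.range a))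
    ((Set.countable_range a).insert ξ)
  have hF : ∀ x : V, ∃ y : V, ∀ n, f n x < y := by
    intro x
    obtain ⟨y, hy⟩ := exists_bound hV hseg (Set.range (fun n => f n x)) (Set.countable_range _)
    exact ⟨y, fun n => hy _ ⟨n, rfl⟩⟩
  choose F hF using hF
  obtain ⟨δ, hδ1, hδ2⟩ := exists_closed hV hseg F a'
  have h1 : ξ < δ := (ha' ξ (Set.mem_insert _ _)).trans hδ1
  have h2 : a (e δ ξ) < δ := (ha' _ (Set.mem_insert_of_mem _ ⟨_, rfl⟩)).trans hδ1
  obtain ⟨x, hx1, hx2⟩ := hfa (e δ ξ) δ ⟨h1, rfl⟩ h2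
  exact absurd ((hF x (e δ ξ)).trans (hδ2 x hx1)) (not_lt.mpr hx2)

/-- Partition into stationary sets indexed by `V` itself. -/
theorem exists_stat_partition (hV : ¬ (Set.univ : Set V).Countable)
    (hseg : ∀ a : V, (Set.Iic a).Countable) (hcard : #V = ℵ₁)
    (e : V → V → ℕ) (he : ∀ b x y, x < b → y < b → e b x = e b y → x = y) :
    ∃ h : V → V, ∀ v : V, Stat {δ : V | h δ = v} := by
  have h1 : ∀ ξ, ∃ n, Stat {δ : V | ξ < δ ∧ e δ ξ = n} := exists_stat hV hseg e
  choose N hN using h1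
  have h2 : ∃ n, ¬ {ξ | N ξ = n}.Countable := by
    by_contra hc
    push Not at hc
    apply hV
    have : (Set.univ : Set V) = ⋃ n, {ξ | N ξ = n} := by
      ext ξ; simp
    rw [this]
    exact Set.countable_iUnion hc
  obtain ⟨n, hn⟩ := h2
  have hle : #V ≤ #({ξ : V | N ξ = n} : Set V) := by
    rw [hcard]
    have h3 : ℵ₀ < #({ξ : V | N ξ = n} : Set V) := by
      rw [← not_le]
      intro h4
      exact hn (Cardinal.le_aleph0_iff_set_countable.mp h4)
    rw [← Cardinal.succ_aleph0]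
    exact Order.succ_le_of_lt h3
  obtain ⟨φ⟩ := hle
  classical
  have : Nonempty V := by
    by_contra hne
    rw [not_nonempty_iff] at hne
    exact hV (Set.countable_univ)
  let h : V → V := fun δ => if H : ∃ v : V, (φ v : V) < δ ∧ e δ (φ v) = n then H.choose
    else Classical.arbitrary V
  refine ⟨h, fun v f a => ?_⟩
  have hφ : N (φ v) = n := (φ v).2
  obtain ⟨δ, ⟨hδ1, hδ2⟩, hδ3, hδ4⟩ := hN (φ v) f a
  rw [hφ] at hδ2
  have H : ∃ v : V, (φ v : V) < δ ∧ e δ (φ v) = n := ⟨v, hδ1, hδ2⟩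
  refine ⟨δ, ?_, hδ3, hδ4⟩
  have hh : h δ = H.choose := by simp only [h]; rw [dif_pos H]
  show h δ = v
  rw [hh]
  have h5 := H.choose_spec
  have h6 : (φ H.choose : V) = φ v := he δ _ _ h5.1 hδ1 (h5.2.trans hδ2.symm)
  exact φ.injective (Subtype.ext h6)

/-- first difference of two sequences -/
noncomputable def D (x y : ℕ → Bool) : ℕ := sInf {n | x n ≠ y n}

theorem D_spec {x y : ℕ → Bool} (h : x ≠ y) : x (D x y) ≠ y (D x y) := by
  have hne : {n | x n ≠ y n}.Nonempty := Function.ne_iff.mp h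
  exact Nat.sInf_mem hne

theorem D_lt {x y : ℕ → Bool} {n : ℕ} (h : n < D x y) : x n = y n := by
  by_contra hc
  exact absurd (Nat.sInf_le (s := {n | x n ≠ y n}) hc) (not_le.mpr h)

theorem le_D {x y : ℕ → Bool} (hxy : x ≠ y) {k : ℕ} (h : ∀ i < k, x i = y i) : k ≤ D x y := by
  by_contra hc
  push Not at hc
  exact D_spec hxy (h _ hc)

theorem D_comm (x y : ℕ → Bool) : D x y = D y x := by
  unfold D
  congr 1
  ext n
  exact ne_comm

/-- the set of candidates for the bracket -/
def cand (e : V → V → ℕ) (n : ℕ) (a b : V) : Set V := {d | a < d ∧ d ≤ b ∧ (d = b ∨ e b d ≤ n)}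

open Classical in
/-- the bracket -/
noncomputable def br (e : V → V → ℕ) (n : ℕ) (a b : V) : V :=
  if h : (cand e n a b).Nonempty then wellFounded_lt.min (cand e n a b) h else a

theorem br_eq (e : V → V → ℕ) (n : ℕ) (a b d : V) (hd : d ∈ cand e n a b)
    (hmin : ∀ x ∈ cand e n a b, d ≤ x) : br e n a b = d := by
  have hne : (cand e n a b).Nonempty := ⟨d, hd⟩
  unfold br
  rw [dif_pos hne]
  apply le_antisymm
  · exact not_lt.mp (wellFounded_lt.not_lt_min _ hd)
  · exact hmin _ (wellFounded_lt.min_mem _ _)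

/-- the main lemma: on any uncountable set the bracket meets every stationary set -/
theorem main_lemma (hV : ¬ (Set.univ : Set V).Countable)
    (hseg : ∀ a : V, (Set.Iic a).Countable)
    (e : V → V → ℕ) (he : ∀ b x y, x < b → y < b → e b x = e b y → x = y)
    (r : V → ℕ → Bool) (hr : Function.Injective r)
    (A : Set V) (hA : Stat A) (W : Set V) (hW : ¬ W.Countable) :
    ∃ a ∈ W, ∃ b ∈ W, a < b ∧ br e (D (r a) (r b)) a b ∈ A := by
  -- the closure function
  let cyl : (Σ k : ℕ, (Fin k → Bool)) → Set V :=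
    fun s => {a | a ∈ W ∧ ∀ i : Fin s.1, r a i = s.2 i}
  have hf : ∀ x : V, ∃ y : V, x < y ∧ (∀ s, (cyl s).Countable → ∀ a ∈ cyl s, a < y) ∧
      (∀ s, ¬ (cyl s).Countable → ∃ a ∈ cyl s, x < a ∧ a < y) := by
    intro x
    have h1 : ∀ s : (Σ k : ℕ, (Fin k → Bool)), ∃ y : V,
        ((cyl s).Countable → ∀ a ∈ cyl s, a < y) ∧
        (¬ (cyl s).Countable → ∃ a ∈ cyl s, x < a ∧ a < y) := by
      intro s
      by_cases hs : (cyl s).Countable
      · obtain ⟨y, hy⟩ := exists_bound hV hseg _ hs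
        exact ⟨y, fun _ => hy, fun h => absurd hs h⟩
      · obtain ⟨a, ha, hxa⟩ := exists_above hseg _ hs x
        obtain ⟨y, hy⟩ := exists_bound hV hseg {a} (Set.countable_singleton a)
        exact ⟨y, fun h => absurd h hs, fun _ => ⟨a, ha, hxa, hy a rfl⟩⟩
    choose Y hY1 hY2 using h1
    obtain ⟨y, hy⟩ := exists_bound hV hseg (insert x (Set.range Y))
      ((Set.countable_range Y).insert x)
    refine ⟨y, hy x (Set.mem_insert _ _), fun s hs a ha => ?_, fun s hs => ?_⟩
    · exact (hY1 s hs a ha).trans (hy _ (Set.mem_insert_of_mem _ ⟨s, rfl⟩))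
    · obtain ⟨a, ha, hxa, hay⟩ := hY2 s hs
      exact ⟨a, ha, hxa, hay.trans (hy _ (Set.mem_insert_of_mem _ ⟨s, rfl⟩))⟩
  choose f hf1 hf2 hf3 using hf
  have : Nonempty V := by
    by_contra hne
    rw [not_nonempty_iff] at hne
    exact hV (Set.countable_univ)
  obtain ⟨δ, hδA, hδ1, hδ2⟩ := hA f (Classical.arbitrary V)
  obtain ⟨b, hbW, hδb⟩ := exists_above hseg W hW δ
  -- cylinder of `b`
  have hcyl : ∀ k, ¬ (cyl ⟨k, fun i => r b i⟩).Countable := by
    intro k hk
    have h1 := hf2 (Classical.arbitrary V) _ hk b ⟨hbW, fun i => rfl⟩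
    exact absurd (h1.trans (hδ2 _ hδ1)) (not_lt.mpr hδb.le)
  -- choose `k ≥ e b δ` with uncountably many `a ∈ W` with `D = k`
  have hk : ∃ k, e b δ ≤ k ∧ ¬ {a | a ∈ W ∧ a ≠ b ∧ D (r a) (r b) = k}.Countable := by
    by_contra hc
    push Not at hc
    apply hcyl (e b δ)
    have hsub : cyl ⟨e b δ, fun i => r b i⟩ ⊆
        {b} ∪ ⋃ k ∈ Set.Ici (e b δ), {a | a ∈ W ∧ a ≠ b ∧ D (r a) (r b) = k} := by
      intro a ha
      by_cases hab : a = b
      · left; exact hab
      · right
        simp only [Set.mem_iUnion]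
        refine ⟨D (r a) (r b), ?_, ha.1, hab, rfl⟩
        exact le_D (fun h => hab (hr h)) (fun i hi => ha.2 ⟨i, hi⟩)
    refine Set.Countable.mono hsub ?_
    refine (Set.countable_singleton b).union ?_
    exact Set.Countable.biUnion (Set.to_countable _) (fun k hk => hc k hk)
  obtain ⟨k, hk1, hk2⟩ := hk
  -- it is a cylinder
  let t : Fin (k + 1) → Bool := fun i => if (i : ℕ) = k then !(r b k) else r b i
  have ht : ∀ a, a ∈ cyl ⟨k + 1, t⟩ ↔ (a ∈ W ∧ a ≠ b ∧ D (r a) (r b) = k) := by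
    intro a
    constructor
    · rintro ⟨haW, ha⟩
      have hne : r a k ≠ r b k := by
        have := ha ⟨k, Nat.lt_succ_self k⟩
        simp only [t, if_true] at this
        change r a k = !(r b k) at this
        rw [this]
        cases r b k <;> simp
      have hab : a ≠ b := by
        rintro rfl
        exact hne rfl
      refine ⟨haW, hab, ?_⟩
      apply le_antisymm
      · exact Nat.sInf_le hne
      · refine le_D (fun h => hab (hr h)) (fun i hi => ?_)
        have := ha ⟨i, hi.trans (Nat.lt_succ_self k)⟩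
        simp only [t, if_neg hi.ne] at this
        exact this
    · rintro ⟨haW, hab, hD⟩
      refine ⟨haW, ?_⟩
      rintro ⟨i, hi⟩
      simp only [t]
      by_cases hik : i = k
      · subst hik
        rw [if_pos rfl]
        have := D_spec (fun h => hab (hr h) : r a ≠ r b)
        rw [hD] at this
        cases h1 : r a i <;> cases h2 : r b i <;> simp_all
      · rw [if_neg hik]
        have : i < D (r a) (r b) := by
          rw [hD]
          exact lt_of_le_of_ne (Nat.lt_succ_iff.mp hi) hik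
        exact D_lt this
  have hcount : ¬ (cyl ⟨k + 1, t⟩).Countable := by
    have : cyl ⟨k + 1, t⟩ = {a | a ∈ W ∧ a ≠ b ∧ D (r a) (r b) = k} := by
      ext a; exact ht a
    rw [this]
    exact hk2
  -- finite set of small ordinals of small index
  have hfin : {x | x < δ ∧ e b x ≤ k}.Finite := by
    have h1 : Set.InjOn (e b) {x | x < δ ∧ e b x ≤ k} := by
      intro x hx y hy hxy
      exact he b x y (hx.1.trans hδb) (hy.1.trans hδb) hxy
    have h2 : (e b '' {x | x < δ ∧ e b x ≤ k}).Finite := by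
      refine (Set.finite_Iic k).subset ?_
      rintro _ ⟨x, hx, rfl⟩
      exact hx.2
    exact Set.Finite.of_finite_image h2 h1
  -- an upper bound below `δ`
  have hx0 : ∃ x0, x0 < δ ∧ ∀ x, x < δ → e b x ≤ k → x ≤ x0 := by
    have hfin2 : (insert (Classical.arbitrary V) {x | x < δ ∧ e b x ≤ k}).Finite :=
      hfin.insert _
    obtain ⟨x0, hx0, hmax⟩ := Set.exists_max_image _ id hfin2 (Set.insert_nonempty _ _)
    refine ⟨x0, ?_, fun x hx hx' => hmax x (Set.mem_insert_of_mem _ ⟨hx, hx'⟩)⟩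
    rcases hx0 with h | h
    · rw [h]; exact hδ1
    · exact h.1
  obtain ⟨x0, hx0, hx0'⟩ := hx0
  obtain ⟨a, ha, hxa, haf⟩ := hf3 x0 _ hcount
  have haδ : a < δ := haf.trans (hδ2 x0 hx0)
  obtain ⟨haW, hab, hD⟩ := (ht a).mp ha
  refine ⟨a, haW, b, hbW, haδ.trans hδb, ?_⟩
  rw [hD]
  have : br e k a b = δ := by
    apply br_eq
    · exact ⟨haδ, hδb.le, Or.inr hk1⟩
    · rintro x ⟨hax, hxb, hx⟩
      by_contra hlt
      push Not at hlt
      rcases hx with hx | hx
      · rw [hx] at hlt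
        exact absurd (hlt.trans hδb) (lt_irrefl _)
      · exact absurd (hx0' x hlt hx) (not_le.mpr (hxa.trans hax))
  rw [this]
  exact hδA

open Classical in
/-- the colouring of ordered pairs -/
noncomputable def col (e : V → V → ℕ) (r : V → ℕ → Bool) (h : V → V) (v0 : V) (a b : V) : V :=
  if h (br e (D (r a) (r b)) a b) < a ∧ e a (h (br e (D (r a) (r b)) a b)) ≤ D (r a) (r b) then
    h (br e (D (r a) (r b)) a b) else v0

theorem col_mem (e : V → V → ℕ) (r : V → ℕ → Bool) (h : V → V) (v0 : V) (a b : V) (k : ℕ)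
    (hk : D (r a) (r b) ≤ k) :
    col e r h v0 a b ∈ insert v0 {x | x < a ∧ e a x ≤ k} := by
  unfold col
  split_ifs with h1
  · exact Set.mem_insert_of_mem _ ⟨h1.1, h1.2.trans hk⟩
  · exact Set.mem_insert _ _

theorem finite_small (e : V → V → ℕ) (he : ∀ b x y, x < b → y < b → e b x = e b y → x = y)
    (v0 a : V) (k : ℕ) : (insert v0 {x | x < a ∧ e a x ≤ k}).Finite := by
  apply Set.Finite.insert
  have h1 : Set.InjOn (e a) {x | x < a ∧ e a x ≤ k} := by
    intro x hx y hy hxy
    exact he a x y hx.1 hy.1 hxy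
  have h2 : (e a '' {x | x < a ∧ e a x ≤ k}).Finite := by
    refine (Set.finite_Iic k).subset ?_
    rintro _ ⟨x, hx, rfl⟩
    exact hx.2
  exact Set.Finite.of_finite_image h2 h1

/-- every uncountable set gets every colour -/
theorem col_all (hV : ¬ (Set.univ : Set V).Countable)
    (hseg : ∀ a : V, (Set.Iic a).Countable)
    (e : V → V → ℕ) (he : ∀ b x y, x < b → y < b → e b x = e b y → x = y)
    (r : V → ℕ → Bool) (hr : Function.Injective r) (h : V → V)
    (hh : ∀ v : V, Stat {δ : V | h δ = v}) (v0 : V) (W : Set V) (hW : ¬ W.Countable) (v : V) :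
    ∃ a ∈ W, ∃ b ∈ W, a < b ∧ col e r h v0 a b = v := by
  -- thin out `W`
  have h1 : ∃ m : ℕ, ¬ {a | a ∈ W ∧ v < a ∧ e a v = m}.Countable := by
    by_contra hc
    push Not at hc
    apply hW
    have hsub : W ⊆ Set.Iic v ∪ ⋃ m : ℕ, {a | a ∈ W ∧ v < a ∧ e a v = m} := by
      intro a ha
      rcases le_or_gt a v with hav | hav
      · left; exact hav
      · right
        simp only [Set.mem_iUnion]
        exact ⟨e a v, ha, hav, rfl⟩
    exact ((hseg v).union (Set.countable_iUnion hc)).mono hsub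
  obtain ⟨m, hm⟩ := h1
  have h2 : ∃ t : Fin m → Bool, ¬ {a | (a ∈ W ∧ v < a ∧ e a v = m) ∧
      ∀ i : Fin m, r a i = t i}.Countable := by
    by_contra hc
    push Not at hc
    apply hm
    have hsub : {a | a ∈ W ∧ v < a ∧ e a v = m} ⊆ ⋃ t : Fin m → Bool,
        {a | (a ∈ W ∧ v < a ∧ e a v = m) ∧ ∀ i : Fin m, r a i = t i} := by
      intro a ha
      simp only [Set.mem_iUnion]
      exact ⟨fun i => r a i, ha, fun i => rfl⟩
    exact (Set.countable_iUnion hc).mono hsub
  obtain ⟨t, ht⟩ := h2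
  obtain ⟨a, ha, b, hb, hab, hbr⟩ := main_lemma hV hseg e he r hr _ (hh v) _ ht
  refine ⟨a, ha.1.1, b, hb.1.1, hab, ?_⟩
  have hne : r a ≠ r b := fun h => hab.ne (hr h)
  have hmD : m ≤ D (r a) (r b) := by
    apply le_D hne
    intro i hi
    rw [ha.2 ⟨i, hi⟩, hb.2 ⟨i, hi⟩]
  have hbr' : h (br e (D (r a) (r b)) a b) = v := hbr
  unfold col
  rw [hbr', if_pos]
  refine ⟨ha.1.2.1, ?_⟩
  rw [ha.1.2.2]
  exact hmD

/-- no infinite set is rainbow -/
theorem no_rainbow (e : V → V → ℕ) (he : ∀ b x y, x < b → y < b → e b x = e b y → x = y)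
    (r : V → ℕ → Bool) (hr : Function.Injective r) (h : V → V) (v0 : V)
    (T : Set V) (hT : T.Infinite) :
    ∃ a ∈ T, ∃ b ∈ T, ∃ b' ∈ T, a < b ∧ a < b' ∧ b ≠ b' ∧
      col e r h v0 a b = col e r h v0 a b' := by
  -- the two smallest elements
  have hne : T.Nonempty := hT.nonempty
  let a := wellFounded_lt.min T hne
  have haT : a ∈ T := wellFounded_lt.min_mem T hne
  have hamin : ∀ x ∈ T, a ≤ x := fun x hx => not_lt.mp (wellFounded_lt.not_lt_min T hx)
  have hT1 : (T \ {a}).Infinite := hT.sdiff (Set.finite_singleton a)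
  have hne1 : (T \ {a}).Nonempty := hT1.nonempty
  let a' := wellFounded_lt.min (T \ {a}) hne1
  have haT' : a' ∈ T \ {a} := wellFounded_lt.min_mem (T \ {a}) hne1
  have hamin' : ∀ x ∈ T \ {a}, a' ≤ x := fun x hx => not_lt.mp (wellFounded_lt.not_lt_min _ hx)
  have haa' : a < a' := lt_of_le_of_ne (hamin a' haT'.1) (fun h => haT'.2 h.symm)
  have hT2 : ((T \ {a}) \ {a'}).Infinite := hT1.sdiff (Set.finite_singleton a')
  let k := D (r a) (r a')
  have hkne : r a k ≠ r a' k := D_spec (fun h => haa'.ne (hr h))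
  have hcover : ((T \ {a}) \ {a'}) ⊆
      {x | x ∈ (T \ {a}) \ {a'} ∧ D (r a) (r x) ≤ k} ∪
      {x | x ∈ (T \ {a}) \ {a'} ∧ D (r a') (r x) ≤ k} := by
    intro x hx
    by_contra hc
    simp only [Set.mem_union, Set.mem_ofPred_eq, not_or, not_and, not_le] at hc
    have h1 := D_lt (hc.1 hx)
    have h2 := D_lt (hc.2 hx)
    exact hkne (h1.trans h2.symm)
  have hkey : ∀ c ∈ T, (∀ x ∈ (T \ {a}) \ {a'}, c < x) →
      {x | x ∈ (T \ {a}) \ {a'} ∧ D (r c) (r x) ≤ k}.Infinite →
      ∃ a ∈ T, ∃ b ∈ T, ∃ b' ∈ T, a < b ∧ a < b' ∧ b ≠ b' ∧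
      col e r h v0 a b = col e r h v0 a b' := by
    intro c hc hlt hinf
    have hmaps : Set.MapsTo (fun x => col e r h v0 c x)
        {x | x ∈ (T \ {a}) \ {a'} ∧ D (r c) (r x) ≤ k} (insert v0 {x | x < c ∧ e c x ≤ k}) := by
      intro x hx
      exact col_mem e r h v0 c x k hx.2
    obtain ⟨x, hx, y, hy, hxy, hxy'⟩ :=
      hinf.exists_ne_map_eq_of_mapsTo hmaps (finite_small e he v0 c k)
    exact ⟨c, hc, x, hx.1.1.1, y, hy.1.1.1, hlt x hx.1, hlt y hy.1, hxy, hxy'⟩
  rcases Set.infinite_union.mp (hT2.mono hcover) with h1 | h1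
  · refine hkey a haT (fun x hx => ?_) h1
    exact lt_of_le_of_ne (hamin x hx.1.1) (fun h => hx.1.2 h.symm)
  · refine hkey a' haT'.1 (fun x hx => ?_) h1
    exact lt_of_le_of_ne (hamin' x hx.1) (fun h => hx.2 h.symm)

end

/-- The negation of the preceding statement: For any colouring of the edges of the complete graph on ℵ₁ vertices with ℵ₁ colours such that every colour appears inside every ℵ₁-sized vertex set, there is a countably infinite vertex set whose edges all get distinct colours. -/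
theorem result :
    ¬ (∀ (V ι : Type), Cardinal.mk V = Cardinal.aleph 1 → Cardinal.mk ι = Cardinal.aleph 1 →
      ∀ c : Sym2 V → ι,
        (∀ α : ι, ∀ S : Set V, Cardinal.mk S = Cardinal.aleph 1 →
            ∃ x ∈ S, ∃ y ∈ S, x ≠ y ∧ c s(x, y) = α) →
        ∃ T : Set V, T.Infinite ∧ T.Countable ∧
          ∀ x ∈ T, ∀ y ∈ T, ∀ z ∈ T, ∀ w ∈ T, x ≠ y → z ≠ w →
            c s(x, y) = c s(z, w) → s(x, y) = s(z, w)) := by
  intro hmain
  let V : Type := (Cardinal.aleph 1).ord.ToType
  have hcard : #V = ℵ₁ := Cardinal.mk_ord_toType _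
  have hV : ¬ (Set.univ : Set V).Countable := by
    intro h
    rw [← Cardinal.le_aleph0_iff_set_countable, Cardinal.mk_univ, hcard] at h
    exact absurd h (not_le.mpr Cardinal.aleph0_lt_aleph_one)
  have hseg' : ∀ a : V, (Set.Iio a).Countable := by
    intro a
    have h1 : #(Set.Iio a) < ℵ₁ := Cardinal.mk_Iio_toType_ord_lt a
    have h2 : #(Set.Iio a) < Order.succ ℵ₀ := by rw [Cardinal.succ_aleph0]; exact h1
    exact Cardinal.le_aleph0_iff_set_countable.mp (Order.lt_succ_iff.mp h2)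
  have hseg : ∀ a : V, (Set.Iic a).Countable := by
    intro a
    have : Set.Iic a = insert a (Set.Iio a) := by
      ext x
      simp [le_iff_eq_or_lt]
    rw [this]
    exact (hseg' a).insert a
  -- the functions `e`
  have he : ∃ e : V → V → ℕ, ∀ b x y, x < b → y < b → e b x = e b y → x = y := by
    have h1 : ∀ b : V, ∃ f : V → ℕ, Set.InjOn f (Set.Iio b) := by
      intro b
      exact Set.countable_iff_exists_injOn.mp (hseg' b)
    choose e he using h1
    exact ⟨e, fun b x y hx hy hxy => he b hx hy hxy⟩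
  obtain ⟨e, he⟩ := he
  -- the reals
  have hr : ∃ r : V → ℕ → Bool, Function.Injective r := by
    have h1 : #V ≤ #(ℕ → Bool) := by
      rw [hcard]
      simpa using Cardinal.aleph_one_le_continuum
    obtain ⟨r⟩ := h1
    exact ⟨r, r.injective⟩
  obtain ⟨r, hr⟩ := hr
  obtain ⟨h, hh⟩ := exists_stat_partition hV hseg hcard e he
  have : Nonempty V := by
    by_contra hne
    rw [not_nonempty_iff] at hne
    exact hV (Set.countable_univ)
  let v0 : V := Classical.arbitrary V
  let c : Sym2 V → V := Sym2.lift ⟨fun x y => col e r h v0 (min x y) (max x y),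
    fun x y => by
      show col e r h v0 (min x y) (max x y) = col e r h v0 (min y x) (max y x)
      rw [min_comm x y, max_comm x y]⟩
  have hc : ∀ x y : V, x < y → c s(x, y) = col e r h v0 x y := by
    intro x y hxy
    simp only [c, Sym2.lift_mk]
    rw [min_eq_left hxy.le, max_eq_right hxy.le]
  obtain ⟨T, hT, -, hrain⟩ := hmain V V hcard hcard c (by
    intro α S hS
    have hS' : ¬ S.Countable := by
      intro h
      rw [← Cardinal.le_aleph0_iff_set_countable, hS] at h
      exact absurd h (not_le.mpr Cardinal.aleph0_lt_aleph_one)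
    obtain ⟨a, ha, b, hb, hab, hcol⟩ := col_all hV hseg e he r hr h hh v0 S hS' α
    exact ⟨a, ha, b, hb, hab.ne, by rw [hc a b hab]; exact hcol⟩)
  obtain ⟨a, ha, b, hb, b', hb', hab, hab', hbb', hcol⟩ := no_rainbow e he r hr h v0 T hT
  have h1 := hrain a ha b hb a ha b' hb' hab.ne hab'.ne (by
    rw [hc a b hab, hc a b' hab']; exact hcol)
  apply hbb'
  rw [Sym2.eq_iff] at h1
  rcases h1 with ⟨-, h2⟩ | ⟨h2, h3⟩
  · exact h2
  · exact absurd h2 hab'.ne

end Pool.Agent.S14410
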