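import Pool.Statements.S14455
import Pool.Agent.H76.CaseB

set_option autoImplicit false
open Pool Pool.MP_20ee74_lc

namespace Pool.Agent.S14455

open Pool.Agent.H76

/-- In a Polish space with no isolated points, take any family of meager finite-arity relations with fewer members than cov(meager). Then some nowhere meager set A exists such that no tuple of distinct points of A lies in any of the relations. -/
theorem result :
    ∀ (X : Type) [TopologicalSpace X] [PolishSpace X],
      (∀ x : X, (nhdsWithin x {x}ᶜ).NeBot) →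
      ∀ (ι : Type) (n : ι → ℕ) (R : ∀ i, Set (Fin (n i) → X)),
        (∀ i, IsMeagre (R i)) →
        (∀ M : ι → Set ℝ, (∀ i, IsMeagre (M i)) → (⋃ i, M i) ≠ Set.univ) →
        ∃ A : Set X,
          (∀ U : Set X, IsOpen U → U.Nonempty → ¬ IsMeagre (A ∩ U)) ∧
          ∀ (i : ι) (x : Fin (n i) → X), Function.Injective x →
            (∀ k, x k ∈ A) → x ∉ R i := by
  intro X _ _ _ ι n R hR hι
  -- cover every relation by a sequence of nowhere dense relations
  choose K hK1 hK2 using fun i => IsMeagre_exists_seq (hR i)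
  have hJ : CovOK (ι × ℕ) := by
    apply CovOK.of_card_le (J' := ι) _ hι
    rw [Cardinal.mk_prod]
    simp only [Cardinal.lift_id, Cardinal.mk_nat]
    refine (Cardinal.mul_le_max _ _).trans ?_
    exact max_le (max_le (le_max_right _ _) (le_max_left _ _)) (le_max_left _ _)
  suffices h : ∃ A : Set X, (∀ U : Set X, IsOpen U → U.Nonempty → ¬ IsMeagre (A ∩ U)) ∧
      ∀ p : ι × ℕ, ∀ y : Fin (n p.1) → X, Function.Injective y → (∀ a, y a ∈ A) →
        y ∉ K p.1 p.2 by
    obtain ⟨A, hA1, hA2⟩ := h
    refine ⟨A, hA1, fun i x hx hxA hxR => ?_⟩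
    obtain ⟨m, hm⟩ := Set.mem_iUnion.1 (hK2 i hxR)
    exact hA2 (i, m) x hx hxA hm
  rcases isEmpty_or_nonempty X with hX | hX
  · refine ⟨∅, fun U _ hU _ => hX.false hU.some, ?_⟩
    rintro ⟨i, m⟩ y _ hyA hyK
    have hn : IsEmpty (Fin (n i)) := ⟨fun a => hyA a⟩
    have h1 : closure (K i m) = Set.univ := by
      apply Set.eq_univ_of_forall
      intro z
      have : z = y := Subsingleton.elim _ _
      rw [this]
      exact subset_closure hyK
    have h2 := hK1 i m
    rw [IsNowhereDense, h1, interior_univ] at h2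
    have : y ∈ (Set.univ : Set (Fin (n i) → X)) := trivial
    rw [h2] at this
    exact this
  · let _ := TopologicalSpace.upgradeIsCompletelyMetrizable X
    obtain ⟨b, hb1, hb2, hb3⟩ := TopologicalSpace.exists_countable_basis X
    have hbne : b.Nonempty := by
      obtain ⟨t, ht, _⟩ := hb3.exists_subset_of_mem_open (Set.mem_univ hX.some) isOpen_univ
      exact ⟨t, ht⟩
    obtain ⟨B, rfl⟩ := hb1.exists_eq_range hbne
    have hB : PiBase B := by
      refine ⟨fun m => hb3.isOpen ⟨m, rfl⟩, fun m => ?_, ?_⟩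
      · rw [Set.nonempty_iff_ne_empty]
        intro h
        exact hb2 ⟨m, h⟩
      · rintro U hU ⟨x, hx⟩
        obtain ⟨_, ⟨m, rfl⟩, _, hm⟩ := hb3.exists_subset_of_mem_open hx hU
        exact ⟨m, hm⟩
    by_cases h : ∃ H : Set (ℕ → ℕ), CovOK H ∧
        ∀ g : ℕ → ℕ, ∃ h ∈ H, ∀ N, ∃ n ≥ N, g n < h n
    · obtain ⟨H, hH1, hH2⟩ := h
      exact caseA hB H hH1 hH2 hJ (fun p => n p.1) (fun p => K p.1 p.2) (fun p => hK1 p.1 p.2)
    · push Not at h
      exact caseB hB h hJ (fun p => n p.1) (fun p => K p.1 p.2) (fun p => hK1 p.1 p.2)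

end Pool.Agent.S14455
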