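import Pool.Statements.S14608
import Pool.Agent.H79.MCG.Olig

set_option autoImplicit false
open Pool Pool.MP_3c0c60_lc

namespace Pool.Agent.S14608

/-- The negation of the preceding statement: There is a subgroup of the permutations of the naturals that is closed in the pointwise-convergence topology, whose non-identity elements each fix only finitely many points, and which is not properly contained in any other such subgroup. -/
theorem result :
    ¬ (∃ G : Subgroup (Equiv.Perm ℕ),
      (∀ σ : Equiv.Perm ℕ, σ ∉ G →
        ∃ n : ℕ, ∀ τ : Equiv.Perm ℕ, (∀ i < n, τ i = σ i) → τ ∉ G) ∧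
      (∀ g ∈ G, g ≠ 1 → {x : ℕ | g x = x}.Finite) ∧
      (∀ H : Subgroup (Equiv.Perm ℕ), G ≤ H →
        (∀ h ∈ H, h ≠ 1 → {x : ℕ | h x = x}.Finite) → H = G)) := by
  exact Pool.Agent.H79.MCG.no_closed_mcg

end Pool.Agent.S14608
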