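import Pool.Statements.S14610
import Pool.Agent.H73.Main2

set_option autoImplicit false
open MeasureTheory
open scoped ENNReal
open Pool Pool.MP_3c3805_lc

namespace Pool.Agent.S14610

/-- The negation of the preceding statement: For every measure-preserving countable Borel equivalence relation E on a Polish probability space and every Borel graphing G of E, and every ε>0, some Borel subgraph of G still generates E and has cost at most cost(E)+ε. -/
theorem result :
    ¬ (∀ (X : Type) [TopologicalSpace X] [PolishSpace X] [MeasurableSpace X] [BorelSpace X]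
    (μ : Measure X) [IsProbabilityMeasure μ] (E : Set (X × X)),
    MeasurableSet E →
    (∀ x, (x, x) ∈ E) →
    (∀ x y, (x, y) ∈ E → (y, x) ∈ E) →
    (∀ x y z, (x, y) ∈ E → (y, z) ∈ E → (x, z) ∈ E) →
    (∀ x, {y | (x, y) ∈ E}.Countable) →
    (∀ φ : MeasurableEquiv X X, (∀ x, (x, φ x) ∈ E) → Measure.map φ μ = μ) →
    ∀ G : Set (X × X), MeasurableSet G →
      (∀ x y, (x, y) ∈ G → (y, x) ∈ G) →
      (∀ x y, Relation.ReflTransGen (fun a b => (a, b) ∈ G) x y ↔ (x, y) ∈ E) →
      ∀ ε : ℝ, 0 < ε →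
        ∃ H : Set (X × X), H ⊆ G ∧ MeasurableSet H ∧
          (∀ x y, (x, y) ∈ H → (y, x) ∈ H) ∧
          (∀ x y, Relation.ReflTransGen (fun a b => (a, b) ∈ H) x y ↔ (x, y) ∈ E) ∧
          (∫⁻ x, ENat.toENNReal (Set.encard {y | (x, y) ∈ H}) ∂μ) / 2 ≤
            (⨅ (K : Set (X × X))
                (_ : MeasurableSet K ∧ (∀ x y, (x, y) ∈ K → (y, x) ∈ K) ∧
                  (∀ x y, Relation.ReflTransGen (fun a b => (a, b) ∈ K) x y ↔ (x, y) ∈ E)),
                (∫⁻ x, ENat.toENNReal (Set.encard {y | (x, y) ∈ K}) ∂μ) / 2)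
              + ENNReal.ofReal ε) := by
  intro hall
  obtain ⟨f, hf⟩ := MeasureTheory.exists_measurableEmbedding_real Pool.Agent.H73.XX
  obtain ⟨H, hHG, hHm, hHs, hHgen, hHcost⟩ := hall Pool.Agent.H73.XX
    (Pool.Agent.H73.mu Pool.Agent.H73.Gam) Pool.Agent.H73.EE
    Pool.Agent.H73.measurableSet_EE Pool.Agent.H73.EE_refl
    (fun x y h => Pool.Agent.H73.EE_symm h) (fun x y z h h' => Pool.Agent.H73.EE_trans h h')
    Pool.Agent.H73.EE_countable (fun φ h => Pool.Agent.H73.EE_pmp φ h)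
    Pool.Agent.H73.GG Pool.Agent.H73.measurableSet_GG (fun x y h => Pool.Agent.H73.GG_symm h)
    Pool.Agent.H73.GG_gen 1 one_pos
  refine Pool.Agent.H73.no_cheap hHG hHm hHs hHgen ?_
  have h1 : (⨅ (K : Set (Pool.Agent.H73.XX × Pool.Agent.H73.XX))
      (_ : MeasurableSet K ∧ (∀ x y, (x, y) ∈ K → (y, x) ∈ K) ∧
        (∀ x y, Relation.ReflTransGen (fun a b => (a, b) ∈ K) x y ↔
          (x, y) ∈ Pool.Agent.H73.EE)),
      (∫⁻ x, ENat.toENNReal (Set.encard {y | (x, y) ∈ K})
        ∂(Pool.Agent.H73.mu Pool.Agent.H73.Gam)) / 2) ≤ 8 / 2 := by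
    refine (iInf₂_le (Pool.Agent.H73.DD f)
      ⟨Pool.Agent.H73.measurableSet_DD hf.measurable, fun x y h => Pool.Agent.H73.DD_symm h,
        Pool.Agent.H73.DD_gen⟩).trans ?_
    exact ENNReal.div_le_div_right (Pool.Agent.H73.DD_cost hf.measurable hf.injective) 2
  have h2 := hHcost.trans (add_le_add h1 le_rfl)
  rw [ENNReal.ofReal_one] at h2
  have h3 := mul_le_mul_left h2 2
  rw [ENNReal.div_mul_cancel (by norm_num) (by norm_num), add_mul,
    ENNReal.div_mul_cancel (by norm_num) (by norm_num), one_mul] at h3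
  refine h3.trans (le_of_eq ?_)
  norm_num

end Pool.Agent.S14610
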