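import Pool.Statements.S14725
import Pool.Agent.H81.Hard3
import Pool.Agent.H81.PiMain
import Pool.Agent.H81.PiComp

set_option autoImplicit false
open Pool Pool.MP_56bf04_lc

namespace Pool.Agent.S14725

/-- Isomorphism of automatic equivalence relations, on an effective indexing of automata presentations with invalid codes forming one class, is a Π⁰₁ relation, and every Π⁰₁ equivalence relation on ℕ computably reduces to it. -/
theorem result :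
  ∀ (Dom : (Finset (ℕ × ℕ × ℕ) × ℕ × Finset ℕ) × (Finset (ℕ × (Option ℕ × Option ℕ) × ℕ) × ℕ × Finset ℕ) → Set (List ℕ))
    (Rel : (Finset (ℕ × ℕ × ℕ) × ℕ × Finset ℕ) × (Finset (ℕ × (Option ℕ × Option ℕ) × ℕ) × ℕ × Finset ℕ) → List ℕ → List ℕ → Prop)
    (Good : (Finset (ℕ × ℕ × ℕ) × ℕ × Finset ℕ) × (Finset (ℕ × (Option ℕ × Option ℕ) × ℕ) × ℕ × Finset ℕ) → Prop)
    (E : ℕ → ℕ → Prop),
  (∀ p w, w ∈ Dom p ↔
      w ∈ (⟨fun q a => {q' | (q, a, q') ∈ p.1.1}, {p.1.2.1}, (p.1.2.2 : Set ℕ)⟩ : NFA ℕ ℕ).accepts) →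
  (∀ p (u v : List ℕ), Rel p u v ↔
      (List.map (fun i => (u[i]?, v[i]?)) (List.range (max u.length v.length))) ∈
        (⟨fun q a => {q' | (q, a, q') ∈ p.2.1}, {p.2.2.1}, (p.2.2.2 : Set ℕ)⟩ :
          NFA (Option ℕ × Option ℕ) ℕ).accepts) →
  (∀ p, Good p ↔
      ((∀ u ∈ Dom p, Rel p u u) ∧
       (∀ u ∈ Dom p, ∀ v ∈ Dom p, Rel p u v → Rel p v u) ∧
       (∀ u ∈ Dom p, ∀ v ∈ Dom p, ∀ w ∈ Dom p, Rel p u v → Rel p v w → Rel p u w))) →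
  (∀ n m : ℕ, E n m ↔
      (((¬ ∃ p : (Finset (ℕ × ℕ × ℕ) × ℕ × Finset ℕ) × (Finset (ℕ × (Option ℕ × Option ℕ) × ℕ) × ℕ × Finset ℕ),
            Encodable.decode n = some p ∧ Good p) ∧
        (¬ ∃ q : (Finset (ℕ × ℕ × ℕ) × ℕ × Finset ℕ) × (Finset (ℕ × (Option ℕ × Option ℕ) × ℕ) × ℕ × Finset ℕ),
            Encodable.decode m = some q ∧ Good q)) ∨
       ∃ p q : (Finset (ℕ × ℕ × ℕ) × ℕ × Finset ℕ) × (Finset (ℕ × (Option ℕ × Option ℕ) × ℕ) × ℕ × Finset ℕ),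
         Encodable.decode n = some p ∧ Encodable.decode m = some q ∧ Good p ∧ Good q ∧
         ∃ f : List ℕ → List ℕ, Set.BijOn f (Dom p) (Dom q) ∧
           ∀ u ∈ Dom p, ∀ v ∈ Dom p, (Rel p u v ↔ Rel q (f u) (f v)))) →
  (∃ P : ℕ × ℕ × ℕ → Prop, ComputablePred P ∧ ∀ x y, E x y ↔ ∀ t, P (x, y, t)) ∧
  ∀ R : ℕ → ℕ → Prop, Equivalence R →
    (∃ P : ℕ × ℕ × ℕ → Prop, ComputablePred P ∧ ∀ x y, R x y ↔ ∀ t, P (x, y, t)) →
    ∃ f : ℕ → ℕ, Computable f ∧ ∀ x y, R x y ↔ E (f x) (f y) := by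
  intro Dom Rel Good E hDom hRel hGood hE
  have hD : ∀ p, Dom p = H81.DomP p := by
    intro p
    ext w
    rw [hDom, H81.mem_accepts_iff]
    exact Iff.rfl
  have hR : ∀ p, Rel p = H81.RelP p := by
    intro p
    funext u v
    exact propext ((hRel p u v).trans (H81.mem_accepts_iff _ _ _ _))
  have hG : ∀ p, Good p ↔ H81.EqOn (H81.DomP p) (H81.RelP p) := by
    intro p
    rw [hGood, hD, hR]
    constructor
    · rintro ⟨h1, h2, h3⟩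
      exact ⟨h1, h2, h3⟩
    · rintro ⟨h1, h2, h3⟩
      exact ⟨h1, h2, h3⟩
  have hV : ∀ n, (∃ p : (Finset (ℕ × ℕ × ℕ) × ℕ × Finset ℕ) ×
      (Finset (ℕ × (Option ℕ × Option ℕ) × ℕ) × ℕ × Finset ℕ),
      Encodable.decode n = some p ∧ Good p) ↔ H81.ValidP n := by
    intro n
    constructor
    · rintro ⟨p, hp, hg⟩
      exact ⟨p, hp, (hG p).1 hg⟩
    · rintro ⟨p, hp, hg⟩
      exact ⟨p, hp, (hG p).2 hg⟩
  have hEP : ∀ n m, E n m ↔ H81.EP n m := by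
    intro n m
    rw [hE, hV, hV]
    constructor
    · rintro (h | ⟨p, q, hp, hq, gp, gq, hf⟩)
      · exact Or.inl h
      · rw [hD, hD, hR, hR] at hf
        exact Or.inr ⟨p, q, hp, hq, (hG p).1 gp, (hG q).1 gq, hf⟩
    · rintro (h | ⟨p, q, hp, hq, gp, gq, hf⟩)
      · exact Or.inl h
      · refine Or.inr ⟨p, q, hp, hq, (hG p).2 gp, (hG q).2 gq, ?_⟩
        rw [hD, hD, hR, hR]
        exact hf
  refine ⟨⟨fun q => H81.Pdec q.1 q.2.1 q.2.2, H81.Pdec_computable, ?_⟩, ?_⟩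
  · intro x y
    rw [hEP]
    exact H81.EP_iff x y
  · intro R hRe hP
    obtain ⟨f, hf, h⟩ := H81.EP_hard R hRe hP
    exact ⟨f, hf, fun x y => (h x y).trans (hEP _ _).symm⟩

end Pool.Agent.S14725
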