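import Pool.Statements.S14927
import Pool.Agent.H82.TQ.K3

set_option autoImplicit false
open Asymptotics
open Pool Pool.MP_7803ed_lc

namespace Pool.Agent.S14927

/-- There is δ>0 and a query budget q(n)=o(n²) such that for every n some randomized adaptive algorithm making at most q(n) distance queries outputs, on every n-point metric, a value between the TSP optimum and (2−δ) times it with probability at least 2/3. -/
theorem result :
    ∃ δ : ℝ, 0 < δ ∧ ∃ q : ℕ → ℕ,
      (fun n : ℕ => (q n : ℝ)) =o[Filter.atTop] (fun n : ℕ => (n : ℝ) ^ 2) ∧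
      ∀ n : ℕ, ∃ m : ℕ, 0 < m ∧
        ∃ step : Fin m → List ℝ → ((Fin n × Fin n) ⊕ ℝ),
          ∀ d : Fin n → Fin n → ℝ,
            (∀ i, d i i = 0) →
            (∀ i j, i ≠ j → 0 < d i j) →
            (∀ i j, d i j = d j i) →
            (∀ i j k, d i k ≤ d i j + d j k) →
            2 * m ≤ 3 * Nat.card {s : Fin m // ∃ r : ℝ,
              step s ((fun h : List ℝ =>
                  Sum.elim (fun p : Fin n × Fin n => h ++ [d p.1 p.2])
                    (fun _ : ℝ => h) (step s h))^[q n] []) = Sum.inr r ∧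
              (⨅ σ : Equiv.Perm (Fin n), ∑ i : Fin n, d (σ i) (σ (finRotate n i))) ≤ r ∧
              r ≤ (2 - δ) *
                (⨅ σ : Equiv.Perm (Fin n), ∑ i : Fin n, d (σ i) (σ (finRotate n i)))} :=
  H82.TQ.frozen_of_alg (1 / 10 ^ 9) (by norm_num) (by norm_num) H82.TQ.algs

end Pool.Agent.S14927
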