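import Pool.Statements.S15546
import Pool.Agent.H81.Dec.Final

set_option autoImplicit false
open Pool Pool.MP_e695f0_lc

namespace Pool.Agent.S15546

/-- The negation of the preceding statement: For every finite alphabet, the set of (codes of) finite automata whose recognized language lies in a finite family of languages, each of whose concatenation-splits and shuffle-splits are finite unions of products of family members, is computable. -/
theorem result :
    ¬ (∀ k : ℕ, ComputablePred (fun c : List (List ℕ) × List ℕ =>
      ∃ S : Set (Set (List (Fin k))), S.Finite ∧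
        {w : List (Fin k) |
            w.foldl (fun q a => (c.1.getD q []).getD (a : ℕ) 0) 0 ∈ c.2} ∈ S ∧
        ∀ L ∈ S,
          (∃ P : Set (Set (List (Fin k)) × Set (List (Fin k))), P ⊆ S ×ˢ S ∧
            {p : List (Fin k) × List (Fin k) | p.1 ++ p.2 ∈ L} =
              ⋃ q ∈ P, q.1 ×ˢ q.2) ∧
          (∃ P : Set (Set (List (Fin k)) × Set (List (Fin k))), P ⊆ S ×ˢ S ∧
            {p : List (Fin k) × List (Fin k) | ∃ w ∈ L, ∃ l : List (Fin k × Bool),
                l.map Prod.fst = w ∧
                (l.filter (fun x => x.2)).map Prod.fst = p.1 ∧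
                (l.filter (fun x => !x.2)).map Prod.fst = p.2} =
              ⋃ q ∈ P, q.1 ×ˢ q.2))) := by
  intro h
  obtain ⟨k, hk⟩ := Pool.Agent.H81.Dec.exists_undecidable
  exact hk (h k)

end Pool.Agent.S15546
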