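import Pool.Statements.S15999

set_option autoImplicit false
open Filter
open Pool Pool.MP_0c8f06_nt

namespace Pool.Agent.S15999

/-- `√3` is irrational: `n √3` is never a natural number for `n ≥ 1`. -/
theorem ne_nat (n m : ℕ) (hn : 1 ≤ n) : (n : ℝ) * Real.sqrt 3 ≠ (m : ℝ) := by
  intro h
  have hirr : Irrational (Real.sqrt ((3 : ℕ) : ℝ)) := Nat.Prime.irrational_sqrt (by norm_num)
  apply hirr
  refine ⟨(m : ℚ) / n, ?_⟩
  have hn0 : (n : ℝ) ≠ 0 := by positivity
  push_cast
  rw [← h]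
  field_simp

/-- Two consecutive terms, the first at least `2`, none divisible by `3`: the next term is not
divisible by `3` either, and the second one is larger than the first. -/
theorem step (n m k : ℕ) (hn : 2 ≤ n) (hm : m = ⌊(n : ℝ) * Real.sqrt 3⌋₊)
    (hk : k = ⌊(m : ℝ) * Real.sqrt 3⌋₊) : n < m ∧ k % 3 ≠ 0 := by
  have hs0 : (0 : ℝ) ≤ Real.sqrt 3 := Real.sqrt_nonneg 3
  have hs : Real.sqrt 3 * Real.sqrt 3 = 3 := Real.mul_self_sqrt (by norm_num)
  have hs2 : Real.sqrt 3 < 2 := by nlinarith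
  have hs1 : (3 : ℝ) / 2 < Real.sqrt 3 := by nlinarith
  have hn' : (2 : ℝ) ≤ n := by exact_mod_cast hn
  have hnn : (0 : ℝ) ≤ (n : ℝ) * Real.sqrt 3 := by positivity
  have h1 : (m : ℝ) ≤ (n : ℝ) * Real.sqrt 3 := by
    rw [hm]; exact Nat.floor_le hnn
  have h2 : (n : ℝ) * Real.sqrt 3 < (m : ℝ) + 1 := by
    rw [hm]; exact Nat.lt_floor_add_one _
  have h1' : (m : ℝ) < (n : ℝ) * Real.sqrt 3 :=
    lt_of_le_of_ne h1 (fun h => ne_nat n m (by omega) h.symm)
  have hnm : n < m := by
    have : (n + 1 : ℕ) ≤ m := by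
      rw [hm]
      apply Nat.le_floor
      push_cast
      nlinarith
    omega
  have hmm : (0 : ℝ) ≤ (m : ℝ) * Real.sqrt 3 := by positivity
  have h3 : (k : ℝ) ≤ (m : ℝ) * Real.sqrt 3 := by
    rw [hk]; exact Nat.floor_le hmm
  have h4 : (m : ℝ) * Real.sqrt 3 < (k : ℝ) + 1 := by
    rw [hk]; exact Nat.lt_floor_add_one _
  have h5 : (k : ℝ) < 3 * n := by
    have : (m : ℝ) * Real.sqrt 3 < 3 * n := by
      have := mul_lt_mul_of_pos_right h1' (show (0 : ℝ) < Real.sqrt 3 by linarith)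
      nlinarith
    linarith
  have h6 : (3 : ℝ) * n < k + 3 := by
    have := mul_lt_mul_of_pos_right h2 (show (0 : ℝ) < Real.sqrt 3 by linarith)
    nlinarith
  have h5' : k < 3 * n := by exact_mod_cast h5
  have h6' : 3 * n < k + 3 := by exact_mod_cast h6
  exact ⟨hnm, by omega⟩

variable (f : ℕ → ℕ)

/-- Divergence to infinity is a tail property. -/
theorem tail (n : ℕ) : Tendsto (fun k : ℕ => f^[k] (f n)) atTop atTop ↔
    Tendsto (fun k : ℕ => f^[k] n) atTop atTop := by
  have := tendsto_add_atTop_iff_nat (f := fun k : ℕ => f^[k] n) (l := atTop) 1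
  rw [← this]
  rfl

/-- Two consecutive terms not divisible by `3` force divergence. -/
theorem diverge (hf : ∀ n : ℕ, f n = if n % 3 = 0 then n / 3 else ⌊(n : ℝ) * Real.sqrt 3⌋₊)
    (n : ℕ) (hn : 2 ≤ n) (h1 : n % 3 ≠ 0) (h2 : f n % 3 ≠ 0) :
    Tendsto (fun k : ℕ => f^[k] n) atTop atTop := by
  have key : ∀ k : ℕ, 2 ≤ f^[k] n ∧ f^[k] n % 3 ≠ 0 ∧ f^[k + 1] n % 3 ≠ 0 ∧
      f^[k] n < f^[k + 1] n := by
    intro k
    induction k with
    | zero =>
      have hfn : f n = ⌊(n : ℝ) * Real.sqrt 3⌋₊ := by rw [hf n, if_neg h1]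
      refine ⟨hn, h1, h2, ?_⟩
      exact (step n (f n) _ hn hfn rfl).1
    | succ k ih =>
      obtain ⟨a, b, c, d⟩ := ih
      have e1 : f^[k + 1] n = ⌊((f^[k] n : ℕ) : ℝ) * Real.sqrt 3⌋₊ := by
        rw [Function.iterate_succ_apply', hf (f^[k] n), if_neg b]
      have e2 : f^[k + 1 + 1] n = ⌊((f^[k + 1] n : ℕ) : ℝ) * Real.sqrt 3⌋₊ := by
        rw [Function.iterate_succ_apply', hf (f^[k + 1] n), if_neg c]
      have s1 := step _ _ _ a e1 e2
      have a' : 2 ≤ f^[k + 1] n := by omega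
      have s2 := step _ _ (⌊((f^[k + 1 + 1] n : ℕ) : ℝ) * Real.sqrt 3⌋₊) a' e2 rfl
      exact ⟨a', c, s1.2, s2.1⟩
  exact (strictMono_nat_of_lt_succ (fun k => (key k).2.2.2)).tendsto_atTop

/-- The survivors: positive integers whose orbit does not tend to infinity. -/
def Surv : Set ℕ := {n : ℕ | 1 ≤ n ∧ ¬ Tendsto (fun k : ℕ => f^[k] n) atTop atTop}

open Classical in
/-- The finset of survivors up to `N`. -/
noncomputable def SF (N : ℕ) : Finset ℕ := (Finset.range (N + 1)).filter (fun n => n ∈ Surv f)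

theorem mem_SF (N n : ℕ) : n ∈ SF f N ↔ n ≤ N ∧ n ∈ Surv f := by
  simp [SF]

/-- The main recursion. -/
theorem rec_bound (hf : ∀ n : ℕ, f n = if n % 3 = 0 then n / 3 else ⌊(n : ℝ) * Real.sqrt 3⌋₊)
    (N : ℕ) : (SF f N).card ≤ (SF f (N / 3)).card + (SF f (3 * N / 5)).card + 1 := by
  classical
  have hs0 : (0 : ℝ) ≤ Real.sqrt 3 := Real.sqrt_nonneg 3
  have hs : Real.sqrt 3 * Real.sqrt 3 = 3 := Real.mul_self_sqrt (by norm_num)
  have hs1 : (3 : ℝ) / 2 < Real.sqrt 3 := by nlinarith
  have hs2 : Real.sqrt 3 < 9 / 5 := by nlinarith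
  -- split
  set A := (SF f N).filter (fun n => n % 3 = 0) with hA
  set B := (SF f N).filter (fun n => n % 3 ≠ 0 ∧ 2 ≤ n) with hB
  have hsub : SF f N ⊆ A ∪ B ∪ {1} := by
    intro n hn
    have hn1 : 1 ≤ n := ((mem_SF f N n).1 hn).2.1
    simp only [hA, hB, Finset.mem_union, Finset.mem_filter, Finset.mem_singleton, hn, true_and]
    omega
  have hcard : (SF f N).card ≤ A.card + B.card + 1 := by
    refine (Finset.card_le_card hsub).trans ((Finset.card_union_le _ _).trans ?_)
    have := Finset.card_union_le A B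
    simp only [Finset.card_singleton]
    omega
  have hAc : A.card ≤ (SF f (N / 3)).card := by
    apply Finset.card_le_card_of_injOn (fun n => n / 3)
    · intro n hn
      simp only [hA, Finset.coe_filter, Set.mem_ofPred_eq] at hn
      obtain ⟨hn, h3⟩ := hn
      obtain ⟨hnN, hn1, hnt⟩ := (mem_SF f N n).1 hn
      rw [Finset.mem_coe, mem_SF]
      refine ⟨Nat.div_le_div_right hnN, ?_, ?_⟩
      · show 1 ≤ n / 3
        omega
      · intro hc
        apply hnt
        rw [← tail]
        rw [hf n, if_pos h3]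
        exact hc
    · intro a ha b hb hab
      simp only [hA, Finset.coe_filter, Set.mem_ofPred_eq] at ha hb
      simp only at hab
      omega
  have hBc : B.card ≤ (SF f (3 * N / 5)).card := by
    apply Finset.card_le_card_of_injOn (fun n => f n / 3)
    · intro n hn
      simp only [hB, Finset.coe_filter, Set.mem_ofPred_eq] at hn
      obtain ⟨hn, h3, hn2⟩ := hn
      obtain ⟨hnN, hn1, hnt⟩ := (mem_SF f N n).1 hn
      have hfn : f n = ⌊(n : ℝ) * Real.sqrt 3⌋₊ := by rw [hf n, if_neg h3]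
      have hf3 : f n % 3 = 0 := by
        by_contra hcon
        exact hnt (diverge f hf n hn2 h3 hcon)
      have hle : (f n : ℝ) ≤ (n : ℝ) * Real.sqrt 3 := by
        rw [hfn]; exact Nat.floor_le (by positivity)
      have hge : 3 ≤ f n := by
        rw [hfn]
        apply Nat.le_floor
        have : (2 : ℝ) ≤ n := by exact_mod_cast hn2
        push_cast
        nlinarith
      rw [Finset.mem_coe, mem_SF]
      refine ⟨?_, ?_, ?_⟩
      · have : (f n : ℝ) * 5 ≤ 9 * N := by
          have hn0 : (0 : ℝ) ≤ n := Nat.cast_nonneg n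
          have hnN' : (n : ℝ) ≤ N := by exact_mod_cast hnN
          nlinarith
        have : f n * 5 ≤ 9 * N := by exact_mod_cast this
        show f n / 3 ≤ 3 * N / 5
        omega
      · show 1 ≤ f n / 3
        omega
      · intro hc
        apply hnt
        rw [← tail, ← tail]
        rw [hf (f n), if_pos hf3]
        exact hc
    · intro a ha b hb hab
      simp only [hB, Finset.coe_filter, Set.mem_ofPred_eq] at ha hb
      obtain ⟨ha, ha3, ha2⟩ := ha
      obtain ⟨hb, hb3, hb2⟩ := hb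
      obtain ⟨haN, ha1, hat⟩ := (mem_SF f N a).1 ha
      obtain ⟨hbN, hb1, hbt⟩ := (mem_SF f N b).1 hb
      have hfa : f a = ⌊(a : ℝ) * Real.sqrt 3⌋₊ := by rw [hf a, if_neg ha3]
      have hfb : f b = ⌊(b : ℝ) * Real.sqrt 3⌋₊ := by rw [hf b, if_neg hb3]
      have hfa3 : f a % 3 = 0 := by
        by_contra hcon
        exact hat (diverge f hf a ha2 ha3 hcon)
      have hfb3 : f b % 3 = 0 := by
        by_contra hcon
        exact hbt (diverge f hf b hb2 hb3 hcon)
      have hfab : f a = f b := by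
        simp only at hab
        omega
      have mono : ∀ x y : ℕ, x < y → ⌊(x : ℝ) * Real.sqrt 3⌋₊ < ⌊(y : ℝ) * Real.sqrt 3⌋₊ := by
        intro x y hxy
        have hxy' : (x : ℝ) + 1 ≤ y := by exact_mod_cast hxy
        have h1 : ⌊(x : ℝ) * Real.sqrt 3⌋₊ + 1 ≤ ⌊(y : ℝ) * Real.sqrt 3⌋₊ := by
          apply Nat.le_floor
          have := Nat.floor_le (show (0 : ℝ) ≤ (x : ℝ) * Real.sqrt 3 by positivity)
          push_cast
          nlinarith
        omega
      rcases lt_trichotomy a b with h | h | h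
      · have := mono a b h
        omega
      · exact h
      · have := mono b a h
        omega
  omega

/-- Iterated form of the recursion. -/
theorem iter_bound (hf : ∀ n : ℕ, f n = if n % 3 = 0 then n / 3 else ⌊(n : ℝ) * Real.sqrt 3⌋₊)
    (k : ℕ) : ∃ C : ℝ, 0 ≤ C ∧ ∀ N : ℕ, ((SF f N).card : ℝ) ≤ (14 / 15 : ℝ) ^ k * N + C := by
  classical
  induction k with
  | zero =>
    refine ⟨1, by norm_num, fun N => ?_⟩
    have : (SF f N).card ≤ N + 1 := by
      unfold SF
      refine (Finset.card_filter_le _ _).trans ?_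
      simp
    have : ((SF f N).card : ℝ) ≤ N + 1 := by exact_mod_cast this
    simpa using this
  | succ k ih =>
    obtain ⟨C, hC0, hC⟩ := ih
    refine ⟨2 * C + 1, by linarith, fun N => ?_⟩
    have h1 := rec_bound f hf N
    have h1' : ((SF f N).card : ℝ) ≤ (SF f (N / 3)).card + (SF f (3 * N / 5)).card + 1 := by
      exact_mod_cast h1
    have h2 := hC (N / 3)
    have h3 := hC (3 * N / 5)
    have h4 : ((N / 3 : ℕ) : ℝ) ≤ (N : ℝ) / 3 := by
      have := @Nat.cast_div_le ℝ _ _ _ N 3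
      simpa using this
    have h5 : ((3 * N / 5 : ℕ) : ℝ) ≤ 3 * (N : ℝ) / 5 := by
      have := @Nat.cast_div_le ℝ _ _ _ (3 * N) 5
      push_cast at this
      exact this
    have hp : (0 : ℝ) ≤ (14 / 15 : ℝ) ^ k := by positivity
    have h6 := mul_le_mul_of_nonneg_left h4 hp
    have h7 := mul_le_mul_of_nonneg_left h5 hp
    rw [pow_succ]
    nlinarith

/-- For f(n)=n/3 if 3 divides n and f(n)=floor(n·√3) otherwise, the set of positive integers whose orbit under f tends to infinity has natural density 1. -/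
theorem result :
    ∀ f : ℕ → ℕ,
      (∀ n : ℕ, f n = if n % 3 = 0 then n / 3 else ⌊(n : ℝ) * Real.sqrt 3⌋₊) →
      Tendsto
        (fun N : ℕ =>
          (({n : ℕ | 1 ≤ n ∧ n ≤ N ∧
              Tendsto (fun k : ℕ => f^[k] n) atTop atTop}.ncard : ℕ) : ℝ) / (N : ℝ))
        atTop (nhds 1) := by
  classical
  intro f hf
  -- the count of divergent n is N minus the count of survivors
  have hcount : ∀ N : ℕ, ({n : ℕ | 1 ≤ n ∧ n ≤ N ∧
      Tendsto (fun k : ℕ => f^[k] n) atTop atTop}.ncard : ℕ) + (SF f N).card = N := by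
    intro N
    have h1 : {n : ℕ | 1 ≤ n ∧ n ≤ N ∧ Tendsto (fun k : ℕ => f^[k] n) atTop atTop} =
        (((Finset.Icc 1 N).filter
          (fun n => Tendsto (fun k : ℕ => f^[k] n) atTop atTop) : Finset ℕ) : Set ℕ) := by
      ext n
      simp [and_assoc]
    have h2 : SF f N = (Finset.Icc 1 N).filter
        (fun n => ¬ Tendsto (fun k : ℕ => f^[k] n) atTop atTop) := by
      ext n
      rw [mem_SF]
      simp only [Surv, Set.mem_ofPred_eq, Finset.mem_filter, Finset.mem_Icc]
      tauto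
    rw [h1, Set.ncard_coe_finset, h2, Finset.card_filter_add_card_filter_not]
    simp
  have hsurv : Tendsto (fun N : ℕ => ((SF f N).card : ℝ) / (N : ℝ)) atTop (nhds 0) := by
    rw [Metric.tendsto_atTop]
    intro ε hε
    obtain ⟨k, hk⟩ := exists_pow_lt_of_lt_one (show (0 : ℝ) < ε / 2 by linarith)
      (show (14 / 15 : ℝ) < 1 by norm_num)
    obtain ⟨C, hC0, hC⟩ := iter_bound f hf k
    obtain ⟨M, hM⟩ := exists_nat_gt (C / (ε / 2))
    refine ⟨M + 1, fun N hN => ?_⟩
    have hNpos : (0 : ℝ) < N := by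
      have : 0 < N := by omega
      exact_mod_cast this
    have hMN : (M : ℝ) ≤ N := by
      have : M ≤ N := by omega
      exact_mod_cast this
    have h0 : (0 : ℝ) ≤ ((SF f N).card : ℝ) / N := by positivity
    rw [Real.dist_eq, sub_zero, abs_of_nonneg h0, div_lt_iff₀ hNpos]
    have h1 := hC N
    have h2 : C < (ε / 2) * N := by
      have : C / (ε / 2) < N := lt_of_lt_of_le hM hMN
      rw [div_lt_iff₀ (by linarith)] at this
      linarith
    have h3 : (14 / 15 : ℝ) ^ k * N < ε / 2 * N := mul_lt_mul_of_pos_right hk hNpos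
    linarith
  have hlim : Tendsto (fun N : ℕ => 1 - ((SF f N).card : ℝ) / (N : ℝ)) atTop (nhds 1) := by
    have := (tendsto_const_nhds (x := (1 : ℝ)) (f := atTop (α := ℕ))).sub hsurv
    simpa using this
  refine hlim.congr' ?_
  filter_upwards [eventually_gt_atTop 0] with N hN
  have hN' : (N : ℝ) ≠ 0 := by
    have : (0 : ℝ) < N := by exact_mod_cast hN
    exact ne_of_gt this
  have := hcount N
  have h : ((({n : ℕ | 1 ≤ n ∧ n ≤ N ∧
      Tendsto (fun k : ℕ => f^[k] n) atTop atTop}.ncard : ℕ) : ℝ)) = N - (SF f N).card := by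
    have h' : ((({n : ℕ | 1 ≤ n ∧ n ≤ N ∧
      Tendsto (fun k : ℕ => f^[k] n) atTop atTop}.ncard : ℕ) : ℝ)) + (SF f N).card = N := by
      exact_mod_cast this
    linarith
  rw [h, sub_div, div_self hN']

end Pool.Agent.S15999
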