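import Pool.Statements.S19353
import Pool.Agent.H89.Kac.TLocProof

set_option autoImplicit false
open MeasureTheory Filter Topology
open Pool Pool.MP_5fc11c_pr

namespace Pool.Agent.S19353

/-- For every real law with mean 0 and variance 1, the expected number of distinct real roots of the degree-n polynomial with i.i.d. coefficients of that law, minus (2/π) log n, converges to a finite real limit. -/
theorem result :
    ∀ (μ : Measure ℝ) [IsProbabilityMeasure μ],
      Integrable (fun x : ℝ => x ^ 2) μ →
      ∫ x, x ∂μ = 0 →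
      ∫ x, x ^ 2 ∂μ = 1 →
      ∃ C : ℝ, Tendsto
        (fun n : ℕ =>
          (∫⁻ c : Fin (n + 1) → ℝ,
              (((∑ k : Fin (n + 1), Polynomial.C (c k) * Polynomial.X ^ (k : ℕ)).roots.toFinset.card : ℕ) : ENNReal)
              ∂(Measure.pi fun _ : Fin (n + 1) => μ)).toReal
            - 2 / Real.pi * Real.log (n : ℝ))
        atTop (𝓝 C) := by
  intro μ _ h2 hm h21
  exact H89.Kac.modK μ h2 hm h21 64 (by norm_num) (H89.Kac.tloc μ h2 hm h21)
    (fun ε hε b hb0 hb1 => H89.Kac.modI μ h2 (H89.Kac.no_atom_one μ hm h21) ε hε b hb0 hb1)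
    (fun ε hε => H89.Kac.modJ μ h2 hm h21 ε hε)

end Pool.Agent.S19353
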