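import Pool.Statements.S19465
import Pool.Agent.LP.VMain
import Pool.Agent.LP.VLat

set_option autoImplicit false
open MeasureTheory ProbabilityTheory
open Pool Pool.MP_8c5616_pr

namespace Pool.Agent.S19465

/-- There exists n ≥ 3 such that the sup of p admitting a 1-independent bond percolation measure on Z^n (vertex-disjoint edge families independent) with every edge open w.p. ≥ p and a.s. all open clusters finite equals 4 − 2√3. -/
theorem result :
    ∃ n : ℕ, 3 ≤ n ∧
      sSup {p : ℝ | ∃ μ : Measure ((Fin n → ℤ) × Fin n → Bool),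
        IsProbabilityMeasure μ ∧
        (∀ A B : Set ((Fin n → ℤ) × Fin n),
          (∀ a ∈ A, ∀ b ∈ B,
            Disjoint ({a.1, a.1 + Pi.single a.2 1} : Set (Fin n → ℤ))
              ({b.1, b.1 + Pi.single b.2 1} : Set (Fin n → ℤ))) →
          Indep (⨆ a ∈ A, MeasurableSpace.comap (fun ω : (Fin n → ℤ) × Fin n → Bool => ω a)
                    (⊤ : MeasurableSpace Bool))
                (⨆ b ∈ B, MeasurableSpace.comap (fun ω : (Fin n → ℤ) × Fin n → Bool => ω b)
                    (⊤ : MeasurableSpace Bool)) μ) ∧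
        (∀ e : (Fin n → ℤ) × Fin n, ENNReal.ofReal p ≤ μ {ω | ω e = true}) ∧
        (∀ᵐ ω ∂μ, ∀ x : Fin n → ℤ,
          {y : Fin n → ℤ | (SimpleGraph.fromRel
              (fun u v : Fin n → ℤ => ∃ i : Fin n, v = u + Pi.single i 1 ∧ ω (u, i) = true)).Reachable x y}.Finite)}
        = 4 - 2 * Real.sqrt 3 := by
  obtain ⟨N₀, hmain⟩ := Pool.Agent.LP.main_upper
  exact Pool.Agent.LP.final_of_main N₀ hmain

end Pool.Agent.S19465
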