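import Pool.Statements.S19571
import Pool.Agent.H85.WSM.Moments

set_option autoImplicit false
open MeasureTheory
open scoped Pointwise ENNReal
open Pool Pool.MP_b2be3e_pr

namespace Pool.Agent.S19571

/-- There is a constant C such that for every log-concave probability law on R^n, every norm and every p≥1, the p-th moment of the norm is at most C times the mean norm plus the largest p-th moment of ⟨v,X⟩ over dual-unit v. -/
theorem result :
    ∃ C : ℝ, 0 < C ∧ ∀ n : ℕ, ∀ μ : Measure (Fin n → ℝ), IsProbabilityMeasure μ →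
      (∀ A B : Set (Fin n → ℝ), IsCompact A → IsCompact B → A.Nonempty → B.Nonempty →
        ∀ t : ℝ, 0 ≤ t → t ≤ 1 →
          μ A ^ t * μ B ^ (1 - t) ≤ μ (t • A + (1 - t) • B)) →
      ∀ N : (Fin n → ℝ) → ℝ,
        (∀ x y, N (x + y) ≤ N x + N y) →
        (∀ (c : ℝ) x, N (c • x) = |c| * N x) →
        (∀ x, N x = 0 → x = 0) →
      ∀ p : ℝ, 1 ≤ p →
        (∫⁻ x, ENNReal.ofReal (N x ^ p) ∂μ) ^ (1 / p) ≤
          ENNReal.ofReal C *
            (∫⁻ x, ENNReal.ofReal (N x) ∂μ +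
              ⨆ v : Fin n → ℝ, ⨆ (_ : ∀ x, |∑ i, v i * x i| ≤ N x),
                (∫⁻ x, ENNReal.ofReal (|∑ i, v i * x i| ^ p) ∂μ) ^ (1 / p)) := by
  refine ⟨99, by norm_num, ?_⟩
  intro n μ hprob hμ N hadd hhom _ p hp
  have hN : Pool.Agent.H85.WSM.SemiN N := ⟨hadd, hhom⟩
  exact Pool.Agent.H85.WSM.main hμ hN hp

end Pool.Agent.S19571
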